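import Pool.Agent.H91.GE.Uniq

/-!
# Secure compact submanifolds: finitely many geodesics of bounded length between two points
-/

set_option autoImplicit false

open scoped InnerProductSpace Topology ContDiff
open Set Filter

namespace Pool.Agent.H91.GE

variable {E F : Type*} [NormedAddCommGroup E] [InnerProductSpace ℝ E] [FiniteDimensional ℝ E]
  [NormedAddCommGroup F] [InnerProductSpace ℝ F] [FiniteDimensional ℝ F]

/-- Security of the pair `x, y`. -/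
def SecurePair (S : Set E) (x y : E) : Prop :=
  ∃ B : Finset E, (↑B : Set E) ⊆ S ∧ x ∉ B ∧ y ∉ B ∧
    ∀ γ : ℝ → E, IsGeo S γ → γ 0 = x → γ 1 = y → deriv γ 0 ≠ 0 → ∃ t ∈ Ioo (0 : ℝ) 1, γ t ∈ B

/-- The set `S` is secure. -/
def Secure (S : Set E) : Prop := ∀ x ∈ S, ∀ y ∈ S, SecurePair S x y

omit [FiniteDimensional ℝ E] in
theorem IsGeo.deriv_ne (S : Set E) {γ : ℝ → E} (hγ : IsGeo S γ) (h : deriv γ 0 ≠ 0) (t : ℝ) :
    deriv γ t ≠ 0 := by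
  rw [← norm_ne_zero_iff, hγ.speed t 0, norm_ne_zero_iff]
  exact h

omit [FiniteDimensional ℝ E] in
/-- Level sets of a geodesic on a bounded interval are finite. -/
theorem finite_level (S : Set E) {σ : ℝ → E} (hσ : IsGeo S σ) (h : deriv σ 0 ≠ 0) (x : E) (C : ℝ) :
    {s : ℝ | s ∈ Icc (-C) C ∧ σ s = x}.Finite := by
  by_contra hinf
  have hinf' : {s : ℝ | s ∈ Icc (-C) C ∧ σ s = x}.Infinite := hinf
  obtain ⟨s₀, -, hacc⟩ := hinf'.exists_accPt_of_subset_isCompact (isCompact_Icc (a := -C) (b := C))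
    (fun s hs => hs.1)
  have hne : ∀ᶠ s in 𝓝[≠] s₀, σ s ≠ x :=
    (hσ.hasDerivAt s₀).eventually_ne (hσ.deriv_ne S h s₀)
  rw [accPt_iff_frequently_nhdsNE] at hacc
  exact hacc (hne.mono fun s hs hs' => hs hs'.2)

/-- Pigeonhole principle for infinite sets. -/
theorem exists_infinite_fib {α β : Type*} {A : Set α} (hA : A.Infinite) {B : Set β}
    (hB : B.Finite) (f : α → β) (hf : ∀ a ∈ A, f a ∈ B) :
    ∃ b ∈ B, {a ∈ A | f a = b}.Infinite := by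
  by_contra hcon
  push Not at hcon
  have h1 : A ⊆ ⋃ b ∈ B, {a ∈ A | f a = b} := by
    intro a ha
    rw [mem_iUnion₂]
    exact ⟨f a, hf a ha, ha, rfl⟩
  exact hA ((hB.biUnion fun b hb => by
    have := hcon b hb
    exact this).subset h1)

/-- One blocking step: an infinite family of geodesics which pass through `y` at a positive time
contains an infinite subfamily which passes through one point at earlier positive times. -/
theorem block_step {S : Set E} {x y : E} (hxy : SecurePair S x y) {A : Set (ℝ → E)}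
    (hA : A.Infinite) (hgeo : ∀ γ ∈ A, IsGeo S γ ∧ γ 0 = x ∧ deriv γ 0 ≠ 0) (τ : (ℝ → E) → ℝ)
    (hτ : ∀ γ ∈ A, 0 < τ γ ∧ γ (τ γ) = y) :
    ∃ z ∈ S, ∃ A' ⊆ A, A'.Infinite ∧ ∃ τ' : (ℝ → E) → ℝ,
      ∀ γ ∈ A', 0 < τ' γ ∧ τ' γ < τ γ ∧ γ (τ' γ) = z := by
  obtain ⟨B, hBS, -, -, hB⟩ := hxy
  have hstep : ∀ γ ∈ A, ∃ z ∈ B, ∃ t : ℝ, 0 < t ∧ t < τ γ ∧ γ t = z := by
    intro γ hγ
    obtain ⟨hg, h0, hd⟩ := hgeo γ hγ
    obtain ⟨hτ0, hτy⟩ := hτ γ hγ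
    obtain ⟨t, ht, hm⟩ := hB (fun s => γ (0 + τ γ * s)) (hg.affine 0 (τ γ)) (by simpa using h0)
      (by simpa using hτy) (by
        rw [deriv_affine hg]
        simpa using ⟨hτ0.ne', hd⟩)
    refine ⟨_, hm, τ γ * t, mul_pos hτ0 ht.1, ?_, by rw [zero_add]⟩
    nlinarith [ht.2]
  choose! z hzB t ht0 htτ htz using hstep
  obtain ⟨z₀, hz₀, hfib⟩ := exists_infinite_fib hA B.finite_toSet z (fun γ hγ => hzB γ hγ)
  refine ⟨z₀, hBS hz₀, _, sep_subset _ _, hfib, t, fun γ hγ => ⟨ht0 γ hγ.1, htτ γ hγ.1, ?_⟩⟩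
  rw [htz γ hγ.1]; exact hγ.2

/-- Iterated blocking. -/
theorem block_chain {S : Set E} (hsec : Secure S) {x y : E} (hx : x ∈ S) (hy : y ∈ S)
    {A : Set (ℝ → E)} (hA : A.Infinite)
    (hgeo : ∀ γ ∈ A, IsGeo S γ ∧ γ 0 = x ∧ deriv γ 0 ≠ 0) (h1 : ∀ γ ∈ A, γ 1 = y) (N : ℕ) :
    ∃ A' ⊆ A, A'.Infinite ∧ ∃ (Z : ℕ → E) (T : (ℝ → E) → ℕ → ℝ),
      (∀ j ≤ N, Z j ∈ S) ∧ ∀ γ ∈ A', T γ 0 = 1 ∧ (∀ j ≤ N, 0 < T γ j ∧ γ (T γ j) = Z j) ∧
        ∀ j < N, T γ (j + 1) < T γ j := by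
  induction N with
  | zero =>
    refine ⟨A, subset_rfl, hA, fun _ => y, fun _ _ => 1, fun _ _ => hy, fun γ hγ =>
      ⟨rfl, fun j _ => ⟨one_pos, h1 γ hγ⟩, fun j hj => absurd hj (Nat.not_lt_zero j)⟩⟩
  | succ N ih =>
    obtain ⟨A₁, hA₁, hinf₁, Z, T, hZ, hT⟩ := ih
    obtain ⟨z, hz, A₂, hA₂, hinf₂, τ', hτ'⟩ := block_step (hsec x hx (Z N) (hZ N le_rfl)) hinf₁
      (fun γ hγ => hgeo γ (hA₁ hγ)) (fun γ => T γ N)
      (fun γ hγ => (hT γ hγ).2.1 N le_rfl)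
    refine ⟨A₂, hA₂.trans hA₁, hinf₂, fun j => if j = N + 1 then z else Z j,
      fun γ j => if j = N + 1 then τ' γ else T γ j, ?_, ?_⟩
    · intro j hj
      by_cases h : j = N + 1
      · simp [h, hz]
      · simp only [h, if_false]
        exact hZ j (by omega)
    · intro γ hγ
      obtain ⟨ht0, htj, htl⟩ := hT γ (hA₂ hγ)
      obtain ⟨hp, hlt, hzz⟩ := hτ' γ hγ
      refine ⟨by simpa using ht0, ?_, ?_⟩
      · intro j hj
        by_cases h : j = N + 1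
        · simp only [h, if_true]
          exact ⟨hp, hzz⟩
        · simp only [h, if_false]
          exact htj j (by omega)
      · intro j hj
        by_cases h : j = N
        · have h2 : ¬ N = N + 1 := by omega
          simp only [h, if_true, h2, if_false]
          exact hlt
        · have h2 : ¬ j = N + 1 := by omega
          have h3 : ¬ j + 1 = N + 1 := by omega
          simp only [h2, h3, if_false]
          exact htl j (by omega)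

/-- Among `N` consecutive gaps of a decreasing sequence in `(0,1]` one is `< 1 / N`. -/
theorem exists_small_gap {N : ℕ} (hN : 0 < N) {a : ℕ → ℝ} (h0 : a 0 = 1) (hpos : 0 < a N) :
    ∃ j < N, a j - a (j + 1) < 1 / N := by
  by_contra hcon
  push Not at hcon
  have h1 : ∑ j ∈ Finset.range N, (1 / N : ℝ) ≤ ∑ j ∈ Finset.range N, (a j - a (j + 1)) :=
    Finset.sum_le_sum fun j hj => hcon j (Finset.mem_range.1 hj)
  rw [Finset.sum_range_sub', Finset.sum_const, Finset.card_range, nsmul_eq_mul, h0] at h1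
  have h2 : (N : ℝ) * (1 / N) = 1 := by
    have : (N : ℝ) ≠ 0 := by exact_mod_cast hN.ne'
    field_simp
  rw [h2] at h1
  linarith

/-- **Main theorem.** In a secure compact submanifold any two points (equal or not) are joined by
only finitely many geodesics of bounded length. -/
theorem finite_geodesics {S : Set E} (hS : IsCompact S) (hsub : IsSub F S) (hsec : Secure S)
    {x y : E} (hx : x ∈ S) (hy : y ∈ S) (T₀ : ℝ) :
    {γ : ℝ → E | IsGeo S γ ∧ γ 0 = x ∧ γ 1 = y ∧ deriv γ 0 ≠ 0 ∧ ‖deriv γ 0‖ ≤ T₀}.Finite := by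
  by_contra hinf
  obtain ⟨δ, hδ, hsc⟩ := exists_scale hS hsub
  obtain ⟨N, hN⟩ := exists_nat_gt (T₀ / δ)
  obtain ⟨N, hN1, hN⟩ : ∃ N : ℕ, 0 < N ∧ T₀ < N * δ := by
    refine ⟨N + 1, Nat.succ_pos _, ?_⟩
    rw [div_lt_iff₀ hδ] at hN
    push_cast
    nlinarith
  obtain ⟨A₁, hA₁, hinf₁, Z, T, hZ, hT⟩ := block_chain hsec hx hy
    (A := {γ : ℝ → E | IsGeo S γ ∧ γ 0 = x ∧ γ 1 = y ∧ deriv γ 0 ≠ 0 ∧ ‖deriv γ 0‖ ≤ T₀}) hinf
    (fun γ hγ => ⟨hγ.1, hγ.2.1, hγ.2.2.2.1⟩) (fun γ hγ => hγ.2.2.1) N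
  have hgap : ∀ γ ∈ A₁, ∃ j < N, T γ j - T γ (j + 1) < 1 / N := fun γ hγ =>
    exists_small_gap hN1 (hT γ hγ).1 ((hT γ hγ).2.1 N le_rfl).1
  choose! J hJN hJ using hgap
  obtain ⟨j, hj, hinf₂⟩ := exists_infinite_fib hinf₁ (Finset.finite_toSet (Finset.range N)) J
    (fun γ hγ => by simpa using hJN γ hγ)
  have hjN : j < N := by simpa using hj
  set A₂ := {γ ∈ A₁ | J γ = j} with hA₂
  -- the short segment
  let d : (ℝ → E) → ℝ := fun γ => T γ j - T γ (j + 1)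
  let σ : (ℝ → E) → ℝ → E := fun γ s => γ (T γ (j + 1) + d γ * s)
  have hd : ∀ γ ∈ A₂, 0 < d γ ∧ d γ < 1 / N := by
    intro γ hγ
    refine ⟨sub_pos.2 ((hT γ hγ.1).2.2 j hjN), ?_⟩
    have := hJ γ hγ.1
    rw [hγ.2] at this
    exact this
  have hNpos : (0 : ℝ) < N := by exact_mod_cast hN1
  have hσgeo : ∀ γ ∈ A₂, IsGeo S (σ γ) := fun γ hγ => ((hA₁ hγ.1).1).affine _ _
  have hσ0 : ∀ γ ∈ A₂, σ γ 0 = Z (j + 1) := by
    intro γ hγ
    show γ (T γ (j + 1) + d γ * 0) = Z (j + 1)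
    rw [mul_zero, add_zero]
    exact ((hT γ hγ.1).2.1 (j + 1) hjN).2
  have hσ1 : ∀ γ ∈ A₂, σ γ 1 = Z j := by
    intro γ hγ
    show γ (T γ (j + 1) + d γ * 1) = Z j
    rw [mul_one, show T γ (j + 1) + d γ = T γ j by simp [d]]
    exact ((hT γ hγ.1).2.1 j hjN.le).2
  have hσd : ∀ γ ∈ A₂, ‖deriv (σ γ) 0‖ = d γ * ‖deriv γ 0‖ := by
    intro γ hγ
    have h1 : deriv (σ γ) = fun t => d γ • deriv γ (T γ (j + 1) + d γ * t) :=
      deriv_affine (hA₁ hγ.1).1 _ _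
    rw [h1]
    show ‖d γ • deriv γ (T γ (j + 1) + d γ * 0)‖ = _
    rw [norm_smul, Real.norm_eq_abs, abs_of_pos (hd γ hγ).1, (hA₁ hγ.1).1.speed _ 0]
  have hσs : ∀ γ ∈ A₂, ‖deriv (σ γ) 0‖ < δ := by
    intro γ hγ
    rw [hσd γ hγ]
    have h1 := (hd γ hγ).2
    have h2 : ‖deriv γ 0‖ ≤ T₀ := (hA₁ hγ.1).2.2.2.2
    have h3 := (hd γ hγ).1
    have h4 : 0 < ‖deriv γ 0‖ := norm_pos_iff.2 (hA₁ hγ.1).2.2.2.1
    calc d γ * ‖deriv γ 0‖ ≤ (1 / N) * ‖deriv γ 0‖ := by nlinarith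
      _ ≤ (1 / N) * T₀ := by
        have : (0 : ℝ) < 1 / N := by positivity
        nlinarith
      _ < (1 / N) * (N * δ) := by
        have : (0 : ℝ) < 1 / N := by positivity
        nlinarith
      _ = δ := by field_simp
  obtain ⟨γ₀, hγ₀⟩ := hinf₂.nonempty
  have heq : ∀ γ ∈ A₂, σ γ = σ γ₀ := fun γ hγ =>
    (hσgeo γ hγ).eq_of_short hδ hsc (hσgeo γ₀ hγ₀) (by rw [hσ0 γ hγ, hσ0 γ₀ hγ₀])
      (by rw [hσ1 γ hγ, hσ1 γ₀ hγ₀]) (hσs γ hγ) (hσs γ₀ hγ₀)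
  set ρ := σ γ₀ with hρ
  have hρgeo : IsGeo S ρ := hσgeo γ₀ hγ₀
  have hρpos : 0 < ‖deriv ρ 0‖ := by
    rw [hρ, hσd γ₀ hγ₀]
    exact mul_pos (hd γ₀ hγ₀).1 (norm_pos_iff.2 (hA₁ hγ₀.1).2.2.2.1)
  have hρne : deriv ρ 0 ≠ 0 := norm_pos_iff.1 hρpos
  have hT₀ : 0 < T₀ := lt_of_lt_of_le (norm_pos_iff.2 (hA₁ hγ₀.1).2.2.2.1) (hA₁ hγ₀.1).2.2.2.2
  set C := T₀ / ‖deriv ρ 0‖ with hC
  have hCpos : 0 < C := div_pos hT₀ hρpos
  -- every member is an affine reparametrisation of `ρ`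
  have hdC : ∀ γ ∈ A₂, 1 / d γ ≤ C := by
    intro γ hγ
    have h1 : ‖deriv ρ 0‖ = d γ * ‖deriv γ 0‖ := by rw [← hσd γ hγ, heq γ hγ]
    have h2 : ‖deriv γ 0‖ ≤ T₀ := (hA₁ hγ.1).2.2.2.2
    have h3 := (hd γ hγ).1
    rw [hC, div_le_div_iff₀ h3 hρpos, h1]
    nlinarith
  have hrep : ∀ γ ∈ A₂, ∀ t : ℝ, γ t = ρ ((t - T γ (j + 1)) / d γ) := by
    intro γ hγ t
    rw [← heq γ hγ]
    show γ t = γ (T γ (j + 1) + d γ * ((t - T γ (j + 1)) / d γ))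
    congr 1
    have := (hd γ hγ).1.ne'
    field_simp; ring
  have hTle : ∀ γ ∈ A₂, 0 < T γ (j + 1) ∧ T γ (j + 1) ≤ 1 := by
    intro γ hγ
    refine ⟨((hT γ hγ.1).2.1 (j + 1) hjN).1, ?_⟩
    have hmono : ∀ i, i ≤ N → T γ i ≤ 1 := by
      intro i
      induction i with
      | zero => intro _; exact (hT γ hγ.1).1.le
      | succ i ih =>
        intro hi
        have h1 := ih (by omega)
        have h2 := (hT γ hγ.1).2.2 i (by omega)
        linarith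
    exact hmono (j + 1) hjN
  refine hinf₂ ?_
  have hfin : ({s : ℝ | s ∈ Icc (-C) C ∧ ρ s = x} ×ˢ {s : ℝ | s ∈ Icc (-C) C ∧ ρ s = y}).Finite :=
    (finite_level S hρgeo hρne x C).prod (finite_level S hρgeo hρne y C)
  refine Set.Finite.of_injOn (f := fun γ => ((0 - T γ (j + 1)) / d γ, (1 - T γ (j + 1)) / d γ))
    (fun γ hγ => ?_) (fun γ hγ γ' hγ' he => ?_) hfin
  · have hdp := (hd γ hγ).1
    have hb := hdC γ hγ
    obtain ⟨hT0, hT1⟩ := hTle γ hγ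
    have e1 : (0 - T γ (j + 1)) / d γ = -(T γ (j + 1) * (1 / d γ)) := by ring
    have e2 : (1 - T γ (j + 1)) / d γ = (1 - T γ (j + 1)) * (1 / d γ) := by ring
    have hinv : 0 < 1 / d γ := by positivity
    refine ⟨⟨⟨?_, ?_⟩, ?_⟩, ⟨⟨?_, ?_⟩, ?_⟩⟩
    · show -C ≤ (0 - T γ (j + 1)) / d γ
      rw [e1]; nlinarith
    · show (0 - T γ (j + 1)) / d γ ≤ C
      rw [e1]; nlinarith
    · show ρ ((0 - T γ (j + 1)) / d γ) = x
      rw [← hrep γ hγ 0]; exact (hA₁ hγ.1).2.1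
    · show -C ≤ (1 - T γ (j + 1)) / d γ
      rw [e2]; nlinarith
    · show (1 - T γ (j + 1)) / d γ ≤ C
      rw [e2]; nlinarith
    · show ρ ((1 - T γ (j + 1)) / d γ) = y
      rw [← hrep γ hγ 1]; exact (hA₁ hγ.1).2.2.1
  · have hdp := (hd γ hγ).1
    have hdp' := (hd γ' hγ').1
    rw [Prod.mk.injEq] at he
    obtain ⟨ea, eb⟩ := he
    funext t
    rw [hrep γ hγ t, hrep γ' hγ' t]
    congr 1
    have k1 : (t - T γ (j + 1)) / d γ
        = (0 - T γ (j + 1)) / d γ + t * ((1 - T γ (j + 1)) / d γ - (0 - T γ (j + 1)) / d γ) := by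
      ring
    have k2 : (t - T γ' (j + 1)) / d γ'
        = (0 - T γ' (j + 1)) / d γ' + t * ((1 - T γ' (j + 1)) / d γ' - (0 - T γ' (j + 1)) / d γ') := by
      ring
    rw [k1, k2, ea, eb]

end Pool.Agent.H91.GE
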