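import Pool.Agent.H91.GE.Flow

/-!
# Differentiability of the flow in the initial condition
-/

set_option autoImplicit false

open scoped Topology ContDiff
open Set Filter Metric

namespace Pool.Agent.H91.GE

variable {G : Type*} [NormedAddCommGroup G] [NormedSpace ℝ G] [FiniteDimensional ℝ G]

theorem exists_lin {K : NNReal} {δ : ℝ} (hδ : 0 ≤ δ) (hδK : δ * (2 * ((K : ℝ) + 1)) ≤ 1)
    {M : ℝ → G →L[ℝ] G} (hM : ContinuousOn M (Icc 0 δ)) (hMK : ∀ t ∈ Icc 0 δ, ‖M t‖ ≤ K) (h : G) :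
    ∃ Y : ℝ → G, Y 0 = h ∧ ∀ t ∈ Icc 0 δ, HasDerivWithinAt Y (M t (Y t)) (Icc 0 δ) t := by
  have h0 : (0 : ℝ) ∈ Icc 0 δ := ⟨le_rfl, hδ⟩
  set a : NNReal := ‖h‖₊ + 1 with ha
  set L : NNReal := K * (2 * ‖h‖₊ + 1) with hL
  have hp : IsPicardLindelof (fun t y => M t y) (⟨0, h0⟩ : Icc 0 δ) h a 0 L K := by
    refine ⟨fun t ht => ?_, fun x _ => ?_, fun t ht x hx => ?_, ?_⟩
    · refine LipschitzOnWith.of_dist_le_mul fun x _ y _ => ?_
      rw [dist_eq_norm, dist_eq_norm, ← map_sub]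
      exact (M t).le_of_opNorm_le (hMK t ht) _
    · exact hM.clm_apply continuousOn_const
    · have h1 : ‖x‖ ≤ 2 * ‖h‖ + 1 := by
        have h2 : dist x h ≤ a := hx
        rw [dist_eq_norm, ha] at h2
        push_cast at h2
        have h3 : ‖x‖ ≤ ‖x - h‖ + ‖h‖ := norm_le_norm_sub_add _ _
        linarith
      calc ‖M t x‖ ≤ K * ‖x‖ := (M t).le_of_opNorm_le (hMK t ht) _
        _ ≤ K * (2 * ‖h‖ + 1) := mul_le_mul_of_nonneg_left h1 K.2
        _ = L := by rw [hL]; push_cast; rfl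
    · have h1 : max (δ - ((⟨0, h0⟩ : Icc 0 δ) : ℝ)) (((⟨0, h0⟩ : Icc 0 δ) : ℝ) - 0) = δ := by
        simp [hδ]
      rw [h1, hL, ha]
      push_cast
      have h2 : (0 : ℝ) ≤ ‖h‖ := norm_nonneg h
      have h3 : (0 : ℝ) ≤ K := K.2
      have h4 : δ * K ≤ 1 / 2 := by nlinarith
      nlinarith
  exact hp.exists_eq_forall_mem_Icc_hasDerivWithinAt₀

variable {X : G → G} {K K₂ : NNReal} {Φ : ℝ → G → G}

/-- Second order remainder. -/
theorem IsVF.remainder (hX : IsVF X K K₂) (x y : G) :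
    ‖X y - X x - fderiv ℝ X x (y - x)‖ ≤ K₂ * ‖y - x‖ * ‖y - x‖ := by
  refine Convex.norm_image_sub_le_of_norm_fderiv_le' (𝕜 := ℝ) (f := X) (s := closedBall x ‖y - x‖)
    (fun z _ => hX.smooth.differentiable (by simp) z) (fun z hz => ?_) (convex_closedBall _ _)
    (mem_closedBall_self (norm_nonneg _)) (by rw [mem_closedBall, dist_eq_norm])
  have h1 := hX.lip'.dist_le_mul z x
  rw [dist_eq_norm] at h1
  have h2 : dist z x ≤ ‖y - x‖ := hz
  exact h1.trans (mul_le_mul_of_nonneg_left h2 K₂.2)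

theorem IsFlow.differentiable_short (hX : IsVF X K K₂) (hΦ : IsFlow X Φ) (w : G) {t : ℝ}
    (ht : 0 ≤ t) (htK : t * (2 * ((K : ℝ) + 1)) ≤ 1) : DifferentiableAt ℝ (Φ t) w := by
  set δ := t with hδ
  set M : ℝ → G →L[ℝ] G := fun s => fderiv ℝ X (Φ s w) with hM
  have hMc : Continuous M := (hX.lip'.continuous).comp (hΦ.continuous_left w)
  have hMK : ∀ s, ‖M s‖ ≤ K := fun s => norm_fderiv_le_of_lipschitz ℝ hX.lip
  have hlin := exists_lin ht htK hMc.continuousOn (fun s _ => hMK s)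
  let b := Module.finBasis ℝ G
  choose Y hY0 hY using fun i => hlin (b i)
  -- the derivative
  let D : ℝ → G →L[ℝ] G := fun s =>
    LinearMap.toContinuousLinearMap (∑ i, (b.coord i).smulRight (Y i s))
  have hDapp : ∀ s h, D s h = ∑ i, b.coord i h • Y i s := by
    intro s h
    show (∑ i, (b.coord i).smulRight (Y i s)) h = _
    rw [LinearMap.sum_apply]
    rfl
  have hD0 : ∀ h, D 0 h = h := by
    intro h
    rw [hDapp]
    simp_rw [hY0]
    exact b.sum_repr h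
  have hDd : ∀ h, ∀ s ∈ Icc 0 δ, HasDerivWithinAt (fun s => D s h) (M s (D s h)) (Icc 0 δ) s := by
    intro h s hs
    have h1 : HasDerivWithinAt (fun s => ∑ i, b.coord i h • Y i s)
        (∑ i, b.coord i h • M s (Y i s)) (Icc 0 δ) s :=
      HasDerivWithinAt.fun_sum fun i _ => (hY i s hs).const_smul (b.coord i h)
    have h2 : M s (D s h) = ∑ i, b.coord i h • M s (Y i s) := by
      rw [hDapp, map_sum]
      simp_rw [map_smul]
    rw [h2]
    simpa only [hDapp] using h1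
  set C : ℝ := Real.exp (K * δ) with hC
  have hC1 : 0 < C := Real.exp_pos _
  set C' : ℝ := (K₂ * C * C) / (K + 1) * (Real.exp ((K + 1) * δ) - 1) with hC'
  have hest : ∀ h : G, ‖Φ δ (w + h) - Φ δ w - D δ h‖ ≤ C' * ‖h‖ ^ 2 := by
    intro h
    set e : ℝ → G := fun s => Φ s (w + h) - Φ s w - D s h with he
    set e' : ℝ → G := fun s => X (Φ s (w + h)) - X (Φ s w) - M s (D s h) with he'
    have hed : ∀ s ∈ Icc 0 δ, HasDerivWithinAt e (e' s) (Icc 0 δ) s := fun s hs =>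
      (((hΦ.deriv s (w + h)).sub (hΦ.deriv s w)).hasDerivWithinAt).sub (hDd h s hs)
    have hgap : ∀ s ∈ Icc 0 δ, ‖Φ s (w + h) - Φ s w‖ ≤ ‖h‖ * C := by
      intro s hs
      have h1 := hΦ.dist_le_of_nonneg hX hs.1 (w + h) w
      rw [dist_eq_norm, dist_eq_norm, add_sub_cancel_left] at h1
      refine h1.trans (mul_le_mul_of_nonneg_left ?_ (norm_nonneg _))
      exact Real.exp_le_exp.2 (mul_le_mul_of_nonneg_left hs.2 K.2)
    have hb : ∀ s ∈ Icc 0 δ, ‖e' s‖ ≤ (K + 1) * ‖e s‖ + K₂ * C * C * ‖h‖ ^ 2 := by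
      intro s hs
      have h1 : e' s = (X (Φ s (w + h)) - X (Φ s w) - M s (Φ s (w + h) - Φ s w)) + M s (e s) := by
        simp only [he, he', map_sub]; abel
      have h2 := hX.remainder (Φ s w) (Φ s (w + h))
      have h3 : ‖M s (e s)‖ ≤ K * ‖e s‖ := (M s).le_of_opNorm_le (hMK s) _
      have h4 := hgap s hs
      have h5 : (K₂ : ℝ) * ‖Φ s (w + h) - Φ s w‖ * ‖Φ s (w + h) - Φ s w‖
          ≤ K₂ * C * C * ‖h‖ ^ 2 := by
        have h6 : ‖Φ s (w + h) - Φ s w‖ * ‖Φ s (w + h) - Φ s w‖ ≤ (‖h‖ * C) * (‖h‖ * C) :=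
          mul_self_le_mul_self (norm_nonneg _) h4
        have h7 := mul_le_mul_of_nonneg_left h6 K₂.2
        calc (K₂ : ℝ) * ‖Φ s (w + h) - Φ s w‖ * ‖Φ s (w + h) - Φ s w‖
            = K₂ * (‖Φ s (w + h) - Φ s w‖ * ‖Φ s (w + h) - Φ s w‖) := by ring
          _ ≤ K₂ * ((‖h‖ * C) * (‖h‖ * C)) := h7
          _ = _ := by ring
      have h8 : ‖e' s‖ ≤ ‖X (Φ s (w + h)) - X (Φ s w) - M s (Φ s (w + h) - Φ s w)‖
          + ‖M s (e s)‖ := by rw [h1]; exact norm_add_le _ _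
      have h9 : 0 ≤ ‖e s‖ := norm_nonneg _
      linarith
    have hcont : ContinuousOn e (Icc 0 δ) := fun s hs => (hed s hs).continuousWithinAt
    have hder : ∀ s ∈ Ico 0 δ, HasDerivWithinAt e (e' s) (Ici s) s := by
      intro s hs
      refine (hed s ⟨hs.1, hs.2.le⟩).mono_of_mem_nhdsWithin ?_
      rw [mem_nhdsWithin]
      refine ⟨Iio δ, isOpen_Iio, hs.2, fun r hr => ⟨hs.1.trans hr.2, hr.1.le⟩⟩
    have h10 := norm_le_gronwallBound_of_norm_deriv_right_le (f := e) (f' := e') (δ := 0)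
      (K := (K : ℝ) + 1) (ε := K₂ * C * C * ‖h‖ ^ 2) (a := 0) (b := δ) hcont hder
      (by simp [he, hΦ.zero, hD0]) (fun s hs => hb s ⟨hs.1, hs.2.le⟩) δ ⟨ht, le_rfl⟩
    rw [gronwallBound_of_K_ne_0 (by positivity)] at h10
    refine h10.trans (le_of_eq ?_)
    rw [hC', sub_zero]; ring
  have hfd : HasFDerivAt (Φ δ) (D δ) w := by
    rw [hasFDerivAt_iff_isLittleO_nhds_zero]
    have h1 : (fun h : G => Φ δ (w + h) - Φ δ w - D δ h) =O[𝓝 0] fun h => ‖h‖ ^ 2 := by
      refine Asymptotics.IsBigO.of_bound C' (Eventually.of_forall fun h => ?_)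
      rw [Real.norm_of_nonneg (by positivity)]
      exact hest h
    refine h1.trans_isLittleO ?_
    have h2 : (fun h : G => ‖h‖ ^ 2) =o[𝓝 0] fun h => ‖h‖ ^ 1 :=
      (Asymptotics.isLittleO_pow_pow (show 1 < 2 by norm_num)).comp_tendsto
        (tendsto_norm_zero)
    have h3 : (fun h : G => ‖h‖ ^ 2) =o[𝓝 0] fun h : G => ‖h‖ := by simpa using h2
    exact h3.of_norm_right
  exact hfd.differentiableAt

theorem IsFlow.differentiable_of_nonneg (hX : IsVF X K K₂) (hΦ : IsFlow X Φ) (w : G) {t : ℝ}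
    (ht : 0 ≤ t) : DifferentiableAt ℝ (Φ t) w := by
  obtain ⟨n, hn⟩ := exists_nat_ge (t * (2 * ((K : ℝ) + 1)))
  set s : ℝ := t / (n + 1) with hs
  have hs0 : 0 ≤ s := by positivity
  have hsK : s * (2 * ((K : ℝ) + 1)) ≤ 1 := by
    rw [hs, div_mul_eq_mul_div, div_le_one (by positivity)]
    linarith
  have hstep : ∀ m : ℕ, ∀ w, DifferentiableAt ℝ (Φ (m * s)) w := by
    intro m
    induction m with
    | zero =>
      intro w
      have h1 : Φ ((0 : ℕ) * s) = fun w => w := by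
        funext w; rw [Nat.cast_zero, zero_mul, hΦ.zero]
      rw [h1]; exact differentiableAt_fun_id
    | succ m ih =>
      intro w
      have h1 : Φ ((m + 1 : ℕ) * s) = fun w => Φ s (Φ (m * s) w) := by
        funext w
        rw [← hΦ.add hX]
        congr 1
        push_cast; ring
      rw [h1]
      exact (hΦ.differentiable_short hX _ hs0 hsK).comp w (ih w)
  have h := hstep (n + 1) w
  have h2 : ((n + 1 : ℕ) : ℝ) * s = t := by
    rw [hs]; push_cast; field_simp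
  rwa [h2] at h

theorem IsFlow.differentiable (hX : IsVF X K K₂) (hΦ : IsFlow X Φ) (t : ℝ) :
    Differentiable ℝ (Φ t) := by
  intro w
  rcases le_total 0 t with ht | ht
  · exact hΦ.differentiable_of_nonneg hX w ht
  · have h := hΦ.rev.differentiable_of_nonneg hX.neg w (t := -t) (by linarith)
    have h2 : (fun w => Φ (- -t) w) = Φ t := by rw [neg_neg]
    rwa [h2] at h

end Pool.Agent.H91.GE
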