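import Pool.Agent.H91.GE.Acc

/-!
# Uniqueness of geodesics: by initial conditions, and by end points for short ones
-/

set_option autoImplicit false

open scoped InnerProductSpace Topology ContDiff
open Set Filter

namespace Pool.Agent.H91.GE

variable {E F : Type*} [NormedAddCommGroup E] [InnerProductSpace ℝ E] [FiniteDimensional ℝ E]
  [NormedAddCommGroup F] [InnerProductSpace ℝ F] [FiniteDimensional ℝ F]

/-- The uniform local estimate at scale `δ`. -/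
def Scale (F : Type*) [NormedAddCommGroup F] [InnerProductSpace ℝ F] [FiniteDimensional ℝ F]
    (S : Set E) (δ : ℝ) (q : E) : Prop :=
  ∃ (U : Set E) (f : E → F), IsLoc S U f ∧ Metric.ball q δ ⊆ U ∧
    ∀ q₁ ∈ Metric.ball q δ, ∀ q₂ ∈ Metric.ball q δ, ∀ v₁ v₂ : E, ‖v₁‖ < δ → ‖v₂‖ < δ →
      ‖Acc f q₁ v₁ - Acc f q₂ v₂‖ ≤ 1 / 2 * max ‖q₁ - q₂‖ ‖v₁ - v₂‖

theorem Scale.mono {S : Set E} {δ δ' : ℝ} {q : E} (h : Scale F S δ q) (hδ : δ' ≤ δ) :
    Scale F S δ' q := by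
  obtain ⟨U, f, h1, h2, h3⟩ := h
  refine ⟨U, f, h1, (Metric.ball_subset_ball hδ).trans h2, fun q₁ hq₁ q₂ hq₂ v₁ v₂ hv₁ hv₂ => ?_⟩
  exact h3 q₁ (Metric.ball_subset_ball hδ hq₁) q₂ (Metric.ball_subset_ball hδ hq₂) v₁ v₂
    (lt_of_lt_of_le hv₁ hδ) (lt_of_lt_of_le hv₂ hδ)

theorem exists_scale {S : Set E} (hS : IsCompact S) (hsub : IsSub F S) :
    ∃ δ > 0, ∀ q ∈ S, Scale F S δ q := by
  refine hS.induction_on (p := fun K => ∃ δ > 0, ∀ q ∈ K, Scale F S δ q) ?_ ?_ ?_ ?_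
  · exact ⟨1, one_pos, fun q hq => absurd hq (notMem_empty q)⟩
  · rintro s t hst ⟨δ, hδ, h⟩
    exact ⟨δ, hδ, fun q hq => h q (hst hq)⟩
  · rintro s t ⟨δ₁, hδ₁, h₁⟩ ⟨δ₂, hδ₂, h₂⟩
    refine ⟨min δ₁ δ₂, lt_min hδ₁ hδ₂, fun q hq => ?_⟩
    rcases hq with hq | hq
    · exact (h₁ q hq).mono (min_le_left _ _)
    · exact (h₂ q hq).mono (min_le_right _ _)
  · intro p hp
    obtain ⟨U, hpU, f, hf⟩ := hsub p hp
    obtain ⟨δ, hδ, hb, hl⟩ := exists_lip hf hpU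
    refine ⟨Metric.ball p (δ / 2), mem_nhdsWithin_of_mem_nhds (Metric.ball_mem_nhds p (by positivity)),
      δ / 2, by positivity, fun q hq => ?_⟩
    have hsubset : Metric.ball q (δ / 2) ⊆ Metric.ball p δ := by
      intro x hx
      rw [Metric.mem_ball] at *
      calc dist x p ≤ dist x q + dist q p := dist_triangle _ _ _
        _ < δ / 2 + δ / 2 := add_lt_add hx hq
        _ = δ := by ring
    refine ⟨U, f, hf, hsubset.trans hb, fun q₁ hq₁ q₂ hq₂ v₁ v₂ hv₁ hv₂ => ?_⟩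
    exact hl q₁ (hsubset hq₁) q₂ (hsubset hq₂) v₁ v₂ (by linarith) (by linarith)

section

variable {S : Set E} {δ : ℝ}

omit [FiniteDimensional ℝ E] in
theorem IsGeo.dist_le {γ : ℝ → E} (hγ : IsGeo S γ) {t : ℝ} (ht : t ∈ Icc (0 : ℝ) 1) :
    ‖γ t - γ 0‖ ≤ ‖deriv γ 0‖ := by
  have h := norm_image_sub_le_of_norm_deriv_le_segment' (f := γ) (f' := deriv γ) (a := 0) (b := 1)
    (C := ‖deriv γ 0‖) (fun x _ => (hγ.hasDerivAt x).hasDerivWithinAt)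
    (fun x _ => (hγ.speed x 0).le) t ht
  refine h.trans ?_
  rw [sub_zero]
  have := norm_nonneg (deriv γ 0)
  nlinarith [ht.1, ht.2]

theorem acc_close (hsc : ∀ q ∈ S, Scale F S δ q) {γ₁ γ₂ : ℝ → E} (h₁ : IsGeo S γ₁)
    (h₂ : IsGeo S γ₂) (h0 : γ₁ 0 = γ₂ 0) (hs₁ : ‖deriv γ₁ 0‖ < δ) (hs₂ : ‖deriv γ₂ 0‖ < δ)
    {t : ℝ} (ht : t ∈ Icc (0 : ℝ) 1) :
    ‖deriv (deriv γ₁) t - deriv (deriv γ₂) t‖
      ≤ 1 / 2 * max ‖γ₁ t - γ₂ t‖ ‖deriv γ₁ t - deriv γ₂ t‖ := by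
  obtain ⟨U, f, hf, hb, hl⟩ := hsc (γ₁ 0) (h₁.mem 0)
  have hm₁ : γ₁ t ∈ Metric.ball (γ₁ 0) δ := by
    rw [Metric.mem_ball, dist_eq_norm]
    exact lt_of_le_of_lt (h₁.dist_le ht) hs₁
  have hm₂ : γ₂ t ∈ Metric.ball (γ₁ 0) δ := by
    rw [Metric.mem_ball, dist_eq_norm, h0]
    exact lt_of_le_of_lt (h₂.dist_le ht) hs₂
  rw [(h₁.acc_eq hf (hb hm₁)).2, (h₂.acc_eq hf (hb hm₂)).2]
  exact hl _ hm₁ _ hm₂ _ _ (by rw [h₁.speed t 0]; exact hs₁) (by rw [h₂.speed t 0]; exact hs₂)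

omit [FiniteDimensional ℝ E] in
/-- Second order comparison on `[0,1]`. -/
theorem compare {w w' w'' : ℝ → E} (h1 : ∀ t, HasDerivAt w (w' t) t)
    (h2 : ∀ t, HasDerivAt w' (w'' t) t)
    (hb : ∀ t ∈ Icc (0 : ℝ) 1, ‖w'' t‖ ≤ 1 / 2 * max ‖w t‖ ‖w' t‖) (h0 : w 0 = 0)
    (hor : w 1 = 0 ∨ w' 0 = 0) : ∀ t ∈ Icc (0 : ℝ) 1, w t = 0 ∧ w' t = 0 := by
  have hcont : Continuous w' := continuous_iff_continuousAt.2 fun t => (h2 t).continuousAt
  obtain ⟨τ, hτ, hmax⟩ := isCompact_Icc.exists_isMaxOn (nonempty_Icc.2 (zero_le_one' ℝ))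
    hcont.norm.continuousOn
  set M := ‖w' τ‖ with hM
  have hM0 : 0 ≤ M := norm_nonneg _
  have hmax' : ∀ t ∈ Icc (0 : ℝ) 1, ‖w' t‖ ≤ M := fun t ht => hmax ht
  have hw : ∀ t ∈ Icc (0 : ℝ) 1, ‖w t‖ ≤ M := by
    intro t ht
    have h := norm_image_sub_le_of_norm_deriv_le_segment' (f := w) (f' := w') (a := 0) (b := 1)
      (C := M) (fun x _ => (h1 x).hasDerivWithinAt) (fun x hx => hmax' x ⟨hx.1, hx.2.le⟩) t ht
    rw [h0, sub_zero, sub_zero] at h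
    nlinarith [ht.1, ht.2]
  have hw'' : ∀ t ∈ Icc (0 : ℝ) 1, ‖w'' t‖ ≤ M / 2 := by
    intro t ht
    have := hb t ht
    have h3 : max ‖w t‖ ‖w' t‖ ≤ M := max_le (hw t ht) (hmax' t ht)
    linarith
  have hdiff : ∀ s ∈ Icc (0 : ℝ) 1, ∀ t ∈ Icc (0 : ℝ) 1, ‖w' s - w' t‖ ≤ M / 2 := by
    intro s hs t ht
    have h := (convex_Icc (0 : ℝ) 1).norm_image_sub_le_of_norm_hasDerivWithin_le
      (f := w') (f' := w'') (C := M / 2) (fun x _ => (h2 x).hasDerivWithinAt) hw'' ht hs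
    refine h.trans ?_
    have h4 : ‖s - t‖ ≤ 1 := by
      rw [Real.norm_eq_abs, abs_le]
      constructor <;> linarith [hs.1, hs.2, ht.1, ht.2]
    nlinarith
  have hMz : M ≤ M / 2 := by
    rcases hor with h | h
    · have hφ : ∀ s, HasDerivAt (fun s : ℝ => w s - s • w' τ) (w' s - w' τ) s := by
        intro s
        have h5 : HasDerivAt (fun s : ℝ => w s - s • w' τ) (w' s - (1 : ℝ) • w' τ) s :=
          (h1 s).sub ((hasDerivAt_id' s).smul_const (w' τ))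
        rwa [one_smul] at h5
      have h6 := norm_image_sub_le_of_norm_deriv_le_segment_01'
        (f := fun s : ℝ => w s - s • w' τ) (f' := fun s => w' s - w' τ) (C := M / 2)
        (fun x _ => (hφ x).hasDerivWithinAt) (fun x hx => hdiff x ⟨hx.1, hx.2.le⟩ τ hτ)
      simpa [h, h0] using h6
    · have := hdiff τ hτ 0 ⟨le_refl _, zero_le_one⟩
      rwa [h, sub_zero] at this
  have hM1 : M = 0 := by linarith
  intro t ht
  refine ⟨norm_le_zero_iff.1 ?_, norm_le_zero_iff.1 ?_⟩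
  · rw [← hM1]; exact hw t ht
  · rw [← hM1]; exact hmax' t ht

theorem agree_01 (hsc : ∀ q ∈ S, Scale F S δ q) {γ₁ γ₂ : ℝ → E} (h₁ : IsGeo S γ₁)
    (h₂ : IsGeo S γ₂) (h0 : γ₁ 0 = γ₂ 0) (hs₁ : ‖deriv γ₁ 0‖ < δ) (hs₂ : ‖deriv γ₂ 0‖ < δ)
    (hor : γ₁ 1 = γ₂ 1 ∨ deriv γ₁ 0 = deriv γ₂ 0) :
    ∀ t ∈ Icc (0 : ℝ) 1, γ₁ t = γ₂ t ∧ deriv γ₁ t = deriv γ₂ t := by
  have h := compare (w := fun t => γ₁ t - γ₂ t) (w' := fun t => deriv γ₁ t - deriv γ₂ t)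
    (w'' := fun t => deriv (deriv γ₁) t - deriv (deriv γ₂) t)
    (fun t => (h₁.hasDerivAt t).sub (h₂.hasDerivAt t))
    (fun t => (h₁.hasDerivAt' t).sub (h₂.hasDerivAt' t))
    (fun t ht => acc_close hsc h₁ h₂ h0 hs₁ hs₂ ht) (by simp [h0])
    (by
      rcases hor with h | h
      · left; simp [h]
      · right; simp [h])
  intro t ht
  obtain ⟨h3, h4⟩ := h t ht
  exact ⟨sub_eq_zero.1 h3, sub_eq_zero.1 h4⟩

/-- Geodesics are determined by position and velocity at one time. -/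
theorem IsGeo.eq_of_first_order (hδ : 0 < δ) (hsc : ∀ q ∈ S, Scale F S δ q) {γ₁ γ₂ : ℝ → E}
    (h₁ : IsGeo S γ₁) (h₂ : IsGeo S γ₂) {t₀ : ℝ} (h0 : γ₁ t₀ = γ₂ t₀)
    (h0' : deriv γ₁ t₀ = deriv γ₂ t₀) : γ₁ = γ₂ := by
  set r := δ / (‖deriv γ₁ t₀‖ + 1) with hr
  have hpos : 0 < ‖deriv γ₁ t₀‖ + 1 := by positivity
  have hr0 : 0 < r := div_pos hδ hpos
  have hrv : r * ‖deriv γ₁ t₀‖ < δ := by
    rw [hr, div_mul_eq_mul_div, div_lt_iff₀ hpos]
    nlinarith [norm_nonneg (deriv γ₁ t₀)]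
  -- one step, forward or backward
  have hstep : ∀ t₁ : ℝ, γ₁ t₁ = γ₂ t₁ → deriv γ₁ t₁ = deriv γ₂ t₁ → ∀ b : ℝ, |b| = r →
      ∀ s ∈ Icc (0 : ℝ) 1, γ₁ (t₁ + b * s) = γ₂ (t₁ + b * s) ∧
        deriv γ₁ (t₁ + b * s) = deriv γ₂ (t₁ + b * s) := by
    intro t₁ e1 e2 b hb s hs
    have hb0 : b ≠ 0 := by
      intro h; rw [h, abs_zero] at hb; exact hr0.ne hb
    have hsp : ∀ γ : ℝ → E, IsGeo S γ → ‖deriv γ t₁‖ = ‖deriv γ₁ t₀‖ →
        ‖deriv (fun s => γ (t₁ + b * s)) 0‖ < δ := by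
      intro γ hγ hn
      rw [deriv_affine hγ]
      simp only [mul_zero, add_zero]
      rw [norm_smul, Real.norm_eq_abs, hb, hn]
      exact hrv
    have h := agree_01 hsc (h₁.affine t₁ b) (h₂.affine t₁ b) (by simpa using e1)
      (hsp γ₁ h₁ (h₁.speed t₁ t₀)) (hsp γ₂ h₂ (by rw [← e2]; exact h₁.speed t₁ t₀))
      (Or.inr (by rw [deriv_affine h₁, deriv_affine h₂]; simp [e2])) s hs
    refine ⟨h.1, ?_⟩
    have h5 := h.2
    rw [deriv_affine h₁, deriv_affine h₂] at h5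
    exact smul_right_injective E hb0 h5
  have hn : ∀ n : ℕ, ∀ t : ℝ, |t - t₀| ≤ n * r → γ₁ t = γ₂ t ∧ deriv γ₁ t = deriv γ₂ t := by
    intro n
    induction n with
    | zero =>
      intro t ht
      have : t = t₀ := by
        have h6 : |t - t₀| ≤ 0 := by simpa using ht
        have := abs_nonpos_iff.1 h6
        linarith
      rw [this]; exact ⟨h0, h0'⟩
    | succ n ih =>
      intro t ht
      push_cast at ht
      rcases le_or_gt (|t - t₀|) (n * r) with h | h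
      · exact ih t h
      · rcases le_total t₀ t with hle | hle
        · have habs : |t - t₀| = t - t₀ := abs_of_nonneg (by linarith)
          rw [habs] at h ht
          have h7 := ih (t₀ + n * r) (by
            rw [add_sub_cancel_left, abs_of_nonneg (by positivity)])
          have h8 := hstep _ h7.1 h7.2 r (abs_of_pos hr0) ((t - (t₀ + n * r)) / r)
            ⟨div_nonneg (by linarith) hr0.le, by rw [div_le_one hr0]; nlinarith⟩
          have h9 : t₀ + n * r + r * ((t - (t₀ + n * r)) / r) = t := by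
            field_simp; ring
          rwa [h9] at h8
        · have habs : |t - t₀| = t₀ - t := by rw [abs_of_nonpos (by linarith)]; ring
          rw [habs] at h ht
          have h7 := ih (t₀ - n * r) (by
            rw [sub_sub_cancel_left, abs_neg, abs_of_nonneg (by positivity)])
          have h8 := hstep _ h7.1 h7.2 (-r) (by rw [abs_neg, abs_of_pos hr0])
            (((t₀ - n * r) - t) / r)
            ⟨div_nonneg (by linarith) hr0.le, by rw [div_le_one hr0]; nlinarith⟩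
          have h9 : t₀ - n * r + -r * (((t₀ - n * r) - t) / r) = t := by
            field_simp; ring
          rwa [h9] at h8
  funext t
  obtain ⟨n, hnn⟩ := exists_nat_ge (|t - t₀| / r)
  exact (hn n t (by rw [div_le_iff₀ hr0] at hnn; exact hnn)).1

/-- Short geodesics are determined by their end points. -/
theorem IsGeo.eq_of_short (hδ : 0 < δ) (hsc : ∀ q ∈ S, Scale F S δ q) {γ₁ γ₂ : ℝ → E}
    (h₁ : IsGeo S γ₁) (h₂ : IsGeo S γ₂) (h0 : γ₁ 0 = γ₂ 0) (h1 : γ₁ 1 = γ₂ 1)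
    (hs₁ : ‖deriv γ₁ 0‖ < δ) (hs₂ : ‖deriv γ₂ 0‖ < δ) : γ₁ = γ₂ := by
  have h := agree_01 hsc h₁ h₂ h0 hs₁ hs₂ (Or.inl h1) 0 ⟨le_refl _, zero_le_one⟩
  exact h₁.eq_of_first_order hδ hsc h₂ h.1 h.2

end

end Pool.Agent.H91.GE
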