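import Pool.Agent.H91.GE.Field
import Pool.Agent.H91.GE.FlowDiff
import Pool.Agent.H91.GE.Uniq

/-!
# The geodesic flow of a compact submanifold (speed at most `2`)
-/

set_option autoImplicit false

open scoped InnerProductSpace Topology ContDiff
open Set Filter

namespace Pool.Agent.H91.GE

variable {E F : Type*} [NormedAddCommGroup E] [InnerProductSpace ℝ E] [FiniteDimensional ℝ E]
  [NormedAddCommGroup F] [InnerProductSpace ℝ F] [FiniteDimensional ℝ F]

/-- The vector field on `E × E`. -/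
def XF (A : E × E → E) : E × E → E × E := fun w => (w.2, A w)

theorem IsField.lip {S : Set E} {A : E × E → E} (hA : IsField F S A) :
    ∃ C : NNReal, LipschitzWith C A :=
  ContDiff.lipschitzWith_of_hasCompactSupport hA.supp hA.smooth (by simp)

theorem IsField.lip' {S : Set E} {A : E × E → E} (hA : IsField F S A) :
    ∃ C : NNReal, LipschitzWith C (fderiv ℝ A) := by
  have hdA : ContDiff ℝ ∞ (fderiv ℝ A) := hA.smooth.fderiv_right (by norm_num)
  have hs : HasCompactSupport (fderiv ℝ A) := hA.supp.fderiv (𝕜 := ℝ)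
  exact ContDiff.lipschitzWith_of_hasCompactSupport hs hdA (by simp)

omit [InnerProductSpace ℝ E] [FiniteDimensional ℝ E] in
theorem lip_XF {A : E × E → E} {C : NNReal} (hC : LipschitzWith C A) :
    LipschitzWith (max 1 C) (XF A) := by
  exact LipschitzWith.prodMk LipschitzWith.prod_snd hC

omit [FiniteDimensional ℝ E] in
theorem lip_fderiv_XF {A : E × E → E} (hA : ContDiff ℝ ∞ A) {C₂ : NNReal}
    (hC₂ : LipschitzWith C₂ (fderiv ℝ A)) : LipschitzWith C₂ (fderiv ℝ (XF A)) := by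
  have h1 : ∀ w, fderiv ℝ (XF A) w = (ContinuousLinearMap.snd ℝ E E).prod (fderiv ℝ A w) := by
    intro w
    have h2 : HasFDerivAt (XF A) ((ContinuousLinearMap.snd ℝ E E).prod (fderiv ℝ A w)) w :=
      (ContinuousLinearMap.snd ℝ E E).hasFDerivAt.prodMk
        (hA.differentiable (by simp) w).hasFDerivAt
    exact h2.fderiv
  refine LipschitzWith.of_dist_le_mul fun x y => ?_
  rw [dist_eq_norm, h1, h1]
  refine ContinuousLinearMap.opNorm_le_bound _ (by positivity) fun z => ?_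
  have h3 : ((ContinuousLinearMap.snd ℝ E E).prod (fderiv ℝ A x)
        - (ContinuousLinearMap.snd ℝ E E).prod (fderiv ℝ A y)) z
        = (0, (fderiv ℝ A x - fderiv ℝ A y) z) := by
      simp
  rw [h3, Prod.norm_def]
  simp only [norm_zero]
  refine max_le (by positivity) ?_
  have h4 := hC₂.dist_le_mul x y
  rw [dist_eq_norm] at h4
  exact (fderiv ℝ A x - fderiv ℝ A y).le_of_opNorm_le h4 z

theorem isVF_XF {S : Set E} {A : E × E → E} (hA : IsField F S A) :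
    ∃ K K₂ : NNReal, IsVF (XF A) K K₂ := by
  obtain ⟨C, hC⟩ := hA.lip
  obtain ⟨C₂, hC₂⟩ := hA.lip'
  have hsm : ContDiff ℝ 1 (XF A) :=
    contDiff_snd.prodMk (hA.smooth.of_le (by exact_mod_cast le_top))
  have h1 := lip_XF hC
  have h2 := lip_fderiv_XF hA.smooth hC₂
  exact ⟨_, _, hsm, h1, h2⟩

/-- All the data of the geodesic flow. -/
structure GFlow (F : Type*) [NormedAddCommGroup F] [InnerProductSpace ℝ F] [FiniteDimensional ℝ F]
    (S : Set E) (A : E × E → E) (K K₂ : NNReal) (Φ : ℝ → E × E → E × E) : Prop where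
  compact : IsCompact S
  sub : IsSub F S
  field : IsField F S A
  vf : IsVF (XF A) K K₂
  flow : IsFlow (XF A) Φ

theorem exists_GFlow {S : Set E} (hS : IsCompact S) (hsub : IsSub F S) :
    ∃ (A : E × E → E) (K K₂ : NNReal) (Φ : ℝ → E × E → E × E), GFlow F S A K K₂ Φ := by
  obtain ⟨A, hA⟩ := exists_field hS hsub
  obtain ⟨K, K₂, hX⟩ := isVF_XF hA
  obtain ⟨Φ, hΦ⟩ := hX.exists_flow
  exact ⟨A, K, K₂, Φ, hS, hsub, hA, hX, hΦ⟩

section

variable {S : Set E} {A : E × E → E} {K K₂ : NNReal} {Φ : ℝ → E × E → E × E}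

/-- Geodesics of speed at most `2` are flow lines. -/
theorem GFlow.of_geo (h : GFlow F S A K K₂ Φ) {γ : ℝ → E} (hγ : IsGeo S γ)
    (hs : ‖deriv γ 0‖ ≤ 2) (t : ℝ) : (γ t, deriv γ t) = Φ t (γ 0, deriv γ 0) := by
  refine h.flow.unique' h.vf (γ := fun t => (γ t, deriv γ t)) (fun t => ?_) t
  have h1 := (hγ.hasDerivAt t).prodMk (hγ.hasDerivAt' t)
  obtain ⟨U, hU, f, hf⟩ := h.sub (γ t) (hγ.mem t)
  have h2 : deriv (deriv γ) t = A (γ t, deriv γ t) := by
    rw [(hγ.acc_eq hf hU).2]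
    exact (h.field.eq _ (hγ.mem_TSet t) (by
      show ‖deriv γ t‖ ≤ 2
      rw [hγ.speed t 0]; exact hs) U f hf hU).symm
  rw [h2] at h1
  exact h1

/-- Acceleration is orthogonal to tangent vectors. -/
theorem GFlow.inner_A (h : GFlow F S A K K₂ Φ) {q v u : E} (hv : (q, v) ∈ TSet S) (hv2 : ‖v‖ ≤ 2)
    (hu : (q, u) ∈ TSet S) : ⟪A (q, v), u⟫_ℝ = 0 := by
  obtain ⟨U, hU, f, hf⟩ := h.sub q (fst_mem_TSet hv)
  have h1 : A (q, v) = Acc f q v := h.field.eq _ hv hv2 U f hf hU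
  rw [h1]
  show ⟪-(Rinv _ _), u⟫_ℝ = 0
  rw [inner_neg_left, inner_Rinv _ ((mem_TSet_iff hf hU).1 hu).2, neg_zero]

theorem GFlow.local (h : GFlow F S A K K₂ Φ) {w : E × E} (hw : w ∈ TSet S) (hw2 : ‖w.2‖ ≤ 2) :
    ∃ ε > 0, ∀ t ∈ Ioo (-ε) ε, Φ t w ∈ TSet S ∧ ‖(Φ t w).2‖ = ‖w.2‖ := by
  obtain ⟨q, v⟩ := w
  obtain ⟨U, hU, f, hf⟩ := h.sub q (fst_mem_TSet hw)
  obtain ⟨ε, hε, σ, η, h0, h0', hσ⟩ := exists_local_geo hf hU hw
  have h0ε : (0 : ℝ) ∈ Ioo (-ε) ε := ⟨by linarith, hε⟩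
  -- the speed is constant
  have hsp : ∀ t ∈ Ioo (-ε) ε, ‖η t‖ = ‖v‖ := by
    intro t ht
    have hd : ∀ t ∈ Ioo (-ε) ε, HasDerivAt (fun t => ⟪η t, η t⟫_ℝ) 0 t := by
      intro t ht
      obtain ⟨-, h2, h3, h4⟩ := hσ t ht
      have h5 := h2.inner ℝ h2
      have h6 : ⟪Acc f (σ t) (η t), η t⟫_ℝ = 0 := by
        show ⟪-(Rinv _ _), _⟫_ℝ = 0
        rw [inner_neg_left, inner_Rinv _ ((mem_TSet_iff hf h3).1 h4).2, neg_zero]
      have h7 : ⟪η t, Acc f (σ t) (η t)⟫_ℝ = 0 := by rw [real_inner_comm]; exact h6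
      rw [h6, h7, add_zero] at h5
      exact h5
    have h1 := (convex_Ioo (-ε) ε).norm_image_sub_le_of_norm_hasDerivWithin_le
      (f := fun t => ⟪η t, η t⟫_ℝ) (f' := fun _ => (0 : ℝ)) (C := 0)
      (fun x hx => (hd x hx).hasDerivWithinAt) (fun x _ => by simp) h0ε ht
    rw [zero_mul] at h1
    have h2 := norm_le_zero_iff.1 h1
    have h3 : ⟪η t, η t⟫_ℝ = ⟪v, v⟫_ℝ := by
      have := sub_eq_zero.1 h2
      rw [this, h0']
    rw [real_inner_self_eq_norm_sq, real_inner_self_eq_norm_sq] at h3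
    exact (sq_eq_sq₀ (norm_nonneg _) (norm_nonneg _)).1 h3
  have hu := h.flow.unique h.vf (a := -ε) (b := ε) h0ε (γ := fun t => (σ t, η t)) (fun t ht => by
    obtain ⟨h1, h2, h3, h4⟩ := hσ t ht
    have h5 := h1.prodMk h2
    have h6 : Acc f (σ t) (η t) = A (σ t, η t) :=
      (h.field.eq _ h4 (by show ‖η t‖ ≤ 2; rw [hsp t ht]; exact hw2) U f hf h3).symm
    rw [h6] at h5
    exact h5) 0 (q, v) (by rw [add_zero, h.flow.zero]; simp [h0, h0'])
  refine ⟨ε, hε, fun t ht => ?_⟩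
  have h1 := hu t ht
  rw [add_zero] at h1
  rw [← h1]
  exact ⟨(hσ t ht).2.2.2, hsp t ht⟩

/-- The flow preserves tangent vectors and speed. -/
theorem GFlow.mem (h : GFlow F S A K K₂ Φ) {w : E × E} (hw : w ∈ TSet S) (hw2 : ‖w.2‖ ≤ 2)
    (t : ℝ) : Φ t w ∈ TSet S ∧ ‖(Φ t w).2‖ = ‖w.2‖ := by
  set T : Set ℝ := {t | Φ t w ∈ TSet S ∧ ‖(Φ t w).2‖ = ‖w.2‖} with hT
  have hcl : IsClosed T := by
    refine IsClosed.inter ?_ ?_
    · exact (isClosed_TSet h.compact h.sub).preimage (h.flow.continuous_left w)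
    · exact isClosed_eq ((h.flow.continuous_left w).snd.norm) continuous_const
  have hop : IsOpen T := by
    rw [isOpen_iff_mem_nhds]
    intro t ht
    obtain ⟨ε, hε, hloc⟩ := h.local ht.1 (by rw [ht.2]; exact hw2)
    refine mem_of_superset (Ioo_mem_nhds (show t - ε < t by linarith) (show t < t + ε by linarith))
      fun s hs => ?_
    have h1 := hloc (s - t) ⟨by linarith [hs.1], by linarith [hs.2]⟩
    rw [← h.flow.add h.vf, sub_add_cancel] at h1
    exact ⟨h1.1, h1.2.trans ht.2⟩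
  have huniv : T = univ := IsClopen.eq_univ ⟨hcl, hop⟩
    ⟨0, by show Φ 0 w ∈ TSet S ∧ _; rw [h.flow.zero]; exact ⟨hw, rfl⟩⟩
  have : t ∈ T := by rw [huniv]; exact mem_univ t
  exact this

/-- Flow lines of tangent vectors are geodesics. -/
theorem GFlow.isGeo (h : GFlow F S A K K₂ Φ) {w : E × E} (hw : w ∈ TSet S) (hw2 : ‖w.2‖ ≤ 2) :
    IsGeo S (fun t => (Φ t w).1) ∧ deriv (fun t => (Φ t w).1) = fun t => (Φ t w).2 := by
  have hX : ContDiff ℝ ∞ (XF A) := contDiff_snd.prodMk h.field.smooth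
  have hd1 : ∀ t, HasDerivAt (fun t => (Φ t w).1) (Φ t w).2 t := fun t =>
    (ContinuousLinearMap.fst ℝ E E).hasFDerivAt.comp_hasDerivAt t (h.flow.deriv t w)
  have hd2 : ∀ t, HasDerivAt (fun t => (Φ t w).2) (A (Φ t w)) t := fun t =>
    (ContinuousLinearMap.snd ℝ E E).hasFDerivAt.comp_hasDerivAt t (h.flow.deriv t w)
  have hderiv : deriv (fun t => (Φ t w).1) = fun t => (Φ t w).2 := funext fun t => (hd1 t).deriv
  have hsm : ∀ n : ℕ, ContDiff ℝ n (fun t => Φ t w) := by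
    intro n
    induction n with
    | zero => exact contDiff_zero.2 (h.flow.continuous_left w)
    | succ n ih =>
      have h1 : deriv (fun t => Φ t w) = fun t => XF A (Φ t w) :=
        funext fun t => (h.flow.deriv t w).deriv
      have h2 : ((n + 1 : ℕ) : WithTop ℕ∞) = (n : WithTop ℕ∞) + 1 := by push_cast; rfl
      rw [h2, contDiff_succ_iff_deriv]
      refine ⟨fun t => (h.flow.deriv t w).differentiableAt, by simp, ?_⟩
      rw [h1]
      exact (hX.of_le (by exact_mod_cast le_top)).comp ih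
  refine ⟨⟨(contDiff_infty.2 hsm).fst, fun t => fst_mem_TSet (h.mem hw hw2 t).1, ?_⟩, hderiv⟩
  intro t c hc hcS hc0
  rw [hderiv, (hd2 t).deriv]
  obtain ⟨h1, h2⟩ := h.mem hw hw2 t
  have h3 : ((Φ t w).1, deriv c 0) ∈ TSet S := ⟨c, hc, hcS, hc0, rfl⟩
  exact h.inner_A (q := (Φ t w).1) (v := (Φ t w).2) h1 (by rw [h2]; exact hw2) h3

end

end Pool.Agent.H91.GE
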