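import Pool.Agent.H91.GE.Tube
import Pool.Agent.H91.GE.Finite

/-!
# Intersections of geodesics which start at one point of a secure surface
-/

set_option autoImplicit false

open scoped InnerProductSpace Topology ContDiff
open Set Filter

namespace Pool.Agent.H91.GE

variable {E F : Type*} [NormedAddCommGroup E] [InnerProductSpace ℝ E] [FiniteDimensional ℝ E]
  [NormedAddCommGroup F] [InnerProductSpace ℝ F] [FiniteDimensional ℝ F]
  {S : Set E} {A : E × E → E} {K K₂ : NNReal} {Φ : ℝ → E × E → E × E}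
  {p e ν : E} {ψ : ℝ × ℝ → E} {I : ℝ × ℝ → E × E} {r : ℝ}

/-- Two unit speed geodesics with infinitely many intersections in bounded time coincide up to a
reparametrisation by `± 1` and a shift. -/
theorem inter (hS : IsCompact S) (hsub : IsSub F S) {γ η : ℝ → E} (hγ : IsGeo S γ)
    (hη : IsGeo S η) (hγ1 : ‖deriv γ 0‖ = 1) (hη1 : ‖deriv η 0‖ = 1) {a b a' b' : ℝ}
    (hinf : {t | t ∈ Icc a b ∧ ∃ t' ∈ Icc a' b', γ t = η t'}.Infinite) :
    ∃ t ∈ Icc a b, ∃ t' ∈ Icc a' b', ∃ σ : ℝ, (σ = 1 ∨ σ = -1) ∧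
      ∀ s, γ (t + s) = η (t' + σ * s) := by
  obtain ⟨δ, hδ, hsc⟩ := exists_scale hS hsub
  set W : Set (ℝ × ℝ) := {x | x ∈ Icc a b ×ˢ Icc a' b' ∧ γ x.1 - η x.2 = 0} with hW
  have hWinf : W.Infinite := by
    intro hfin
    refine hinf ((hfin.image Prod.fst).subset ?_)
    rintro t ⟨ht, t', ht', he⟩
    exact ⟨(t, t'), ⟨⟨ht, ht'⟩, sub_eq_zero.2 he⟩, rfl⟩
  obtain ⟨⟨t, t'⟩, hmem, hacc⟩ := hWinf.exists_accPt_of_subset_isCompact
    (isCompact_Icc.prod isCompact_Icc) (fun x hx => hx.1)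
  have hcont : Continuous fun x : ℝ × ℝ => γ x.1 - η x.2 :=
    (hγ.continuous.comp continuous_fst).sub (hη.continuous.comp continuous_snd)
  have heq : γ t = η t' := by
    have hcl : IsClosed {x : ℝ × ℝ | γ x.1 - η x.2 = 0} := isClosed_eq hcont continuous_const
    have h1 : (t, t') ∈ closure {x : ℝ × ℝ | γ x.1 - η x.2 = 0} :=
      closure_mono (fun x hx => hx.2) hacc.clusterPt.mem_closure
    rw [hcl.closure_eq] at h1
    exact sub_eq_zero.1 h1
  have hd : HasFDerivAt (fun x : ℝ × ℝ => γ x.1 - η x.2)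
      ((ContinuousLinearMap.fst ℝ ℝ ℝ).smulRight (deriv γ t)
        - (ContinuousLinearMap.snd ℝ ℝ ℝ).smulRight (deriv η t')) (t, t') := by
    have h1 : HasFDerivAt (fun x : ℝ × ℝ => γ x.1)
        ((ContinuousLinearMap.fst ℝ ℝ ℝ).smulRight (deriv γ t)) (t, t') := by
      have h0 : HasFDerivAt γ (ContinuousLinearMap.smulRight (1 : ℝ →L[ℝ] ℝ) (deriv γ t))
        ((t, t') : ℝ × ℝ).1 := (hγ.hasDerivAt t).hasFDerivAt
      refine (h0.comp (t, t') (ContinuousLinearMap.fst ℝ ℝ ℝ).hasFDerivAt).congr_fderiv ?_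
      ext x <;> simp
    have h2 : HasFDerivAt (fun x : ℝ × ℝ => η x.2)
        ((ContinuousLinearMap.snd ℝ ℝ ℝ).smulRight (deriv η t')) (t, t') := by
      have h0 : HasFDerivAt η (ContinuousLinearMap.smulRight (1 : ℝ →L[ℝ] ℝ) (deriv η t'))
        ((t, t') : ℝ × ℝ).2 := (hη.hasDerivAt t').hasFDerivAt
      refine (h0.comp (t, t') (ContinuousLinearMap.snd ℝ ℝ ℝ).hasFDerivAt).congr_fderiv ?_
      ext x <;> simp
    exact h1.sub h2
  -- the derivative is not injective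
  have hninj : ∃ x : ℝ × ℝ, x ≠ 0 ∧ x.1 • deriv γ t = x.2 • deriv η t' := by
    by_contra hcon
    push Not at hcon
    have hinj : LinearMap.ker (((ContinuousLinearMap.fst ℝ ℝ ℝ).smulRight (deriv γ t)
        - (ContinuousLinearMap.snd ℝ ℝ ℝ).smulRight (deriv η t') : ℝ × ℝ →L[ℝ] E) :
          ℝ × ℝ →ₗ[ℝ] E) = ⊥ := by
      rw [LinearMap.ker_eq_bot']
      intro x hx
      by_contra hne
      refine hcon x hne ?_
      have h1 : x.1 • deriv γ t - x.2 • deriv η t' = 0 := hx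
      exact sub_eq_zero.1 h1
    obtain ⟨C, hC0, hC⟩ := LinearMap.exists_antilipschitzWith _ hinj
    have hev := hd.eventually_ne (c := 0) ⟨C, hC⟩
    rw [accPt_iff_frequently_nhdsNE] at hacc
    exact hacc (hev.mono fun x hx hx' => hx hx'.2)
  obtain ⟨x, hx0, hx⟩ := hninj
  have hn1 : ‖deriv γ t‖ = 1 := by rw [hγ.speed t 0, hγ1]
  have hn2 : ‖deriv η t'‖ = 1 := by rw [hη.speed t' 0, hη1]
  have habs : |x.1| = |x.2| := by
    have h1 := congrArg norm hx
    rw [norm_smul, norm_smul, hn1, hn2, mul_one, mul_one, Real.norm_eq_abs, Real.norm_eq_abs] at h1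
    exact h1
  have hx1 : x.1 ≠ 0 := by
    intro h0
    rw [h0, abs_zero] at habs
    exact hx0 (Prod.ext h0 (abs_eq_zero.1 habs.symm))
  have hσ : ∃ σ : ℝ, (σ = 1 ∨ σ = -1) ∧ deriv γ t = σ • deriv η t' := by
    rcases abs_eq_abs.1 habs with h1 | h1
    · refine ⟨1, Or.inl rfl, ?_⟩
      rw [h1] at hx
      rw [one_smul]
      exact smul_right_injective E (by rw [← h1]; exact hx1) hx
    · refine ⟨-1, Or.inr rfl, ?_⟩
      have h2 : x.1 • deriv γ t = x.1 • ((-1 : ℝ) • deriv η t') := by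
        rw [hx, smul_smul]
        congr 1
        rw [h1]; ring
      exact smul_right_injective E hx1 h2
  obtain ⟨σ, hσ1, hσ2⟩ := hσ
  refine ⟨t, hmem.1, t', hmem.2, σ, hσ1, fun s => ?_⟩
  have h1 : (fun s => γ (t + 1 * s)) = fun s => η (t' + σ * s) := by
    refine (hγ.affine t 1).eq_of_first_order hδ hsc (hη.affine t' σ) (t₀ := 0) ?_ ?_
    · simp [heq]
    · rw [deriv_affine hγ, deriv_affine hη]
      simp [hσ2]
  have h2 := congrFun h1 s
  simpa using h2

/-- The geodesic with initial condition `I w`. -/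
noncomputable def gam (Φ : ℝ → E × E → E × E) (I : ℝ × ℝ → E × E) (w : ℝ × ℝ) (t : ℝ) : E :=
  (Φ t (I w)).1

theorem isGeo_gam (h : GFlow F S A K K₂ Φ) (hs : Sec S p e ν ψ I r) {w : ℝ × ℝ}
    (hw : w ∈ Metric.ball (0 : ℝ × ℝ) r) :
    IsGeo S (gam Φ I w) ∧ deriv (gam Φ I w) = fun t => (Φ t (I w)).2 := by
  obtain ⟨a1, a2, -⟩ := hs.I_mem w hw
  exact h.isGeo a1 (by rw [a2]; norm_num)

theorem gam_zero (h : GFlow F S A K K₂ Φ) (w : ℝ × ℝ) : gam Φ I w 0 = (I w).1 := by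
  show (Φ 0 (I w)).1 = _
  rw [h.flow.zero]

theorem deriv_gam_zero (h : GFlow F S A K K₂ Φ) (hs : Sec S p e ν ψ I r) {w : ℝ × ℝ}
    (hw : w ∈ Metric.ball (0 : ℝ × ℝ) r) : deriv (gam Φ I w) 0 = (I w).2 := by
  rw [(isGeo_gam h hs hw).2]
  show (Φ 0 (I w)).2 = _
  rw [h.flow.zero]

omit [FiniteDimensional ℝ E] in
theorem Sec.I_inj (hs : Sec S p e ν ψ I r) {w w' : ℝ × ℝ} (hw : w ∈ Metric.ball (0 : ℝ × ℝ) r)
    (hw' : w' ∈ Metric.ball (0 : ℝ × ℝ) r) (he : I w = I w') : w = w' := by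
  obtain ⟨-, -, -, a1, a2, a3⟩ := hs.I_mem w hw
  obtain ⟨-, -, -, b1, -, b3⟩ := hs.I_mem w' hw'
  rw [he] at a1 a2 a3
  refine Prod.ext (a1.symm.trans b1) ?_
  have h1 := a3.symm.trans b3
  exact mul_right_cancel₀ a2.ne' h1

/-- Finiteness of the directions which reach `z` in bounded time. -/
theorem dir_finite (h : GFlow F S A K K₂ Φ) (hs : Sec S p e ν ψ I r) (hsec : Secure S)
    {x z : E} (hx : x ∈ S) (hz : z ∈ S) (T : ℝ) :
    {w : ℝ × ℝ | w ∈ Metric.ball (0 : ℝ × ℝ) r ∧ (I w).1 = x ∧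
      ∃ t, 0 < |t| ∧ |t| ≤ T ∧ gam Φ I w t = z}.Finite := by
  set D := {w : ℝ × ℝ | w ∈ Metric.ball (0 : ℝ × ℝ) r ∧ (I w).1 = x ∧
      ∃ t, 0 < |t| ∧ |t| ≤ T ∧ gam Φ I w t = z} with hD
  have hex : ∀ w ∈ D, ∃ t, 0 < |t| ∧ |t| ≤ T ∧ gam Φ I w t = z := fun w hw => hw.2.2
  choose! t ht0 htT htz using hex
  have hfin := (finite_geodesics h.compact h.sub hsec hx hz T).prod (Set.toFinite ({1, -1} : Set ℝ))
  have hder : ∀ w ∈ D, deriv (fun s => gam Φ I w (0 + t w * s)) 0 = t w • (I w).2 := by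
    intro w hw
    rw [deriv_affine (isGeo_gam h hs hw.1).1]
    simp only [mul_zero, add_zero]
    rw [deriv_gam_zero h hs hw.1]
  refine Set.Finite.of_injOn (f := fun w => ((fun s => gam Φ I w (0 + t w * s)),
    ((SignType.sign (t w) : SignType) : ℝ)))
    ?_ ?_ hfin
  · intro w hw
    refine ⟨⟨(isGeo_gam h hs hw.1).1.affine 0 (t w), ?_, ?_, ?_, ?_⟩, ?_⟩
    · show gam Φ I w (0 + t w * 0) = x
      rw [mul_zero, add_zero, gam_zero h]; exact hw.2.1
    · show gam Φ I w (0 + t w * 1) = z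
      rw [mul_one, zero_add]; exact htz w hw
    · show deriv (fun s => gam Φ I w (0 + t w * s)) 0 ≠ 0
      rw [hder w hw]
      have h1 : (I w).2 ≠ 0 := by
        intro h0
        have := (hs.I_mem w hw.1).2.1
        rw [h0, norm_zero] at this
        exact zero_ne_one this
      exact smul_ne_zero (abs_pos.1 (ht0 w hw)) h1
    · show ‖deriv (fun s => gam Φ I w (0 + t w * s)) 0‖ ≤ T
      rw [hder w hw, norm_smul, (hs.I_mem w hw.1).2.1, mul_one, Real.norm_eq_abs]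
      exact htT w hw
    · show ((SignType.sign (t w) : SignType) : ℝ) ∈ ({1, -1} : Set ℝ)
      rcases lt_or_gt_of_ne (abs_pos.1 (ht0 w hw)) with h1 | h1
      · rw [sign_neg h1]; right; simp
      · rw [sign_pos h1]; left; simp
  · intro w hw w' hw' he
    simp only [Prod.mk.injEq] at he
    obtain ⟨e1, e2⟩ := he
    have h1 : t w • (I w).2 = t w' • (I w').2 := by
      rw [← hder w hw, ← hder w' hw', e1]
    have habs : |t w| = |t w'| := by
      have h2 := congrArg norm h1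
      rw [norm_smul, norm_smul, (hs.I_mem w hw.1).2.1, (hs.I_mem w' hw'.1).2.1, mul_one, mul_one,
        Real.norm_eq_abs, Real.norm_eq_abs] at h2
      exact h2
    have htt : t w = t w' := by
      have h3 := sign_mul_abs (t w)
      have h4 := sign_mul_abs (t w')
      rw [← h3, ← h4, habs, e2]
    rw [htt] at h1
    have h2 : (I w).2 = (I w').2 := smul_right_injective E (abs_pos.1 (ht0 w' hw')) h1
    exact hs.I_inj hw.1 hw'.1 (Prod.ext (hw.2.1.trans hw'.2.1.symm) h2)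

end Pool.Agent.H91.GE
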