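import Mathlib

/-!
# Global flows of Lipschitz vector fields on a finite-dimensional space
-/

set_option autoImplicit false

open scoped Topology ContDiff Manifold
open Set Filter Metric

namespace Pool.Agent.H91.GE
variable {G : Type*} [NormedAddCommGroup G] [NormedSpace ℝ G] [FiniteDimensional ℝ G]

theorem exists_uniform {X : G → G} {K : NNReal} (hK : LipschitzWith K X) (w : G) :
    ∃ γ : ℝ → G, γ 0 = w ∧ ∀ t ∈ Ioo (-(1 / (2 * ((K : ℝ) + 1)))) (1 / (2 * ((K : ℝ) + 1))),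
      HasDerivAt γ (X (γ t)) t := by
  set ε : ℝ := 1 / (2 * ((K : ℝ) + 1)) with hε
  have hε0 : 0 < ε := by positivity
  have h0 : (0 : ℝ) ∈ Icc (-ε) ε := ⟨by linarith, hε0.le⟩
  set a : NNReal := ‖X w‖₊ + 1 with ha
  set L : NNReal := ‖X w‖₊ + K * a with hL
  have hp : IsPicardLindelof (fun _ => X) (⟨0, h0⟩ : Icc (-ε) ε) w a 0 L K := by
    refine IsPicardLindelof.of_time_independent ?_ (hK.lipschitzOnWith) ?_
    · intro x hx
      have h1 := hK.dist_le_mul x w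
      rw [dist_eq_norm] at h1
      have h2 : ‖X x‖ ≤ ‖X w‖ + ‖X x - X w‖ := by
        have := norm_add_le (X w) (X x - X w)
        simpa using this
      have h3 : dist x w ≤ a := hx
      have h4 : (K : ℝ) * dist x w ≤ K * a := mul_le_mul_of_nonneg_left h3 K.2
      rw [hL]; push_cast
      linarith
    · have h1 : max (ε - ((⟨0, h0⟩ : Icc (-ε) ε) : ℝ)) (((⟨0, h0⟩ : Icc (-ε) ε) : ℝ) - -ε) = ε := by
        simp
      rw [h1, hL]
      push_cast
      have h2 : ‖X w‖ ≤ a := by rw [ha]; push_cast; linarith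
      have h3 : (‖X w‖ + K * a) * ε ≤ a := by
        rw [hε, mul_one_div, div_le_iff₀ (by positivity)]
        have : (0 : ℝ) ≤ a := a.2
        have hK0 : (0 : ℝ) ≤ K := K.2
        nlinarith [mul_nonneg hK0 this]
      simpa using h3
  obtain ⟨γ, hγ0, hγ⟩ := hp.exists_eq_forall_mem_Icc_hasDerivWithinAt₀
  exact ⟨γ, hγ0, fun t ht => (hγ t (Ioo_subset_Icc_self ht)).hasDerivAt (Icc_mem_nhds ht.1 ht.2)⟩

theorem exists_global {X : G → G} (hX : ContDiff ℝ 1 X) {K : NNReal} (hK : LipschitzWith K X)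
    (w : G) : ∃ γ : ℝ → G, γ 0 = w ∧ ∀ t, HasDerivAt γ (X (γ t)) t := by
  have hv : ContMDiff 𝓘(ℝ, G) 𝓘(ℝ, G).tangent 1
      (fun x => (⟨x, X x⟩ : TangentBundle 𝓘(ℝ, G) G)) :=
    contMDiff_vectorSpace_iff_contDiff.2 hX
  obtain ⟨γ, h0, hγ⟩ := exists_isMIntegralCurve_of_isMIntegralCurveOn (I := 𝓘(ℝ, G)) (M := G)
    (v := X) hv (ε := 1 / (2 * ((K : ℝ) + 1))) (by positivity) (fun x => by
      obtain ⟨γ, h0, hγ⟩ := exists_uniform hK x
      refine ⟨γ, h0, fun t ht => ?_⟩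
      exact (hγ t ht).hasFDerivAt.hasMFDerivAt.hasMFDerivWithinAt) w
  refine ⟨γ, h0, fun t => ?_⟩
  have h1 : HasFDerivAt γ ((1 : ℝ →L[ℝ] ℝ).smulRight (X (γ t))) t :=
    hasMFDerivAt_iff_hasFDerivAt.1 (hγ t)
  have h2 := h1.hasDerivAt
  simpa using h2

/-- The hypotheses on the vector field. -/
structure IsVF (X : G → G) (K K₂ : NNReal) : Prop where
  smooth : ContDiff ℝ 1 X
  lip : LipschitzWith K X
  lip' : LipschitzWith K₂ (fderiv ℝ X)

/-- `Φ` is the flow of `X`. -/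
structure IsFlow (X : G → G) (Φ : ℝ → G → G) : Prop where
  zero : ∀ w, Φ 0 w = w
  deriv : ∀ t w, HasDerivAt (fun t => Φ t w) (X (Φ t w)) t

theorem IsVF.exists_flow {X : G → G} {K K₂ : NNReal} (hX : IsVF X K K₂) :
    ∃ Φ : ℝ → G → G, IsFlow X Φ := by
  choose Φ h0 h1 using exists_global hX.smooth hX.lip
  exact ⟨fun t w => Φ w t, fun w => h0 w, fun t w => h1 w t⟩

variable {X : G → G} {K K₂ : NNReal} {Φ : ℝ → G → G}

omit [FiniteDimensional ℝ G] in
theorem IsVF.neg (hX : IsVF X K K₂) : IsVF (fun w => -X w) K K₂ where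
  smooth := hX.smooth.neg
  lip := by
    refine LipschitzWith.of_dist_le_mul fun x y => ?_
    rw [dist_neg_neg]
    exact hX.lip.dist_le_mul x y
  lip' := by
    have h : fderiv ℝ (fun w => -X w) = fun w => -(fderiv ℝ X w) := by
      funext w; exact fderiv_fun_neg
    rw [h]
    refine LipschitzWith.of_dist_le_mul fun x y => ?_
    rw [dist_neg_neg]
    exact hX.lip'.dist_le_mul x y

omit [FiniteDimensional ℝ G] in
theorem IsFlow.rev (hΦ : IsFlow X Φ) : IsFlow (fun w => -X w) (fun t w => Φ (-t) w) where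
  zero := fun w => by rw [neg_zero]; exact hΦ.zero w
  deriv := fun t w => by
    have h1 : HasDerivAt (fun t : ℝ => -t) (-1) t := (hasDerivAt_id t).neg
    have h2 : HasDerivAt (fun t => Φ (-t) w) ((-1 : ℝ) • X (Φ (-t) w)) t :=
      (hΦ.deriv (-t) w).scomp t h1
    simpa using h2

omit [FiniteDimensional ℝ G] in
/-- Uniqueness on an open interval. -/
theorem IsFlow.unique (hX : IsVF X K K₂) (hΦ : IsFlow X Φ) {a b t₀ : ℝ} (ht₀ : t₀ ∈ Ioo a b)
    {γ : ℝ → G} (hγ : ∀ t ∈ Ioo a b, HasDerivAt γ (X (γ t)) t) (s : ℝ) (w : G)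
    (h : γ t₀ = Φ (t₀ + s) w) : ∀ t ∈ Ioo a b, γ t = Φ (t + s) w := by
  have h1 : ∀ t, HasDerivAt (fun t => Φ (t + s) w) (X (Φ (t + s) w)) t := by
    intro t
    have h2 : HasDerivAt (fun t : ℝ => t + s) 1 t := (hasDerivAt_id t).add_const s
    have h3 : HasDerivAt (fun t => Φ (t + s) w) ((1 : ℝ) • X (Φ (t + s) w)) t :=
      HasDerivAt.scomp (g₁ := fun t => Φ t w) (h := fun t => t + s) t (hΦ.deriv (t + s) w) h2
    simpa using h3
  intro t ht
  exact ODE_solution_unique_of_mem_Ioo (v := fun _ => X) (s := fun _ => univ) (K := K)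
    (fun _ _ => hX.lip.lipschitzOnWith) ht₀ (fun t ht => ⟨hγ t ht, mem_univ _⟩)
    (fun t _ => ⟨h1 t, mem_univ _⟩) h ht

omit [FiniteDimensional ℝ G] in
theorem IsFlow.unique' (hX : IsVF X K K₂) (hΦ : IsFlow X Φ) {γ : ℝ → G}
    (hγ : ∀ t, HasDerivAt γ (X (γ t)) t) (t : ℝ) : γ t = Φ t (γ 0) := by
  have h := hΦ.unique hX (a := -|t| - 1) (b := |t| + 1) (t₀ := 0)
    ⟨by linarith [abs_nonneg t], by linarith [abs_nonneg t]⟩ (fun t _ => hγ t) 0 (γ 0)
    (by rw [zero_add, hΦ.zero]) t ⟨by linarith [neg_abs_le t], by linarith [le_abs_self t]⟩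
  rwa [add_zero] at h

omit [FiniteDimensional ℝ G] in
theorem IsFlow.add (hX : IsVF X K K₂) (hΦ : IsFlow X Φ) (s t : ℝ) (w : G) :
    Φ (s + t) w = Φ s (Φ t w) := by
  have h1 : ∀ r, HasDerivAt (fun r => Φ (r + t) w) (X (Φ (r + t) w)) r := by
    intro r
    have h2 : HasDerivAt (fun r : ℝ => r + t) 1 r := (hasDerivAt_id r).add_const t
    have h3 : HasDerivAt (fun r => Φ (r + t) w) ((1 : ℝ) • X (Φ (r + t) w)) r :=
      HasDerivAt.scomp (g₁ := fun r => Φ r w) (h := fun r => r + t) r (hΦ.deriv (r + t) w) h2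
    simpa using h3
  have h := hΦ.unique' hX h1 s
  simpa using h

omit [FiniteDimensional ℝ G] in
theorem IsFlow.continuous_left (hΦ : IsFlow X Φ) (w : G) : Continuous fun t => Φ t w :=
  continuous_iff_continuousAt.2 fun t => (hΦ.deriv t w).continuousAt

omit [FiniteDimensional ℝ G] in
theorem IsFlow.dist_le_of_nonneg (hX : IsVF X K K₂) (hΦ : IsFlow X Φ) {t : ℝ} (ht : 0 ≤ t)
    (w w' : G) : dist (Φ t w) (Φ t w') ≤ dist w w' * Real.exp (K * t) := by
  have h := dist_le_of_trajectories_ODE (v := fun _ => X) (K := K) (f := fun t => Φ t w)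
    (g := fun t => Φ t w') (a := 0) (b := t) (δ := dist w w') (fun _ => hX.lip)
    (hΦ.continuous_left w).continuousOn (fun s _ => (hΦ.deriv s w).hasDerivWithinAt)
    (hΦ.continuous_left w').continuousOn (fun s _ => (hΦ.deriv s w').hasDerivWithinAt)
    (by rw [hΦ.zero, hΦ.zero]) t ⟨ht, le_refl t⟩
  rwa [sub_zero] at h

omit [FiniteDimensional ℝ G] in
theorem IsFlow.dist_le (hX : IsVF X K K₂) (hΦ : IsFlow X Φ) (t : ℝ)
    (w w' : G) : dist (Φ t w) (Φ t w') ≤ dist w w' * Real.exp (K * |t|) := by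
  rcases le_total 0 t with ht | ht
  · rw [abs_of_nonneg ht]; exact hΦ.dist_le_of_nonneg hX ht w w'
  · rw [abs_of_nonpos ht]
    have h := hΦ.rev.dist_le_of_nonneg hX.neg (t := -t) (by linarith) w w'
    simpa using h

omit [FiniteDimensional ℝ G] in
theorem IsFlow.continuous (hX : IsVF X K K₂) (hΦ : IsFlow X Φ) :
    Continuous fun p : ℝ × G => Φ p.1 p.2 := by
  rw [continuous_iff_continuousAt]
  rintro ⟨t₀, w₀⟩
  rw [ContinuousAt, tendsto_iff_dist_tendsto_zero]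
  have h1 : Tendsto (fun p : ℝ × G => dist p.2 w₀ * Real.exp (K * |p.1|)
      + dist (Φ p.1 w₀) (Φ t₀ w₀)) (𝓝 (t₀, w₀)) (𝓝 0) := by
    have hc : Continuous (fun p : ℝ × G => dist p.2 w₀ * Real.exp (K * |p.1|)
      + dist (Φ p.1 w₀) (Φ t₀ w₀)) := by
      have h2 : Continuous fun p : ℝ × G => Φ p.1 w₀ := (hΦ.continuous_left w₀).comp continuous_fst
      exact ((continuous_snd.dist continuous_const).mul (Real.continuous_exp.comp
        (continuous_const.mul continuous_fst.abs))).add (h2.dist continuous_const)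
    have h3 := hc.tendsto (t₀, w₀)
    simpa using h3
  refine squeeze_zero (fun _ => dist_nonneg) (fun p => ?_) h1
  exact (dist_triangle _ (Φ p.1 w₀) _).trans (add_le_add (hΦ.dist_le hX p.1 p.2 w₀) le_rfl)

end Pool.Agent.H91.GE
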