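import Pool.Agent.H91.GE.Basic

/-!
# The acceleration of a geodesic and its Lipschitz estimate for small velocities
-/

set_option autoImplicit false

open scoped InnerProductSpace Topology ContDiff
open Set Filter

namespace Pool.Agent.H91.GE

variable {E F : Type*} [NormedAddCommGroup E] [InnerProductSpace ℝ E] [FiniteDimensional ℝ E]
  [NormedAddCommGroup F] [InnerProductSpace ℝ F] [FiniteDimensional ℝ F]

/-- The acceleration at `q` with velocity `v` prescribed by the local equation `f`. -/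
noncomputable def Acc (f : E → F) (q v : E) : E :=
  -(Rinv (fderiv ℝ f q) (fderiv ℝ (fderiv ℝ f) q v v))

section geo

variable {S : Set E} {γ : ℝ → E}

omit [FiniteDimensional ℝ E] in
theorem IsGeo.hasDerivAt (hγ : IsGeo S γ) (t : ℝ) : HasDerivAt γ (deriv γ t) t :=
  ((hγ.smooth.differentiable (by simp)).differentiableAt).hasDerivAt

omit [FiniteDimensional ℝ E] in
theorem IsGeo.hasDerivAt' (hγ : IsGeo S γ) (t : ℝ) :
    HasDerivAt (deriv γ) (deriv (deriv γ) t) t :=
  (((contDiff_infty_iff_deriv.1 hγ.smooth).2.differentiable (by simp)).differentiableAt).hasDerivAt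

omit [FiniteDimensional ℝ E] in
theorem IsGeo.continuous (hγ : IsGeo S γ) : Continuous γ := hγ.smooth.continuous

omit [FiniteDimensional ℝ E] in
theorem IsGeo.continuous' (hγ : IsGeo S γ) : Continuous (deriv γ) :=
  (contDiff_infty_iff_deriv.1 hγ.smooth).2.continuous

theorem IsGeo.acc_eq (hγ : IsGeo S γ) {U : Set E} {f : E → F} (h : IsLoc S U f) {t : ℝ}
    (ht : γ t ∈ U) :
    fderiv ℝ f (γ t) (deriv γ t) = 0 ∧
      deriv (deriv γ) t = Acc f (γ t) (deriv γ t) := by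
  have hevU : ∀ᶠ s in 𝓝 t, γ s ∈ U :=
    hγ.continuous.continuousAt.preimage_mem_nhds (h.isOpen.mem_nhds ht)
  have hfd : ∀ s, γ s ∈ U → HasFDerivAt f (fderiv ℝ f (γ s)) (γ s) := fun s hs =>
    ((h.contDiffAt hs).differentiableAt (by simp)).hasFDerivAt
  have hker : ∀ s, γ s ∈ U → fderiv ℝ f (γ s) (deriv γ s) = 0 := by
    intro s hs
    have h1 : HasDerivAt (fun s => f (γ s)) (fderiv ℝ f (γ s) (deriv γ s)) s :=
      (hfd s hs).comp_hasDerivAt s (hγ.hasDerivAt s)
    have h2 : ∀ᶠ r in 𝓝 s, γ r ∈ U :=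
      hγ.continuous.continuousAt.preimage_mem_nhds (h.isOpen.mem_nhds hs)
    have h3 : (fun s => f (γ s)) =ᶠ[𝓝 s] fun _ => 0 := by
      filter_upwards [h2] with r hr
      exact (h.mem_iff hr).1 (hγ.mem r)
    have h4 : HasDerivAt (fun s => f (γ s)) 0 s := (hasDerivAt_const s (0 : F)).congr_of_eventuallyEq h3
    exact h1.unique h4
  refine ⟨hker t ht, ?_⟩
  set L := fderiv ℝ f (γ t) with hL
  have hLs : Function.Surjective L := h.surj _ ht
  set B := fderiv ℝ (fderiv ℝ f) (γ t) (deriv γ t) (deriv γ t) with hB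
  -- second derivative of the equation
  have hsec : B + L (deriv (deriv γ) t) = 0 := by
    have hfd2 : HasFDerivAt (fderiv ℝ f) (fderiv ℝ (fderiv ℝ f) (γ t)) (γ t) := by
      have h1 : ContDiffAt ℝ ∞ (fderiv ℝ f) (γ t) :=
        (h.contDiffAt ht).fderiv_right (by norm_num)
      exact (h1.differentiableAt (by simp)).hasFDerivAt
    have h2 : HasDerivAt (fun s => fderiv ℝ f (γ s)) (fderiv ℝ (fderiv ℝ f) (γ t) (deriv γ t)) t :=
      hfd2.comp_hasDerivAt t (hγ.hasDerivAt t)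
    have h3 : HasDerivAt (fun s => fderiv ℝ f (γ s) (deriv γ s))
        (fderiv ℝ (fderiv ℝ f) (γ t) (deriv γ t) (deriv γ t)
          + fderiv ℝ f (γ t) (deriv (deriv γ) t)) t := h2.clm_apply (hγ.hasDerivAt' t)
    have h4 : (fun s => fderiv ℝ f (γ s) (deriv γ s)) =ᶠ[𝓝 t] fun _ => 0 := by
      filter_upwards [hevU] with r hr
      exact hker r hr
    have h5 : HasDerivAt (fun s => fderiv ℝ f (γ s) (deriv γ s)) 0 t :=
      (hasDerivAt_const t (0 : F)).congr_of_eventuallyEq h4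
    exact h3.unique h5
  -- orthogonality
  set a := deriv (deriv γ) t with ha
  have horth : ∀ w, L w = 0 → ⟪a, w⟫_ℝ = 0 := by
    intro w hw
    obtain ⟨c, hc1, hcS, hc0, hcd⟩ := exists_curve h ht (hγ.mem t) hw
    have := hγ.acc t c hc1 hcS hc0
    rwa [hcd] at this
  have hz : a - Rinv L (L a) = 0 := by
    have h1 : L (a - Rinv L (L a)) = 0 := by
      rw [map_sub, comp_Rinv hLs, sub_self]
    have h2 : ⟪a, a - Rinv L (L a)⟫_ℝ = 0 := horth _ h1
    have h3 : ⟪Rinv L (L a), a - Rinv L (L a)⟫_ℝ = 0 := inner_Rinv _ h1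
    have h4 : ⟪a - Rinv L (L a), a - Rinv L (L a)⟫_ℝ = 0 := by
      rw [inner_sub_left, h2, h3, sub_zero]
    exact inner_self_eq_zero.1 h4
  have h5 : L a = -B := by
    rw [eq_neg_iff_add_eq_zero, add_comm]; exact hsec
  show a = -(Rinv L B)
  rw [sub_eq_zero.1 hz, h5, map_neg]

omit [FiniteDimensional ℝ E] in
/-- Affine reparametrisation. -/
theorem hasDerivAt_affine (hγ : IsGeo S γ) (a b t : ℝ) :
    HasDerivAt (fun s => γ (a + b * s)) (b • deriv γ (a + b * t)) t := by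
  have h1 : HasDerivAt (fun s : ℝ => a + b * s) b t := by
    simpa using ((hasDerivAt_id t).const_mul b).const_add a
  exact (hγ.hasDerivAt (a + b * t)).scomp t h1

omit [FiniteDimensional ℝ E] in
theorem deriv_affine (hγ : IsGeo S γ) (a b : ℝ) :
    deriv (fun s => γ (a + b * s)) = fun t => b • deriv γ (a + b * t) :=
  funext fun t => (hasDerivAt_affine hγ a b t).deriv

omit [FiniteDimensional ℝ E] in
theorem deriv_deriv_affine (hγ : IsGeo S γ) (a b t : ℝ) :
    deriv (deriv (fun s => γ (a + b * s))) t = (b * b) • deriv (deriv γ) (a + b * t) := by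
  rw [deriv_affine hγ]
  have h1 : HasDerivAt (fun s : ℝ => a + b * s) b t := by
    simpa using ((hasDerivAt_id t).const_mul b).const_add a
  have h2 : HasDerivAt (fun s => deriv γ (a + b * s)) (b • deriv (deriv γ) (a + b * t)) t :=
    HasDerivAt.scomp (g₁ := deriv γ) (h := fun s => a + b * s) t (hγ.hasDerivAt' (a + b * t)) h1
  have h3 := (h2.const_smul b).deriv
  rw [show (fun t => b • deriv γ (a + b * t)) = b • (fun s => deriv γ (a + b * s)) from rfl, h3,
    smul_smul]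

omit [FiniteDimensional ℝ E] in
theorem IsGeo.affine (hγ : IsGeo S γ) (a b : ℝ) : IsGeo S (fun s => γ (a + b * s)) where
  smooth := hγ.smooth.comp (contDiff_const.add (contDiff_const.mul contDiff_id))
  mem := fun t => hγ.mem _
  acc := by
    intro t c hc hcS hc0
    rw [deriv_deriv_affine hγ, inner_smul_left, hγ.acc (a + b * t) c hc hcS hc0, mul_zero]

omit [FiniteDimensional ℝ E] in
/-- Geodesics have constant speed. -/
theorem IsGeo.speed (hγ : IsGeo S γ) (s t : ℝ) : ‖deriv γ s‖ = ‖deriv γ t‖ := by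
  have hd : ∀ t, HasDerivAt (fun t => ⟪deriv γ t, deriv γ t⟫_ℝ) 0 t := by
    intro t
    have h1 := (hγ.hasDerivAt' t).inner ℝ (hγ.hasDerivAt' t)
    have h2 : ⟪deriv (deriv γ) t, deriv γ t⟫_ℝ = 0 := by
      have hsm : ContDiff ℝ 1 (fun s => γ (t + 1 * s)) :=
        ((hγ.affine t 1).smooth).of_le (by exact_mod_cast le_top)
      have h3 := hγ.acc t (fun s => γ (t + 1 * s)) hsm (fun s => hγ.mem _) (by simp)
      rw [deriv_affine hγ] at h3
      simpa using h3
    have h4 : ⟪deriv γ t, deriv (deriv γ) t⟫_ℝ = 0 := by rw [real_inner_comm]; exact h2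
    rw [h2, h4, add_zero] at h1
    exact h1
  have hc : ∀ x y : ℝ, ⟪deriv γ x, deriv γ x⟫_ℝ = ⟪deriv γ y, deriv γ y⟫_ℝ :=
    is_const_of_deriv_eq_zero (fun t => (hd t).differentiableAt) (fun t => (hd t).deriv)
  have h := hc s t
  rw [real_inner_self_eq_norm_sq, real_inner_self_eq_norm_sq] at h
  exact (sq_eq_sq₀ (norm_nonneg _) (norm_nonneg _)).1 h

end geo

/-! ### Lipschitz estimate -/

theorem contDiffAt_Acc {S U : Set E} {f : E → F} (h : IsLoc S U f) {p : E} (hp : p ∈ U) (v : E) :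
    ContDiffAt ℝ ∞ (fun x : E × E => Acc f x.1 x.2) (p, v) := by
  have hf1 : ContDiffAt ℝ ∞ (fderiv ℝ f) p := (h.contDiffAt hp).fderiv_right (by norm_num)
  have hf2 : ContDiffAt ℝ ∞ (fderiv ℝ (fderiv ℝ f)) p := hf1.fderiv_right (by norm_num)
  have h1 : ContDiffAt ℝ ∞ (fun x : E × E => fderiv ℝ f x.1) (p, v) :=
    ContDiffAt.comp (p, v) (g := fderiv ℝ f) hf1 contDiffAt_fst
  have h2 : ContDiffAt ℝ ∞ (fun x : E × E => fderiv ℝ (fderiv ℝ f) x.1) (p, v) :=
    ContDiffAt.comp (p, v) (g := fderiv ℝ (fderiv ℝ f)) hf2 contDiffAt_fst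
  have h3 : ContDiffAt ℝ ∞ (fun x : E × E => Rinv (fderiv ℝ f x.1)) (p, v) :=
    ContDiffAt.comp (p, v) (g := Rinv) (contDiffAt_Rinv (h.surj p hp)) h1
  have h4 : ContDiffAt ℝ ∞ (fun x : E × E => fderiv ℝ (fderiv ℝ f) x.1 x.2 x.2) (p, v) :=
    (h2.clm_apply contDiffAt_snd).clm_apply contDiffAt_snd
  exact (h3.clm_apply h4).neg

theorem Acc_smul (f : E → F) (q v : E) (s : ℝ) : Acc f q (s • v) = (s * s) • Acc f q v := by
  simp [Acc, smul_smul]

theorem hasStrictFDerivAt_Acc {S U : Set E} {f : E → F} (h : IsLoc S U f) {p : E} (hp : p ∈ U) :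
    HasStrictFDerivAt (fun x : E × E => Acc f x.1 x.2) (0 : E × E →L[ℝ] E) (p, 0) := by
  set G : E × E → E := fun x => Acc f x.1 x.2 with hG
  have hc : ContDiffAt ℝ ∞ G (p, 0) := contDiffAt_Acc h hp 0
  have hs := hc.hasStrictFDerivAt (by simp)
  have hz : fderiv ℝ G (p, 0) = 0 := by
    refine ContinuousLinearMap.ext fun x => ?_
    obtain ⟨y, v⟩ := x
    -- derivative along the line `s ↦ (p + s y, s v)`
    have hl : HasDerivAt (fun s : ℝ => ((p + s • y, s • v) : E × E)) (y, v) 0 := by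
      have h1 : HasDerivAt (fun s : ℝ => p + s • y) y 0 := by
        simpa using ((hasDerivAt_id (0 : ℝ)).smul_const y).const_add p
      have h2 : HasDerivAt (fun s : ℝ => s • v) v 0 := by
        simpa using ((hasDerivAt_id (0 : ℝ)).smul_const v)
      exact h1.prodMk h2
    have hd1 : HasDerivAt (fun s : ℝ => G (p + s • y, s • v)) (fderiv ℝ G (p, 0) (y, v)) 0 := by
      have h0 : HasFDerivAt G (fderiv ℝ G (p, 0)) ((fun s : ℝ => ((p + s • y, s • v) : E × E)) 0) := by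
        simpa using hs.hasFDerivAt
      exact h0.comp_hasDerivAt (0 : ℝ) hl
    have heq : (fun s : ℝ => G (p + s • y, s • v)) = fun s : ℝ => (s * s) • G (p + s • y, v) := by
      funext s
      exact Acc_smul f _ _ s
    have hd2 : HasDerivAt (fun s : ℝ => (s * s) • G (p + s • y, v)) 0 0 := by
      have hcont : DifferentiableAt ℝ (fun s : ℝ => G (p + s • y, v)) 0 := by
        have h1 : DifferentiableAt ℝ G ((fun s : ℝ => ((p + s • y, v) : E × E)) 0) := by
          have := (contDiffAt_Acc h hp v).differentiableAt (by simp)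
          simpa using this
        have h2 : DifferentiableAt ℝ (fun s : ℝ => ((p + s • y, v) : E × E)) 0 := by fun_prop
        exact DifferentiableAt.comp (g := G) (f := fun s : ℝ => ((p + s • y, v) : E × E))
          (0 : ℝ) h1 h2
      have h3 : HasDerivAt (fun s : ℝ => s * s) (1 * 0 + 0 * 1) 0 :=
        (hasDerivAt_id' (0 : ℝ)).mul (hasDerivAt_id' (0 : ℝ))
      have h4 : HasDerivAt (fun s : ℝ => (s * s) • G (p + s • y, v)) _ 0 :=
        h3.smul hcont.hasDerivAt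
      have h5 : ((0 : ℝ) * 0) • deriv (fun s : ℝ => G (p + s • y, v)) 0
          + (1 * (0 : ℝ) + 0 * 1) • G (p + (0 : ℝ) • y, v) = 0 := by simp
      rw [h5] at h4
      exact h4
    rw [heq] at hd1
    exact hd1.unique hd2
  rwa [hz] at hs

theorem exists_lip {S U : Set E} {f : E → F} (h : IsLoc S U f) {p : E} (hp : p ∈ U) :
    ∃ δ > 0, Metric.ball p δ ⊆ U ∧ ∀ q₁ ∈ Metric.ball p δ, ∀ q₂ ∈ Metric.ball p δ,
      ∀ v₁ v₂ : E, ‖v₁‖ < δ → ‖v₂‖ < δ →
        ‖Acc f q₁ v₁ - Acc f q₂ v₂‖ ≤ 1 / 2 * max ‖q₁ - q₂‖ ‖v₁ - v₂‖ := by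
  obtain ⟨s, hs, hlip⟩ := (hasStrictFDerivAt_Acc h hp).exists_lipschitzOnWith_of_nnnorm_lt
    (1 / 2 : NNReal) (by simp)
  obtain ⟨δ₁, hδ₁, hb₁⟩ := Metric.mem_nhds_iff.1 hs
  obtain ⟨δ₂, hδ₂, hb₂⟩ := Metric.mem_nhds_iff.1 (h.isOpen.mem_nhds hp)
  refine ⟨min δ₁ δ₂, lt_min hδ₁ hδ₂, (Metric.ball_subset_ball (min_le_right _ _)).trans hb₂, ?_⟩
  intro q₁ hq₁ q₂ hq₂ v₁ v₂ hv₁ hv₂
  have hmem : ∀ q v : E, q ∈ Metric.ball p (min δ₁ δ₂) → ‖v‖ < min δ₁ δ₂ → (q, v) ∈ s := by
    intro q v hq hv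
    apply hb₁
    rw [Metric.mem_ball, Prod.dist_eq, max_lt_iff]
    refine ⟨lt_of_lt_of_le hq (min_le_left _ _), ?_⟩
    simpa [dist_eq_norm] using lt_of_lt_of_le hv (min_le_left _ _)
  have := hlip.dist_le_mul _ (hmem q₁ v₁ hq₁ hv₁) _ (hmem q₂ v₂ hq₂ hv₂)
  rw [Prod.dist_eq, dist_eq_norm, dist_eq_norm, dist_eq_norm] at this
  simpa using this

end Pool.Agent.H91.GE
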