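import Mathlib

/-!
# Geodesics of submanifolds of a Euclidean space, given by local equations

`IsLoc S U f`: on the open set `U` the set `S` is the zero set of the submersion `f`.
`IsGeo S γ`: `γ : ℝ → S` is a geodesic (acceleration orthogonal to `S`).
Main results of this file: tangent vectors are velocities of curves in `S`; formula for the
acceleration of a geodesic; Lipschitz estimate for small velocities.
-/

set_option autoImplicit false

open scoped InnerProductSpace Topology ContDiff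
open Set Filter

namespace Pool.Agent.H91.GE

variable {E F : Type*} [NormedAddCommGroup E] [InnerProductSpace ℝ E] [FiniteDimensional ℝ E]
  [NormedAddCommGroup F] [InnerProductSpace ℝ F] [FiniteDimensional ℝ F]

/-- `S` is the zero set of the smooth submersion `f` on the open set `U`. -/
structure IsLoc (S U : Set E) (f : E → F) : Prop where
  isOpen : IsOpen U
  smooth : ContDiffOn ℝ ∞ f U
  surj : ∀ q ∈ U, Function.Surjective (fderiv ℝ f q)
  eq : S ∩ U = U ∩ f ⁻¹' {0}

/-- `S` is a smooth submanifold with local equations in `F`. -/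
def IsSub (F : Type*) [NormedAddCommGroup F] [InnerProductSpace ℝ F] (S : Set E) : Prop :=
  ∀ p ∈ S, ∃ U : Set E, p ∈ U ∧ ∃ f : E → F, IsLoc S U f

/-- Geodesics of `S` (not necessarily of unit speed; constant curves allowed). -/
structure IsGeo (S : Set E) (γ : ℝ → E) : Prop where
  smooth : ContDiff ℝ ∞ γ
  mem : ∀ t, γ t ∈ S
  acc : ∀ (t : ℝ) (c : ℝ → E), ContDiff ℝ 1 c → (∀ s, c s ∈ S) → c 0 = γ t →
    ⟪deriv (deriv γ) t, deriv c 0⟫_ℝ = 0

/-! ### The right inverse of a surjective map -/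

/-- The adjoint as a continuous linear map over `ℝ`. -/
noncomputable def adjL : (E →L[ℝ] F) →L[ℝ] (F →L[ℝ] E) :=
  LinearMap.toContinuousLinearMap
    { toFun := fun L => ContinuousLinearMap.adjoint L
      map_add' := fun L L' => by simp
      map_smul' := fun a L => by simp }

theorem adjL_apply (L : E →L[ℝ] F) : adjL L = ContinuousLinearMap.adjoint L := rfl

/-- Orthogonal right inverse. -/
noncomputable def Rinv (L : E →L[ℝ] F) : F →L[ℝ] E :=
  (adjL L) ∘L (ContinuousLinearMap.inverse (L ∘L adjL L))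

theorem isInvertible_of_surj {L : E →L[ℝ] F} (hL : Function.Surjective L) :
    (L ∘L adjL L).IsInvertible := by
  have hinj : Function.Injective (L ∘L adjL L : F →L[ℝ] F) := by
    refine (injective_iff_map_eq_zero _).2 fun y hy => ?_
    have h1 : ⟪adjL L y, adjL L y⟫_ℝ = 0 := by
      rw [adjL_apply, ContinuousLinearMap.adjoint_inner_right]
      have : L ((ContinuousLinearMap.adjoint L) y) = 0 := hy
      rw [this, inner_zero_left]
    have h2 : adjL L y = 0 := inner_self_eq_zero.1 h1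
    obtain ⟨x, hx⟩ := hL y
    have h3 : ⟪y, y⟫_ℝ = 0 := by
      calc ⟪y, y⟫_ℝ = ⟪y, L x⟫_ℝ := by rw [hx]
        _ = ⟪adjL L y, x⟫_ℝ := by rw [adjL_apply, ContinuousLinearMap.adjoint_inner_left]
        _ = 0 := by rw [h2, inner_zero_left]
    exact inner_self_eq_zero.1 h3
  let e : F ≃ₗ[ℝ] F := LinearEquiv.ofInjectiveEndo (L ∘L adjL L : F →L[ℝ] F).toLinearMap hinj
  exact ⟨e.toContinuousLinearEquiv, by ext x; rfl⟩

theorem comp_Rinv {L : E →L[ℝ] F} (hL : Function.Surjective L) (y : F) : L (Rinv L y) = y := by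
  have h := (isInvertible_of_surj hL)
  have h2 := h.self_comp_inverse
  exact congrArg (fun T : F →L[ℝ] F => T y) h2

theorem inner_Rinv {L : E →L[ℝ] F} (y : F) {w : E} (hw : L w = 0) : ⟪Rinv L y, w⟫_ℝ = 0 := by
  show ⟪adjL L _, w⟫_ℝ = 0
  rw [adjL_apply, ContinuousLinearMap.adjoint_inner_left, hw, inner_zero_right]

theorem contDiffAt_Rinv {n : WithTop ℕ∞} {L : E →L[ℝ] F} (hL : Function.Surjective L) :
    ContDiffAt ℝ n (Rinv : (E →L[ℝ] F) → (F →L[ℝ] E)) L := by
  have h1 : ContDiffAt ℝ n (fun L : E →L[ℝ] F => adjL L) L := (adjL (E := E) (F := F)).contDiff.contDiffAt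
  have h2 : ContDiffAt ℝ n (fun L : E →L[ℝ] F => L ∘L adjL L) L :=
    contDiffAt_id.clm_comp h1
  have h3 : ContDiffAt ℝ n (fun L : E →L[ℝ] F => ContinuousLinearMap.inverse (L ∘L adjL L)) L :=
    ContDiffAt.comp L (g := ContinuousLinearMap.inverse)
      ((isInvertible_of_surj hL).contDiffAt_map_inverse) h2
  exact h1.clm_comp h3

/-! ### Tangent vectors are velocities -/

omit [FiniteDimensional ℝ E] [FiniteDimensional ℝ F] in
theorem IsLoc.contDiffAt {S U : Set E} {f : E → F} (h : IsLoc S U f) {q : E} (hq : q ∈ U) :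
    ContDiffAt ℝ ∞ f q := h.smooth.contDiffAt (h.isOpen.mem_nhds hq)

omit [FiniteDimensional ℝ E] [FiniteDimensional ℝ F] in
theorem IsLoc.mem_iff {S U : Set E} {f : E → F} (h : IsLoc S U f) {q : E} (hq : q ∈ U) :
    q ∈ S ↔ f q = 0 := by
  constructor
  · intro hS
    have : q ∈ S ∩ U := ⟨hS, hq⟩
    rw [h.eq] at this
    exact this.2
  · intro hf
    have : q ∈ U ∩ f ⁻¹' {0} := ⟨hq, hf⟩
    rw [← h.eq] at this
    exact this.1

theorem exists_curve {S U : Set E} {f : E → F} (h : IsLoc S U f) {p : E} (hp : p ∈ U)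
    (hpS : p ∈ S) {w : E} (hw : fderiv ℝ f p w = 0) :
    ∃ c : ℝ → E, ContDiff ℝ 1 c ∧ (∀ s, c s ∈ S) ∧ c 0 = p ∧ deriv c 0 = w := by
  set L := fderiv ℝ f p with hLdef
  have hL : Function.Surjective L := h.surj p hp
  set R := Rinv L with hR
  let A : ℝ × F → E := fun x => p + x.1 • w + R x.2
  have hA : ContDiff ℝ ∞ A := by
    refine (contDiff_const.add (contDiff_fst.smul contDiff_const)).add ?_
    exact R.contDiff.comp contDiff_snd
  have hA0 : A (0, 0) = p := by simp [A]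
  let g : ℝ × F → F := fun x => f (A x)
  have hg : ContDiffAt ℝ 1 g (0, 0) := by
    have h1 : ContDiffAt ℝ 1 f (A (0, 0)) := by
      rw [hA0]; exact (h.contDiffAt hp).of_le (by exact_mod_cast le_top)
    exact h1.comp _ (hA.contDiffAt.of_le (by exact_mod_cast le_top))
  have hdA : HasFDerivAt A ((ContinuousLinearMap.fst ℝ ℝ F).smulRight w
      + R ∘L ContinuousLinearMap.snd ℝ ℝ F) (0, 0) := by
    have h1 : HasFDerivAt (fun x : ℝ × F => p + x.1 • w)
        ((ContinuousLinearMap.fst ℝ ℝ F).smulRight w) (0, 0) := by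
      have := ((ContinuousLinearMap.fst ℝ ℝ F).smulRight w).hasFDerivAt (x := ((0 : ℝ), (0 : F)))
      exact this.const_add p
    exact h1.add ((R ∘L ContinuousLinearMap.snd ℝ ℝ F).hasFDerivAt)
  have hdf : HasFDerivAt f L (A (0, 0)) := by
    rw [hA0]
    exact ((h.contDiffAt hp).differentiableAt (by simp)).hasFDerivAt
  have hdg : HasFDerivAt g (L ∘L ((ContinuousLinearMap.fst ℝ ℝ F).smulRight w
      + R ∘L ContinuousLinearMap.snd ℝ ℝ F)) (0, 0) := hdf.comp _ hdA
  have hfd : fderiv ℝ g (0, 0) = (L ∘L ((ContinuousLinearMap.fst ℝ ℝ F).smulRight w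
      + R ∘L ContinuousLinearMap.snd ℝ ℝ F)) := hdg.fderiv
  have hinr : fderiv ℝ g (0, 0) ∘L .inr ℝ ℝ F = ContinuousLinearMap.id ℝ F := by
    rw [hfd]
    ext y
    simp [comp_Rinv hL, hR]
  have hinl : fderiv ℝ g (0, 0) ∘L .inl ℝ ℝ F = 0 := by
    rw [hfd]
    ext
    simp [hw]
  have hinv : (fderiv ℝ g (0, 0) ∘L .inr ℝ ℝ F).IsInvertible := by
    rw [hinr]
    exact ⟨ContinuousLinearEquiv.refl ℝ F, rfl⟩
  let ψ : ℝ → F := hg.implicitFunction one_ne_zero hinv
  have hψ0 : ψ 0 = 0 := hg.implicitFunction_apply_self one_ne_zero hinv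
  have hψd : HasFDerivAt ψ (0 : ℝ →L[ℝ] F) 0 := by
    have := (hg.hasStrictFDerivAt_implicitFunction one_ne_zero hinv).hasFDerivAt
    rw [hinl] at this
    simpa using this
  have hψc : ContDiffAt ℝ 1 ψ 0 := hg.contDiffAt_implicitFunction one_ne_zero hinv
  have hev1 : ∀ᶠ s in 𝓝 (0 : ℝ), ContDiffAt ℝ 1 ψ s := hψc.eventually (by decide)
  have hev2 : ∀ᶠ s in 𝓝 (0 : ℝ), g (s, ψ s) = g (0, 0) :=
    hg.eventually_apply_implicitFunction one_ne_zero hinv
  have hev3 : ∀ᶠ s in 𝓝 (0 : ℝ), A (s, ψ s) ∈ U := by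
    have hc : ContinuousAt (fun s : ℝ => A (s, ψ s)) 0 := by
      have h1 : ContinuousAt (fun s : ℝ => (s, ψ s)) 0 := continuousAt_id.prodMk hψc.continuousAt
      exact hA.continuous.continuousAt.comp h1
    have : A (0, ψ 0) = p := by rw [hψ0]; exact hA0
    exact hc.preimage_mem_nhds (by simpa [this] using h.isOpen.mem_nhds hp)
  obtain ⟨ε, hε, hball⟩ := Metric.eventually_nhds_iff.1 (hev1.and (hev2.and hev3))
  -- reparametrise so that the curve is defined for all times
  let τ : ℝ → ℝ := fun s => (ε / 2) * Real.sin (s / (ε / 2))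
  have hτc : ContDiff ℝ 1 τ := by
    refine contDiff_const.mul ?_
    exact Real.contDiff_sin.comp (contDiff_id.div_const _)
  have hτ0 : τ 0 = 0 := by simp [τ]
  have hτd : HasDerivAt τ 1 0 := by
    have h1 : HasDerivAt (fun s : ℝ => s / (ε / 2)) (1 / (ε / 2)) 0 :=
      (hasDerivAt_id 0).div_const _
    have h2 : HasDerivAt (fun s : ℝ => Real.sin (s / (ε / 2)))
        (Real.cos ((0 : ℝ) / (ε / 2)) * (1 / (ε / 2))) 0 := h1.sin
    have h3 := h2.const_mul (ε / 2)
    have h4 : ε / 2 * (Real.cos ((0 : ℝ) / (ε / 2)) * (1 / (ε / 2))) = 1 := by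
      rw [zero_div, Real.cos_zero]; field_simp
    rw [h4] at h3
    exact h3
  have hτb : ∀ s, dist (τ s) 0 < ε := by
    intro s
    rw [Real.dist_eq, sub_zero]
    have h1 : |τ s| ≤ ε / 2 := by
      show |(ε / 2) * Real.sin (s / (ε / 2))| ≤ ε / 2
      rw [abs_mul, abs_of_pos (by positivity)]
      have := Real.abs_sin_le_one (s / (ε / 2))
      nlinarith [abs_nonneg (Real.sin (s / (ε / 2)))]
    linarith
  refine ⟨fun s => A (τ s, ψ (τ s)), ?_, ?_, ?_, ?_⟩
  · rw [contDiff_iff_contDiffAt]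
    intro s
    have h1 : ContDiffAt ℝ 1 (fun s => ψ (τ s)) s :=
      ContDiffAt.comp s (g := ψ) (hball (hτb s)).1 hτc.contDiffAt
    exact ContDiffAt.comp s (g := A) (hA.contDiffAt.of_le (by exact_mod_cast le_top))
      (hτc.contDiffAt.prodMk h1)
  · intro s
    have h1 := (hball (hτb s)).2
    have hz : f p = 0 := (h.mem_iff hp).1 hpS
    refine (h.mem_iff h1.2).2 ?_
    have : g (τ s, ψ (τ s)) = g (0, 0) := h1.1
    show g (τ s, ψ (τ s)) = 0
    rw [this]
    show f (A (0, 0)) = 0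
    rw [hA0, hz]
  · show A (τ 0, ψ (τ 0)) = p
    rw [hτ0, hψ0, hA0]
  · have hψτ : HasDerivAt (fun s => ψ (τ s)) 0 0 := by
      have h1 : HasFDerivAt ψ (0 : ℝ →L[ℝ] F) (τ 0) := by rw [hτ0]; exact hψd
      have h2 : HasDerivAt (fun s => ψ (τ s)) ((0 : ℝ →L[ℝ] F) 1) 0 :=
        h1.comp_hasDerivAt (0 : ℝ) hτd
      simpa using h2
    have h3 : HasDerivAt (fun s => p + (τ s) • w + R (ψ (τ s))) (((1 : ℝ) • w) + R 0) 0 := by
      refine ((hτd.smul_const w).const_add p).add ?_
      exact R.hasFDerivAt.comp_hasDerivAt (0 : ℝ) hψτ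
    have h4 : deriv (fun s => A (τ s, ψ (τ s))) 0 = ((1 : ℝ) • w) + R 0 := h3.deriv
    rw [h4]; simp

end Pool.Agent.H91.GE
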