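import Pool.Agent.H91.GE.Jac

/-!
# Jacobi fields with a multiplier are eigenvectors of the derivative of the return map
-/

set_option autoImplicit false

open scoped InnerProductSpace Topology ContDiff
open Set Filter

namespace Pool.Agent.H91.GE

variable {E F : Type*} [NormedAddCommGroup E] [InnerProductSpace ℝ E] [FiniteDimensional ℝ E]
  [NormedAddCommGroup F] [InnerProductSpace ℝ F] [FiniteDimensional ℝ F]
  {S : Set E} {A : E × E → E} {K K₂ : NNReal} {Φ : ℝ → E × E → E × E}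
  {ν : E} {ψ : ℝ × ℝ → E} {I : ℝ × ℝ → E × E} {r : ℝ} {c : ℝ → E}

/-- In a surface, a vector tangent at `p` with vanishing coordinates is zero. -/
theorem tangent_zero (hdim : Module.finrank ℝ E = Module.finrank ℝ F + 2) {L : E →L[ℝ] F}
    (hL : Function.Surjective L) {e ν : E} (he : L e = 0) (hν : L ν = 0) (he1 : ‖e‖ = 1)
    (hν1 : ‖ν‖ = 1) (heν : ⟪e, ν⟫_ℝ = 0) {v : E} (h1 : L v = 0) (h2 : ⟪e, v⟫_ℝ = 0)
    (h3 : ⟪ν, v⟫_ℝ = 0) : v = 0 := by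
  obtain ⟨T, hT⟩ := chart_bij hdim hL he hν he1 hν1 heν
  have h4 : T v = 0 := by rw [hT, h1, h2, h3]; rfl
  exact (T.map_eq_zero_iff).1 h4

theorem IsJac.eig (hdim : Module.finrank ℝ E = Module.finrank ℝ F + 2)
    (h : GFlow F S A K K₂ Φ) {t₀ L m : ℝ} (hs : Sec S (c t₀) (deriv c t₀) ν ψ I r)
    (hc : IsGeo S c) (hc1 : ‖deriv c 0‖ = 1) (hper : c (t₀ + L) = c t₀)
    (hper' : deriv c (t₀ + L) = deriv c t₀) (hν : (c t₀, ν) ∈ TSet S)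
    (hν1 : ‖ν‖ = 1) (heν : ⟪deriv c t₀, ν⟫_ℝ = 0) {J : ℝ → E} (hJ : IsJac S c J)
    (hJn : ⟪J t₀, deriv c t₀⟫_ℝ = 0) (hJL : J (t₀ + L) = m • J t₀)
    (hJL' : deriv J (t₀ + L) = m • deriv J t₀) :
    J t₀ = ⟪ν, J t₀⟫_ℝ • ν ∧
    ((⟪ν, (fderiv ℝ (Φ L) (c t₀, deriv c t₀)
        (fderiv ℝ I 0 (⟪ν, J t₀⟫_ℝ, ⟪ν, deriv J t₀⟫_ℝ))).1⟫_ℝ,
      ⟪ν, (fderiv ℝ (Φ L) (c t₀, deriv c t₀)
        (fderiv ℝ I 0 (⟪ν, J t₀⟫_ℝ, ⟪ν, deriv J t₀⟫_ℝ))).2⟫_ℝ) : ℝ × ℝ)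
      = m • (⟪ν, J t₀⟫_ℝ, ⟪ν, deriv J t₀⟫_ℝ) := by
  obtain ⟨U, hpU, f, hf⟩ := h.sub (c t₀) (hc.mem t₀)
  set e := deriv c t₀ with he
  set p := c t₀ with hp
  have he1 : ‖e‖ = 1 := by rw [he, hc.speed t₀ 0, hc1]
  have hee : ⟪e, e⟫_ℝ = 1 := by rw [real_inner_self_eq_norm_sq, he1]; norm_num
  have hνe : ⟪ν, e⟫_ℝ = 0 := by rw [real_inner_comm]; exact heν
  have hνν : ⟪ν, ν⟫_ℝ = 1 := by rw [real_inner_self_eq_norm_sq, hν1]; norm_num
  have hLe : fderiv ℝ f p e = 0 := ((mem_TSet_iff hf hpU).1 (hc.mem_TSet t₀)).2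
  have hLν : fderiv ℝ f p ν = 0 := ((mem_TSet_iff hf hpU).1 hν).2
  have hzero : ∀ v, fderiv ℝ f p v = 0 → ⟪e, v⟫_ℝ = 0 → ⟪ν, v⟫_ℝ = 0 → v = 0 := fun v =>
    tangent_zero hdim (hf.surj p hpU) hLe hLν he1 hν1 heν
  -- conditions for the Jacobi field
  have hJ' := hJ
  obtain ⟨Γ, hΓ, h0, hd⟩ := hJ'
  have hJc := tangent_cond hf hpU (z := fun ε => (Γ ε t₀, deriv (Γ ε) t₀)) (a := J t₀)
    (b := deriv J t₀) ((hd t₀).1.prodMk (hd t₀).2) (by simp only [h0]; rfl)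
    (Eventually.of_forall fun ε => (hΓ ε).mem_TSet t₀)
  set ξ : ℝ × ℝ := (⟪ν, J t₀⟫_ℝ, ⟪ν, deriv J t₀⟫_ℝ) with hξ
  obtain ⟨b1, b2, b3, b4, b5⟩ := hs.deriv_I he1 ξ
  rw [hνe, zero_mul, add_zero] at b5
  have hIc := tangent_cond hf hpU (z := fun ε : ℝ => I (ε • ξ)) (a := (fderiv ℝ I 0 ξ).1)
    (b := (fderiv ℝ I 0 ξ).2) b1 (by rw [zero_smul]; exact hs.I_zero) b2
  -- first components agree
  have hd1 : J t₀ - (fderiv ℝ I 0 ξ).1 = 0 := by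
    refine hzero _ ?_ ?_ ?_
    · rw [map_sub, hJc.1, hIc.1, sub_zero]
    · rw [inner_sub_right, b3, real_inner_comm, hJn, sub_zero]
    · rw [inner_sub_right, b4]; simp [hξ]
  have hd1' : (fderiv ℝ I 0 ξ).1 = J t₀ := (sub_eq_zero.1 hd1).symm
  have hd2 : fderiv ℝ f p (deriv J t₀ - (fderiv ℝ I 0 ξ).2) = 0 := by
    have h1 := hJc.2
    have h2 := hIc.2
    rw [hd1'] at h2
    rw [map_sub]
    have h3 := h1.trans h2.symm
    rw [add_right_inj] at h3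
    rw [h3, sub_self]
  set κ : ℝ := ⟪e, deriv J t₀ - (fderiv ℝ I 0 ξ).2⟫_ℝ with hκ
  have hd3 : deriv J t₀ - (fderiv ℝ I 0 ξ).2 - κ • e = 0 := by
    refine hzero _ ?_ ?_ ?_
    · rw [map_sub, map_smul, hd2, hLe, smul_zero, sub_zero]
    · rw [inner_sub_right, inner_smul_right, hee, mul_one, ← hκ, sub_self]
    · rw [inner_sub_right, inner_smul_right, hνe, mul_zero, sub_zero, inner_sub_right, b5]
      simp [hξ]
  have hI : fderiv ℝ I 0 ξ = (J t₀, deriv J t₀) - κ • ((0 : E), e) := by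
    refine Prod.ext ?_ ?_
    · show (fderiv ℝ I 0 ξ).1 = J t₀ - κ • (0 : E)
      rw [hd1', smul_zero, sub_zero]
    · show (fderiv ℝ I 0 ξ).2 = deriv J t₀ - κ • e
      have h1 : deriv J t₀ - (fderiv ℝ I 0 ξ).2 = κ • e := sub_eq_zero.1 hd3
      rw [← h1]; abel
  have htr := hJ.transport h hc hc1 t₀ L
  rw [add_comm L t₀, hJL, hJL'] at htr
  have htan := tangential h hc hc1 hper hper' hν heν
  constructor
  · have h1 : J t₀ - ⟪ν, J t₀⟫_ℝ • ν = 0 := by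
      refine hzero _ ?_ ?_ ?_
      · rw [map_sub, map_smul, hJc.1, hLν, smul_zero, sub_zero]
      · rw [inner_sub_right, inner_smul_right, heν, mul_zero, sub_zero, real_inner_comm]
        exact hJn
      · rw [inner_sub_right, inner_smul_right, hνν, mul_one, sub_self]
    exact sub_eq_zero.1 h1
  · rw [hI, map_sub, map_smul, htr]
    refine Prod.ext ?_ ?_
    · show ⟪ν, m • J t₀ - κ • (fderiv ℝ (Φ L) (p, e) (0, e)).1⟫_ℝ = m * ⟪ν, J t₀⟫_ℝ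
      rw [inner_sub_right, inner_smul_right, inner_smul_right, htan.1, mul_zero, sub_zero]
    · show ⟪ν, m • deriv J t₀ - κ • (fderiv ℝ (Φ L) (p, e) (0, e)).2⟫_ℝ = m * ⟪ν, deriv J t₀⟫_ℝ
      rw [inner_sub_right, inner_smul_right, inner_smul_right, htan.2, mul_zero, sub_zero]

/-- Jacobi fields are continuous. -/
theorem IsJac.continuous (h : GFlow F S A K K₂ Φ) {J : ℝ → E} (hJ : IsJac S c J)
    (hc : IsGeo S c) (hc1 : ‖deriv c 0‖ = 1) (t₁ : ℝ) : ContinuousAt J t₁ := by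
  obtain ⟨Γ, hΓ, h0, hd⟩ := hJ
  -- bound for the initial deviation
  have hz : HasDerivAt (fun ε => (Γ ε 0, deriv (Γ ε) 0)) (J 0, deriv J 0) 0 :=
    (hd 0).1.prodMk (hd 0).2
  have hO := hz.isBigO_sub
  obtain ⟨C, hCpos, hC⟩ := hO.exists_pos
  rw [Asymptotics.isBigOWith_iff] at hC
  have hev : ∀ᶠ ε in 𝓝 (0 : ℝ), ‖deriv (Γ ε) 0‖ < 2 := by
    have h2 := (hd 0).2.continuousAt.norm.tendsto
    refine h2.eventually_lt_const ?_
    rw [h0, hc1]; norm_num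
  set T : ℝ := |t₁| + 1 with hT
  set D : ℝ := C * Real.exp (K * T) with hD
  have hD0 : 0 ≤ D := by positivity
  -- velocity deviation
  have hvel : ∀ᶠ ε in 𝓝 (0 : ℝ), ∀ t, |t| ≤ T → ‖deriv (Γ ε) t - deriv c t‖ ≤ D * |ε| := by
    filter_upwards [hC, hev] with ε h1 h2 t ht
    have h3 := h.flow.dist_le h.vf t (Γ ε 0, deriv (Γ ε) 0) (c 0, deriv c 0)
    rw [← h.of_geo (hΓ ε) h2.le t, ← h.of_geo hc (by rw [hc1]; norm_num) t] at h3
    rw [dist_eq_norm, dist_eq_norm] at h3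
    have h4 : ‖deriv (Γ ε) t - deriv c t‖ ≤ ‖(Γ ε t, deriv (Γ ε) t) - (c t, deriv c t)‖ :=
      norm_snd_le ((Γ ε t, deriv (Γ ε) t) - (c t, deriv c t))
    simp only [h0, sub_zero] at h1
    have h5 : Real.exp (K * |t|) ≤ Real.exp (K * T) :=
      Real.exp_le_exp.2 (mul_le_mul_of_nonneg_left ht K.2)
    calc ‖deriv (Γ ε) t - deriv c t‖ ≤ _ := h4
      _ ≤ ‖(Γ ε 0, deriv (Γ ε) 0) - (c 0, deriv c 0)‖ * Real.exp (K * |t|) := h3
      _ ≤ (C * ‖ε‖) * Real.exp (K * T) := mul_le_mul h1 h5 (Real.exp_pos _).le (by positivity)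
      _ = D * |ε| := by rw [hD, Real.norm_eq_abs]; ring
  -- Lipschitz bound for `J`
  have hlip : ∀ t, |t| ≤ T → ‖J t - J t₁‖ ≤ D * |t - t₁| := by
    intro t ht
    have ht₁ : |t₁| ≤ T := by rw [hT]; linarith
    have h1 : ∀ᶠ ε in 𝓝 (0 : ℝ), ‖(Γ ε t - c t) - (Γ ε t₁ - c t₁)‖ ≤ D * |ε| * |t - t₁| := by
      filter_upwards [hvel] with ε hε
      have hder : ∀ x ∈ Icc (-T) T, HasDerivWithinAt (fun t => Γ ε t - c t)
          (deriv (Γ ε) x - deriv c x) (Icc (-T) T) x := fun x _ =>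
        (((hΓ ε).hasDerivAt x).sub (hc.hasDerivAt x)).hasDerivWithinAt
      have := (convex_Icc (-T) T).norm_image_sub_le_of_norm_hasDerivWithin_le hder
        (fun x hx => hε x (abs_le.2 ⟨hx.1, hx.2⟩)) (abs_le.1 ht₁) (abs_le.1 ht)
      rw [Real.norm_eq_abs] at this
      exact this
    have h2 : HasDerivAt (fun ε => (Γ ε t - c t) - (Γ ε t₁ - c t₁)) (J t - J t₁) 0 :=
      (((hd t).1.sub_const (c t))).sub ((hd t₁).1.sub_const (c t₁))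
    have h3 := h2.tendsto_slope
    have h4 : Tendsto (fun ε => ‖slope (fun ε => (Γ ε t - c t) - (Γ ε t₁ - c t₁)) 0 ε‖)
        (𝓝[≠] 0) (𝓝 ‖J t - J t₁‖) := h3.norm
    refine le_of_tendsto h4 ?_
    have h5 : ∀ᶠ ε in 𝓝[≠] (0 : ℝ), ‖(Γ ε t - c t) - (Γ ε t₁ - c t₁)‖ ≤ D * |ε| * |t - t₁| :=
      nhdsWithin_le_nhds h1
    filter_upwards [h5, self_mem_nhdsWithin] with ε hε hne
    rw [slope_def_module, h0]
    simp only [sub_self, sub_zero]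
    rw [norm_smul, norm_inv, Real.norm_eq_abs]
    have hpos : 0 < |ε| := abs_pos.2 hne
    rw [inv_mul_le_iff₀ hpos]
    calc _ ≤ D * |ε| * |t - t₁| := hε
      _ = |ε| * (D * |t - t₁|) := by ring
  rw [ContinuousAt, tendsto_iff_norm_sub_tendsto_zero]
  have h6 : Tendsto (fun t => D * |t - t₁|) (𝓝 t₁) (𝓝 0) := by
    have : Continuous fun t : ℝ => D * |t - t₁| := by fun_prop
    have h7 := this.tendsto t₁
    simpa using h7
  refine squeeze_zero' (Eventually.of_forall fun _ => norm_nonneg _) ?_ h6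
  filter_upwards [Metric.ball_mem_nhds t₁ one_pos] with t ht
  refine hlip t ?_
  rw [Metric.mem_ball, Real.dist_eq] at ht
  have := abs_sub_abs_le_abs_sub t t₁
  rw [hT]; linarith

/-- A Jacobi field which vanishes at one time together with its derivative is zero. -/
theorem IsJac.eq_zero (h : GFlow F S A K K₂ Φ) {J : ℝ → E} (hJ : IsJac S c J)
    (hc : IsGeo S c) (hc1 : ‖deriv c 0‖ = 1) {t₁ : ℝ} (h1 : J t₁ = 0) (h2 : deriv J t₁ = 0)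
    (t : ℝ) : J t = 0 := by
  have h3 := hJ.transport h hc hc1 t₁ (t - t₁)
  rw [h1, h2, sub_add_cancel] at h3
  have h4 : ((0 : E), (0 : E)) = 0 := rfl
  rw [h4, map_zero] at h3
  exact (congrArg Prod.fst h3).symm

/-- Two nonzero Jacobi fields are simultaneously nonzero at some time. -/
theorem exists_common (h : GFlow F S A K K₂ Φ) {J₁ J₂ : ℝ → E} (hJ₁ : IsJac S c J₁)
    (hJ₂ : IsJac S c J₂) (hc : IsGeo S c) (hc1 : ‖deriv c 0‖ = 1) (h1 : ∃ t, J₁ t ≠ 0)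
    (h2 : ∃ t, J₂ t ≠ 0) : ∃ t, J₁ t ≠ 0 ∧ J₂ t ≠ 0 := by
  obtain ⟨t₁, ht₁⟩ := h1
  by_contra hcon
  push Not at hcon
  have hev : ∀ᶠ t in 𝓝 t₁, J₁ t ≠ 0 := (hJ₁.continuous h hc hc1 t₁).eventually_ne ht₁
  have hev2 : J₂ =ᶠ[𝓝 t₁] fun _ => 0 := hev.mono fun t ht => hcon t ht
  have h3 : J₂ t₁ = 0 := hev2.self_of_nhds
  have h4 : deriv J₂ t₁ = 0 := by rw [hev2.deriv_eq]; simp
  obtain ⟨t, ht⟩ := h2
  exact ht (hJ₂.eq_zero h hc hc1 h3 h4 t)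

end Pool.Agent.H91.GE
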