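import Pool.Agent.H91.GE.Null

/-!
# The blocking argument near a hyperbolic closed geodesic
-/

set_option autoImplicit false

open scoped InnerProductSpace Topology ContDiff
open Set Filter MeasureTheory

namespace Pool.Agent.H91.GE

variable {E F : Type*} [NormedAddCommGroup E] [InnerProductSpace ℝ E] [FiniteDimensional ℝ E]
  [NormedAddCommGroup F] [InnerProductSpace ℝ F] [FiniteDimensional ℝ F]
  {S : Set E} {A : E × E → E} {K K₂ : NNReal} {Φ : ℝ → E × E → E × E}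
  {p e ν : E} {ψ : ℝ × ℝ → E} {I : ℝ × ℝ → E × E} {r : ℝ}

/-- The output of `tube` for one `n`. -/
structure TubeOrbit (Φ : ℝ → E × E → E × E) (I : ℝ × ℝ → E × E) (PP : ℝ × ℝ → ℝ × ℝ)
    (L C a₀ σ u b : ℝ) (y : E) (n : ℕ) (w : ℕ → ℝ × ℝ) (T : ℕ → ℝ) (s : ℝ) : Prop where
  w0 : (w 0).1 = u
  T0 : T 0 = 0
  step : ∀ k < n, T k + L / 2 ≤ T (k + 1) ∧ T (k + 1) ≤ T k + 2 * L
  orbit : ∀ k ≤ n, Φ (T k) (I (w 0)) = I (w k)
  norm : ∀ k ≤ n, ‖w k‖ ≤ C * a₀ * max (σ ^ k) (σ ^ (n - k))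
  hs : |s| ≤ L / 4
  wn : |(w n).1 - b| ≤ a₀ / 8
  next : ∀ k < n, w (k + 1) = PP (w k)
  hit : (Φ (T n + s) (I (w 0))).1 = y

section

variable {PP : ℝ × ℝ → ℝ × ℝ} {L C a₀ σ u b s : ℝ} {y : E} {n : ℕ} {w : ℕ → ℝ × ℝ} {T : ℕ → ℝ}

omit [FiniteDimensional ℝ E] in
theorem TubeOrbit.T_lower (h : TubeOrbit Φ I PP L C a₀ σ u b y n w T s) :
    ∀ k ≤ n, k * (L / 2) ≤ T k ∧ T k ≤ k * (2 * L) := by
  intro k
  induction k with
  | zero => intro _; rw [h.T0]; simp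
  | succ k ih =>
    intro hk
    obtain ⟨h1, h2⟩ := ih (by omega)
    obtain ⟨h3, h4⟩ := h.step k (by omega)
    push_cast
    constructor <;> linarith

omit [FiniteDimensional ℝ E] in
/-- Upper bound for the time left. -/
theorem TubeOrbit.T_left (h : TubeOrbit Φ I PP L C a₀ σ u b y n w T s) :
    ∀ j k, k + j ≤ n → T (k + j) ≤ T k + j * (2 * L) := by
  intro j
  induction j with
  | zero => intro k _; simp
  | succ j ih =>
    intro k hk
    have h1 := ih k (by omega)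
    have h2 := (h.step (k + j) (by omega)).2
    push_cast
    have h3 : k + (j + 1) = k + j + 1 := by ring
    rw [h3]; linarith

omit [FiniteDimensional ℝ E] in
/-- The index of a time. -/
theorem TubeOrbit.exists_index (h : TubeOrbit Φ I PP L C a₀ σ u b y n w T s) {t : ℝ}
    (ht0 : 0 ≤ t) (ht : t < T n) : ∃ k < n, T k ≤ t ∧ t < T (k + 1) := by
  classical
  have hex : ∃ k, t < T k := ⟨n, ht⟩
  set k := Nat.find hex with hk
  have hkn : k ≤ n := Nat.find_min' hex ht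
  have hk0 : k ≠ 0 := by
    intro h0
    have h1 := Nat.find_spec hex
    rw [← hk, h0, h.T0] at h1
    linarith
  refine ⟨k - 1, by omega, ?_, ?_⟩
  · have := Nat.find_min hex (m := k - 1) (by omega)
    exact not_lt.1 this
  · have h1 := Nat.find_spec hex
    have h2 : k - 1 + 1 = k := by omega
    rw [h2]; exact h1

end

theorem endgame (h : GFlow F S A K K₂ Φ) (hs : Sec S p e ν ψ I r) (hsec : Secure S)
    {PP : ℝ × ℝ → ℝ × ℝ} {L C a₀ σ u a b R : ℝ} {x : E} (hL : 0 < L) (hC : 0 < C) (ha₀ : 0 < a₀)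
    (hσ0 : 0 < σ) (hσ1 : σ < 1) (hfb : Fib I r x u R) (hCR : C * a₀ ≤ R)
    (hb : a₀ / 4 < b) (hab : (a, b) ∈ Metric.ball (0 : ℝ × ℝ) r) {N : Set (ℝ × ℝ)}
    (hN : (a, b) ∉ N)
    (hbad : ∀ y φ, |φ| ≤ R → ∀ t, 0 ≤ t → gam Φ I (u, φ) t = y →
      ((∃ s, 0 < |s| ∧ gam Φ I (u, φ) s = x) ∨
        ∃ φ', |φ'| ≤ R ∧ φ' ≠ φ ∧ ∃ s s' t', 0 ≤ s ∧ 0 ≤ s' ∧ 0 ≤ t' ∧
          gam Φ I (u, φ) s = gam Φ I (u, φ') s' ∧ gam Φ I (u, φ) s ∈ gam Φ I 0 '' Icc 0 (2 * L) ∧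
          gam Φ I (u, φ) s ≠ x ∧ gam Φ I (u, φ) t = gam Φ I (u, φ') t') →
      (⟪e, y - p⟫_ℝ, ⟪ν, y - p⟫_ℝ) ∈ N)
    {n₀ : ℕ} (htube : ∀ n ≥ n₀, ∃ w T s, TubeOrbit Φ I PP L C a₀ σ u b (ψ (a, b)) n w T s) :
    False := by
  classical
  set y := ψ (a, b) with hy
  obtain ⟨hyS, hy1, hy2⟩ := hs.psi_mem _ hab
  have hycoord : (⟪e, y - p⟫_ℝ, ⟪ν, y - p⟫_ℝ) = (a, b) := Prod.ext hy1 hy2
  have hxS : x ∈ S := by
    have h0 : |(0 : ℝ)| ≤ R := by rw [abs_zero]; exact hfb.hR0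
    rw [← hfb.base 0 h0]
    exact fst_mem_TSet (hs.I_mem _ (hfb.mem h0)).1
  obtain ⟨B, hBS, hxB, hyB, hB⟩ := hsec x hxS y hyS
  set n₁ := n₀ + 1 with hn₁
  have htube' : ∀ n, n₁ ≤ n → ∃ w T s, TubeOrbit Φ I PP L C a₀ σ u b y n w T s := fun n hn =>
    htube n (by omega)
  choose! w T s hO using htube'
  -- basic data
  let φ : ℕ → ℝ := fun n => (w n 0).2
  let Θ : ℕ → ℝ := fun n => T n n + s n
  have hwφ : ∀ n, n₁ ≤ n → w n 0 = (u, φ n) := fun n hn => Prod.ext (hO n hn).w0 rfl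
  have hwC : ∀ n, n₁ ≤ n → ∀ k ≤ n, ‖w n k‖ ≤ C * a₀ := by
    intro n hn k hk
    refine ((hO n hn).norm k hk).trans ?_
    have h1 : max (σ ^ k) (σ ^ (n - k)) ≤ 1 :=
      max_le (pow_le_one₀ hσ0.le hσ1.le) (pow_le_one₀ hσ0.le hσ1.le)
    have h2 : 0 ≤ C * a₀ := by positivity
    nlinarith
  have hφR : ∀ n, n₁ ≤ n → |φ n| ≤ R := by
    intro n hn
    have h1 := hwC n hn 0 (Nat.zero_le _)
    have h2 : ‖(w n 0).2‖ ≤ ‖w n 0‖ := norm_snd_le (w n 0)
    rw [Real.norm_eq_abs] at h2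
    exact (h2.trans h1).trans hCR
  have hΘ : ∀ n, n₁ ≤ n → n * (L / 2) - L / 4 ≤ Θ n := by
    intro n hn
    have h1 := ((hO n hn).T_lower n le_rfl).1
    have h2 := abs_le.1 (hO n hn).hs
    show _ ≤ T n n + s n
    linarith
  have hΘ0 : ∀ n, n₁ ≤ n → 0 < Θ n := by
    intro n hn
    have h1 := hΘ n hn
    have h2 : (1 : ℝ) ≤ n := by
      have : 1 ≤ n := by omega
      exact_mod_cast this
    nlinarith
  have hhit : ∀ n, n₁ ≤ n → gam Φ I (u, φ n) (Θ n) = y := fun n hn => by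
    rw [← hwφ n hn]; exact (hO n hn).hit
  have hgeo : ∀ n, n₁ ≤ n → IsGeo S (gam Φ I (u, φ n)) ∧ ‖deriv (gam Φ I (u, φ n)) 0‖ = 1 ∧
      gam Φ I (u, φ n) 0 = x := by
    intro n hn
    have hm := hfb.mem (hφR n hn)
    refine ⟨(isGeo_gam h hs hm).1, ?_, ?_⟩
    · rw [deriv_gam_zero h hs hm]; exact (hs.I_mem _ hm).2.1
    · rw [gam_zero h]; exact hfb.base _ (hφR n hn)
  -- blocking
  have hblock : ∀ n, n₁ ≤ n → ∃ z ∈ B, ∃ t, 0 < t ∧ t < Θ n ∧ gam Φ I (u, φ n) t = z := by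
    intro n hn
    obtain ⟨g1, g2, g3⟩ := hgeo n hn
    obtain ⟨q, hq, hqB⟩ := hB (fun q => gam Φ I (u, φ n) (0 + Θ n * q)) (g1.affine 0 (Θ n))
      (by simpa using g3) (by simpa using hhit n hn) (by
        rw [deriv_affine g1]
        simp only [mul_zero, add_zero]
        refine smul_ne_zero (hΘ0 n hn).ne' ?_
        intro h0; rw [h0, norm_zero] at g2; exact zero_ne_one g2)
    refine ⟨_, hqB, Θ n * q, mul_pos (hΘ0 n hn) hq.1, ?_, by rw [zero_add]⟩
    have := hΘ0 n hn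
    nlinarith [hq.2]
  choose! z hzB t ht0 htΘ htz using hblock
  obtain ⟨z₀, hz₀B, hinf⟩ := exists_infinite_fib (A := {n : ℕ | n₁ ≤ n}) (Set.Ici_infinite n₁)
    B.finite_toSet z (fun n hn => hzB n hn)
  have hz₀S : z₀ ∈ S := hBS hz₀B
  have hz₀x : z₀ ≠ x := fun h0 => hxB (h0 ▸ hz₀B)
  set M : Set ℕ := {n ∈ {n : ℕ | n₁ ≤ n} | z n = z₀} with hM
  have hMn : ∀ n ∈ M, n₁ ≤ n := fun n hn => hn.1
  have hMz : ∀ n ∈ M, gam Φ I (u, φ n) (t n) = z₀ := fun n hn => by rw [htz n hn.1, hn.2]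
  -- no loops
  have hnoloop : ∀ n ∈ M, ∀ q, 0 < |q| → gam Φ I (u, φ n) q ≠ x := by
    intro n hn q hq hqx
    refine hN ?_
    rw [← hycoord]
    exact hbad y (φ n) (hφR n hn.1) (Θ n) (hΘ0 n hn.1).le (hhit n hn.1) (Or.inl ⟨q, hq, hqx⟩)
  -- far apart indices give different directions
  obtain ⟨m₀, hm₀⟩ : ∃ m₀ : ℕ, C * σ ^ m₀ < 1 / 8 := by
    have h1 : Tendsto (fun n : ℕ => C * σ ^ n) atTop (𝓝 0) := by
      have := (tendsto_pow_atTop_nhds_zero_of_lt_one hσ0.le hσ1).const_mul C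
      rwa [mul_zero] at this
    exact (h1.eventually_lt_const (by norm_num : (0 : ℝ) < 1 / 8)).exists
  have hdist : ∀ i j, n₁ ≤ i → n₁ ≤ j → m₀ ≤ i → i + m₀ ≤ j → φ i ≠ φ j := by
    intro i j hi hj hi0 hij he
    have h0 : w i 0 = w j 0 := by rw [hwφ i hi, hwφ j hj, he]
    have hk : ∀ k ≤ i, w i k = w j k := by
      intro k
      induction k with
      | zero => intro _; exact h0
      | succ k ih =>
        intro hk
        rw [(hO i hi).next k (by omega), (hO j hj).next k (by omega), ih (by omega)]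
    have h1 := (hO j hj).norm i (by omega)
    rw [← hk i le_rfl] at h1
    have h2 : max (σ ^ i) (σ ^ (j - i)) ≤ σ ^ m₀ :=
      max_le (pow_le_pow_of_le_one hσ0.le hσ1.le hi0)
        (pow_le_pow_of_le_one hσ0.le hσ1.le (by omega))
    have h3 : ‖w i i‖ < a₀ / 8 := by
      calc ‖w i i‖ ≤ C * a₀ * max (σ ^ i) (σ ^ (j - i)) := h1
        _ ≤ C * a₀ * σ ^ m₀ := mul_le_mul_of_nonneg_left h2 (by positivity)
        _ = a₀ * (C * σ ^ m₀) := by ring
        _ < a₀ * (1 / 8) := mul_lt_mul_of_pos_left hm₀ ha₀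
        _ = a₀ / 8 := by ring
    have h4 : |(w i i).1| ≤ ‖w i i‖ := by
      have := norm_fst_le (w i i)
      rwa [Real.norm_eq_abs] at this
    have h5 := abs_le.1 (hO i hi).wn
    have h6 := le_abs_self (w i i).1
    linarith
  have hpick : ∀ M' ⊆ M, M'.Infinite → ∀ X : ℕ, ∃ i ∈ M', ∃ j ∈ M', X ≤ i ∧ i + X ≤ j := by
    intro M' _ hinf' X
    obtain ⟨i, hi, hiX⟩ := Set.Infinite.exists_gt hinf' X
    obtain ⟨j, hj, hjX⟩ := Set.Infinite.exists_gt hinf' (i + X)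
    exact ⟨i, hi, j, hj, hiX.le, hjX.le⟩
  -- the blocking times are far from the start
  have hstart : ∀ X : ℝ, {n ∈ M | t n ≤ X}.Finite := by
    intro X
    by_contra hcon
    have hfin := loop_dirs h hs hsec hxS hz₀S hfb X
    obtain ⟨φ₀, -, hinf'⟩ := exists_infinite_fib (A := {n ∈ M | t n ≤ X}) hcon hfin φ (by
      rintro n ⟨hn, hnX⟩
      refine ⟨hφR n hn.1, t n, ?_, ?_, hMz n hn⟩
      · exact abs_pos.2 (ht0 n hn.1).ne'
      · rw [abs_of_pos (ht0 n hn.1)]; exact hnX)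
    obtain ⟨i, hi, j, hj, h1, h2⟩ := hpick _ (fun n hn => hn.1.1) hinf' m₀
    exact hdist i j hi.1.1.1 hj.1.1.1 h1 h2 (hi.2.trans hj.2.symm)
  -- and far from the end
  have hend : ∀ X : ℝ, {n ∈ M | Θ n - t n ≤ X}.Finite := by
    intro X
    by_contra hcon
    have hfin := finite_geodesics h.compact h.sub hsec hz₀S hyS X
    have hη : ∀ n ∈ {n ∈ M | Θ n - t n ≤ X},
        deriv (fun q => gam Φ I (u, φ n) (t n + (Θ n - t n) * q)) 0
          = (Θ n - t n) • deriv (gam Φ I (u, φ n)) (t n) := by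
      intro n hn
      rw [deriv_affine (hgeo n hn.1.1).1]; simp
    have hspeed : ∀ n ∈ {n ∈ M | Θ n - t n ≤ X},
        ‖deriv (fun q => gam Φ I (u, φ n) (t n + (Θ n - t n) * q)) 0‖ = Θ n - t n := by
      intro n hn
      obtain ⟨g1, g2, g3⟩ := hgeo n hn.1.1
      rw [hη n hn, norm_smul, g1.speed (t n) 0, g2, mul_one, Real.norm_eq_abs,
        abs_of_pos (by linarith [htΘ n hn.1.1])]
    obtain ⟨η₀, -, hinf'⟩ := exists_infinite_fib (A := {n ∈ M | Θ n - t n ≤ X}) hcon hfin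
      (fun n => fun q => gam Φ I (u, φ n) (t n + (Θ n - t n) * q)) (by
      intro n hn
      obtain ⟨g1, g2, g3⟩ := hgeo n hn.1.1
      have hpos : 0 < Θ n - t n := by linarith [htΘ n hn.1.1]
      refine ⟨g1.affine _ _, ?_, ?_, ?_, ?_⟩
      · show gam Φ I (u, φ n) (t n + (Θ n - t n) * 0) = z₀
        rw [mul_zero, add_zero]; exact hMz n hn.1
      · show gam Φ I (u, φ n) (t n + (Θ n - t n) * 1) = y
        rw [mul_one, add_sub_cancel]; exact hhit n hn.1.1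
      · show deriv (fun q => gam Φ I (u, φ n) (t n + (Θ n - t n) * q)) 0 ≠ 0
        rw [← norm_ne_zero_iff, hspeed n hn]; exact hpos.ne'
      · show ‖deriv (fun q => gam Φ I (u, φ n) (t n + (Θ n - t n) * q)) 0‖ ≤ X
        rw [hspeed n hn]; exact hn.2)
    -- two indices with different total time
    obtain ⟨i, hi⟩ := hinf'.nonempty
    obtain ⟨X', hX'⟩ := exists_nat_ge ((Θ i + L / 4 + 1) / (L / 2))
    obtain ⟨j, hj, hjX⟩ := Set.Infinite.exists_gt hinf' X'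
    have hΘij : Θ i < Θ j := by
      have h1 := hΘ j hj.1.1.1
      have h2 : (X' : ℝ) ≤ j := by exact_mod_cast hjX.le
      rw [div_le_iff₀ (by positivity)] at hX'
      have h3 : (X' : ℝ) * (L / 2) ≤ j * (L / 2) := mul_le_mul_of_nonneg_right h2 (by positivity)
      linarith
    have heq : (fun q => gam Φ I (u, φ i) (t i + (Θ i - t i) * q))
        = fun q => gam Φ I (u, φ j) (t j + (Θ j - t j) * q) := hi.2.trans hj.2.symm
    have hlen : Θ i - t i = Θ j - t j := by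
      rw [← hspeed i hi.1, ← hspeed j hj.1, heq]
    have hpos : 0 < Θ i - t i := by linarith [htΘ i hi.1.1.1]
    have h1 : gam Φ I (u, φ i) (t i + (Θ i - t i) * (-(t i) / (Θ i - t i)))
        = gam Φ I (u, φ j) (t j + (Θ j - t j) * (-(t i) / (Θ i - t i))) :=
      congrFun heq (-(t i) / (Θ i - t i))
    rw [← hlen, mul_div_cancel₀ _ hpos.ne', add_neg_cancel, (hgeo i hi.1.1.1).2.2] at h1
    refine hnoloop j hj.1.1 (t j + -(t i)) ?_ h1.symm
    rw [abs_pos]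
    intro h0
    linarith
  -- hence `z₀` lies on `c`
  have hz₀O : z₀ ∈ gam Φ I 0 '' Icc 0 (2 * L) := by
    have h0r : (0 : ℝ × ℝ) ∈ Metric.ball (0 : ℝ × ℝ) r := Metric.mem_ball_self hs.pos
    have hcomp : IsCompact (gam Φ I 0 '' Icc 0 (2 * L)) :=
      isCompact_Icc.image (isGeo_gam h hs h0r).1.continuous
    rw [← hcomp.isClosed.closure_eq, Metric.mem_closure_iff]
    intro ε hε
    obtain ⟨C', hC'0, hC'⟩ := gam_lip h hs (m := 2 * L) (by positivity)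
    obtain ⟨q, hq⟩ : ∃ q : ℕ, C' * (C * a₀ * σ ^ q) < ε := by
      have h1 : Tendsto (fun n : ℕ => C' * (C * a₀ * σ ^ n)) atTop (𝓝 0) := by
        have := ((tendsto_pow_atTop_nhds_zero_of_lt_one hσ0.le hσ1).const_mul (C * a₀)).const_mul C'
        rwa [mul_zero, mul_zero] at this
      exact (h1.eventually_lt_const hε).exists
    set X : ℝ := 2 * L * (q + 2) + L with hX
    have hne : (M \ ({n ∈ M | t n ≤ X} ∪ {n ∈ M | Θ n - t n ≤ X})).Nonempty :=
      (hinf.sdiff ((hstart X).union (hend X))).nonempty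
    obtain ⟨n, hn, hn'⟩ := hne
    simp only [mem_union, mem_setOf_eq, not_or, not_and, hn, true_implies, not_le] at hn'
    obtain ⟨hn1, hn2⟩ := hn'
    have hOn := hO n hn.1
    have hsn := abs_le.1 hOn.hs
    have htT : t n < T n n := by
      have : Θ n = T n n + s n := rfl
      have hq0 : (0 : ℝ) ≤ q := Nat.cast_nonneg q
      nlinarith
    obtain ⟨k, hkn, hk1, hk2⟩ := hOn.exists_index (ht0 n hn.1).le htT
    have hkq : q ≤ k := by
      have h1 := (hOn.T_lower (k + 1) (by omega)).2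
      have h2 : X < ((k + 1 : ℕ) : ℝ) * (2 * L) := by linarith
      rw [hX] at h2
      push_cast at h2
      have h3 : (2 * L) * ((q : ℝ) + 2) < (2 * L) * ((k : ℝ) + 1) := by linarith
      have h4 := lt_of_mul_lt_mul_left h3 (by positivity)
      have h5 : (q : ℝ) < k := by linarith
      exact_mod_cast h5.le
    have hkq' : q ≤ n - k := by
      have h1 := hOn.T_left (n - k) k (by omega)
      have h2 : k + (n - k) = n := by omega
      rw [h2] at h1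
      have h3 : Θ n = T n n + s n := rfl
      have h4 : X - L / 4 < ((n - k : ℕ) : ℝ) * (2 * L) := by linarith
      rw [hX] at h4
      have h5 : (2 * L) * ((q : ℝ) + 2) < (2 * L) * ((n - k : ℕ) : ℝ) := by linarith
      have h6 := lt_of_mul_lt_mul_left h5 (by positivity)
      have h7 : (q : ℝ) < ((n - k : ℕ) : ℝ) := by linarith
      exact_mod_cast h7.le
    have hstep := hOn.step k hkn
    have htk : t n - T n k ∈ Icc 0 (2 * L) := ⟨by linarith, by linarith⟩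
    refine ⟨gam Φ I 0 (t n - T n k), mem_image_of_mem _ htk, ?_⟩
    have h1 : z₀ = gam Φ I (w n k) (t n - T n k) := by
      rw [← hMz n hn, ← hwφ n hn.1]
      show (Φ (t n) (I (w n 0))).1 = (Φ (t n - T n k) (I (w n k))).1
      rw [← hOn.orbit k hkn.le, ← h.flow.add h.vf, sub_add_cancel]
    have hwk : w n k ∈ Metric.ball (0 : ℝ × ℝ) r := by
      rw [Metric.mem_ball, dist_zero_right]
      exact lt_of_le_of_lt ((hwC n hn.1 k hkn.le).trans hCR) hfb.hR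
    have h2 := hC' _ hwk _ h0r _ htk _ htk
    rw [sub_self, abs_zero, add_zero, dist_zero_right] at h2
    rw [h1]
    have h3 : ‖w n k‖ ≤ C * a₀ * σ ^ q := by
      refine (hOn.norm k hkn.le).trans (mul_le_mul_of_nonneg_left ?_ (by positivity))
      exact max_le (pow_le_pow_of_le_one hσ0.le hσ1.le hkq)
        (pow_le_pow_of_le_one hσ0.le hσ1.le hkq')
    calc dist _ _ ≤ C' * ‖w n k‖ := h2
      _ ≤ C' * (C * a₀ * σ ^ q) := mul_le_mul_of_nonneg_left h3 hC'0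
      _ < ε := hq
  -- contradiction
  obtain ⟨i, hi, j, hj, h1, h2⟩ := hpick M subset_rfl hinf m₀
  refine hN ?_
  rw [← hycoord]
  refine hbad y (φ i) (hφR i hi.1) (Θ i) (hΘ0 i hi.1).le (hhit i hi.1) (Or.inr ⟨φ j, hφR j hj.1,
    (hdist i j hi.1 hj.1 h1 h2).symm, t i, t j, Θ j, (ht0 i hi.1).le, (ht0 j hj.1).le,
    (hΘ0 j hj.1).le, ?_, ?_, ?_, ?_⟩)
  · rw [hMz i hi, hMz j hj]
  · rw [hMz i hi]; exact hz₀O
  · rw [hMz i hi]; exact hz₀x
  · rw [hhit i hi.1, hhit j hj.1]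

end Pool.Agent.H91.GE
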