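import Pool.Agent.H91.GE.TS

/-!
# A global vector field which describes the geodesics of bounded speed
-/

set_option autoImplicit false

open scoped InnerProductSpace Topology ContDiff Manifold
open Set Filter

namespace Pool.Agent.H91.GE

variable {E F : Type*} [NormedAddCommGroup E] [InnerProductSpace ℝ E] [FiniteDimensional ℝ E]
  [NormedAddCommGroup F] [InnerProductSpace ℝ F] [FiniteDimensional ℝ F]

/-- `A` is a smooth function of compact support which equals the geodesic acceleration on all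
tangent vectors of length at most `2`. -/
structure IsField (F : Type*) [NormedAddCommGroup F] [InnerProductSpace ℝ F]
    [FiniteDimensional ℝ F] (S : Set E) (A : E × E → E) : Prop where
  smooth : ContDiff ℝ ∞ A
  supp : HasCompactSupport A
  eq : ∀ w ∈ TSet S, ‖w.2‖ ≤ 2 → ∀ (U : Set E) (f : E → F), IsLoc S U f → w.1 ∈ U →
    A w = Acc f w.1 w.2

theorem exists_field {S : Set E} (hS : IsCompact S) (hsub : IsSub F S) :
    ∃ A : E × E → E, IsField F S A := by
  set K : Set (E × E) := TSet S ∩ {w | ‖w.2‖ ≤ 2} with hK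
  have hKc : IsClosed K :=
    (isClosed_TSet hS hsub).inter (isClosed_le (continuous_snd.norm) continuous_const)
  obtain ⟨C, hC⟩ := hS.isBounded.exists_norm_le
  set R : ℝ := max C 2 + 1 with hR
  have hKR : ∀ w ∈ K, ‖w‖ < R := by
    intro w hw
    rw [Prod.norm_def]
    have h1 := hC _ (fst_mem_TSet hw.1)
    have h2 : ‖w.2‖ ≤ 2 := hw.2
    have h3 : max ‖w.1‖ ‖w.2‖ ≤ max C 2 := max_le_max h1 h2
    linarith
  let t : E × E → Set E := fun w =>
    {y | (w ∈ K → ∀ (U : Set E) (f : E → F), IsLoc S U f → w.1 ∈ U → y = Acc f w.1 w.2) ∧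
      (R ≤ ‖w‖ → y = 0)}
  have ht : ∀ w, Convex ℝ (t w) := by
    intro w y₁ h₁ y₂ h₂ a b ha hb hab
    refine ⟨fun hw U f hf hU => ?_, fun hw => ?_⟩
    · rw [h₁.1 hw U f hf hU, h₂.1 hw U f hf hU, ← add_smul, hab, one_smul]
    · rw [h₁.2 hw, h₂.2 hw, smul_zero, smul_zero, add_zero]
  obtain ⟨g, hg⟩ := exists_contMDiffMap_forall_mem_convex_of_local (n := (⊤ : ℕ∞)) 𝓘(ℝ, E × E)
    (F := E) ht (fun w => by
      by_cases hw : w ∈ K
      · obtain ⟨U, hpU, f, hf⟩ := hsub w.1 (fst_mem_TSet hw.1)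
        refine ⟨{x | x.1 ∈ U} ∩ {x | ‖x‖ < R}, ?_, fun x => Acc f x.1 x.2, ?_, ?_⟩
        · refine inter_mem ?_ ?_
          · exact continuous_fst.continuousAt.preimage_mem_nhds (hf.isOpen.mem_nhds hpU)
          · exact (isOpen_lt continuous_norm continuous_const).mem_nhds (hKR w hw)
        · rw [contMDiffOn_iff_contDiffOn]
          intro x hx
          exact (contDiffAt_Acc hf hx.1 x.2).contDiffWithinAt
        · intro x hx
          refine ⟨fun hxK U' f' hf' hU' => ?_, fun hxR => absurd hx.2 (not_lt.2 hxR)⟩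
          exact Acc_eq hf hf' hx.1 hU' hxK.1
      · refine ⟨Kᶜ, hKc.isOpen_compl.mem_nhds hw, fun _ => 0, contMDiffOn_const, ?_⟩
        intro x hx
        exact ⟨fun hxK => absurd hxK hx, fun _ => rfl⟩)
  refine ⟨g, ⟨contMDiff_iff_contDiff.1 g.contMDiff, ?_, ?_⟩⟩
  · refine HasCompactSupport.intro (isCompact_closedBall (0 : E × E) R) fun x hx => ?_
    refine (hg x).2 ?_
    rw [Metric.mem_closedBall, dist_zero_right, not_le] at hx
    exact hx.le
  · intro w hw hw2 U f hf hU
    exact (hg w).1 ⟨hw, hw2⟩ U f hf hU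

end Pool.Agent.H91.GE
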