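import Pool.Agent.H91.GE.FlowDiff

/-!
# Joint differentiability of the flow
-/

set_option autoImplicit false

open scoped Topology ContDiff
open Set Filter Metric

namespace Pool.Agent.H91.GE

variable {G : Type*} [NormedAddCommGroup G] [NormedSpace ℝ G] [FiniteDimensional ℝ G]
  {X : G → G} {K K₂ : NNReal} {Φ : ℝ → G → G}

theorem IsFlow.hasFDerivAt (hX : IsVF X K K₂) (hΦ : IsFlow X Φ) (t₀ : ℝ) (w₀ : G) :
    HasFDerivAt (fun x : ℝ × G => Φ x.1 x.2)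
      ((ContinuousLinearMap.fst ℝ ℝ G).smulRight (X (Φ t₀ w₀))
        + (fderiv ℝ (Φ t₀) w₀) ∘L (ContinuousLinearMap.snd ℝ ℝ G)) (t₀, w₀) := by
  rw [hasFDerivAt_iff_isLittleO, Asymptotics.isLittleO_iff]
  intro ε hε
  set X₀ := X (Φ t₀ w₀) with hX₀
  have hD := (hΦ.differentiable hX t₀ w₀).hasFDerivAt
  rw [hasFDerivAt_iff_isLittleO, Asymptotics.isLittleO_iff] at hD
  have h1 : ∀ᶠ x : ℝ × G in 𝓝 (t₀, w₀), ‖Φ t₀ x.2 - Φ t₀ w₀ - fderiv ℝ (Φ t₀) w₀ (x.2 - w₀)‖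
      ≤ ε / 2 * ‖x.2 - w₀‖ :=
    (continuous_snd.tendsto (t₀, w₀)).eventually (hD (half_pos hε))
  have hc : Continuous fun x : ℝ × G => ‖X (Φ x.1 x.2) - X₀‖ :=
    ((hX.smooth.continuous.comp (hΦ.continuous hX)).sub continuous_const).norm
  have h2 : ∀ᶠ x : ℝ × G in 𝓝 (t₀, w₀), ‖X (Φ x.1 x.2) - X₀‖ < ε / 2 := by
    refine (hc.tendsto (t₀, w₀)).eventually_lt_const ?_
    simpa [hX₀] using half_pos hε
  obtain ⟨δ, hδ, hb⟩ := Metric.eventually_nhds_iff.1 h2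
  have h3 : ∀ᶠ x : ℝ × G in 𝓝 (t₀, w₀), dist x (t₀, w₀) < δ :=
    Metric.ball_mem_nhds _ hδ
  filter_upwards [h1, h3] with x hx1 hx3
  obtain ⟨t, w⟩ := x
  simp only at hx1
  rw [Prod.dist_eq, max_lt_iff] at hx3
  have h4 : ‖Φ t w - Φ t₀ w - (t - t₀) • X₀‖ ≤ ε / 2 * ‖t - t₀‖ := by
    have hd : ∀ s ∈ uIcc t₀ t, HasDerivWithinAt (fun s => Φ s w - s • X₀) (X (Φ s w) - X₀)
        (uIcc t₀ t) s := by
      intro s _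
      have h5 := (hΦ.deriv s w).sub ((hasDerivAt_id' s).smul_const X₀)
      rw [one_smul] at h5
      exact h5.hasDerivWithinAt
    have hbd : ∀ s ∈ uIcc t₀ t, ‖X (Φ s w) - X₀‖ ≤ ε / 2 := by
      intro s hs
      refine (hb (y := (s, w)) ?_).le
      rw [Prod.dist_eq, max_lt_iff]
      refine ⟨lt_of_le_of_lt ?_ hx3.1, hx3.2⟩
      simp only [Real.dist_eq]
      exact abs_sub_left_of_mem_uIcc hs
    have h6 := (convex_uIcc t₀ t).norm_image_sub_le_of_norm_hasDerivWithin_le hd hbd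
      left_mem_uIcc right_mem_uIcc
    have h7 : Φ t w - t • X₀ - (Φ t₀ w - t₀ • X₀) = Φ t w - Φ t₀ w - (t - t₀) • X₀ := by
      rw [sub_smul]; abel
    rw [h7] at h6
    exact h6
  have h8 : Φ t w - Φ t₀ w₀ - ((ContinuousLinearMap.fst ℝ ℝ G).smulRight X₀
        + (fderiv ℝ (Φ t₀) w₀) ∘L (ContinuousLinearMap.snd ℝ ℝ G)) ((t, w) - (t₀, w₀))
      = (Φ t w - Φ t₀ w - (t - t₀) • X₀)
        + (Φ t₀ w - Φ t₀ w₀ - fderiv ℝ (Φ t₀) w₀ (w - w₀)) := by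
    show Φ t w - Φ t₀ w₀ - ((t - t₀) • X₀ + fderiv ℝ (Φ t₀) w₀ (w - w₀)) = _
    abel
  show ‖Φ t w - Φ t₀ w₀ - ((ContinuousLinearMap.fst ℝ ℝ G).smulRight X₀
        + (fderiv ℝ (Φ t₀) w₀) ∘L (ContinuousLinearMap.snd ℝ ℝ G)) ((t, w) - (t₀, w₀))‖ ≤ _
  rw [h8]
  have h9 : ‖t - t₀‖ ≤ ‖(t, w) - (t₀, w₀)‖ := norm_fst_le ((t, w) - (t₀, w₀))
  have h10 : ‖w - w₀‖ ≤ ‖(t, w) - (t₀, w₀)‖ := norm_snd_le ((t, w) - (t₀, w₀))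
  calc _ ≤ ‖Φ t w - Φ t₀ w - (t - t₀) • X₀‖
        + ‖Φ t₀ w - Φ t₀ w₀ - fderiv ℝ (Φ t₀) w₀ (w - w₀)‖ := norm_add_le _ _
    _ ≤ ε / 2 * ‖t - t₀‖ + ε / 2 * ‖w - w₀‖ := add_le_add h4 hx1
    _ ≤ ε / 2 * ‖(t, w) - (t₀, w₀)‖ + ε / 2 * ‖(t, w) - (t₀, w₀)‖ := by gcongr
    _ = ε * ‖(t, w) - (t₀, w₀)‖ := by ring

end Pool.Agent.H91.GE
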