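import Pool.Agent.H91.GE.TS

/-!
# A section of the unit tangent bundle of a surface near a unit tangent vector
-/

set_option autoImplicit false

open scoped InnerProductSpace Topology ContDiff
open Set Filter

namespace Pool.Agent.H91.GE

variable {E F : Type*} [NormedAddCommGroup E] [InnerProductSpace ℝ E] [FiniteDimensional ℝ E]
  [NormedAddCommGroup F] [InnerProductSpace ℝ F] [FiniteDimensional ℝ F]

/-- Coordinates `(h, u) = (⟪e, q - p⟫, ⟪ν, q - p⟫)` on `S` near `p` and the section `I` of the unit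
tangent bundle over `h = 0`, with coordinates `(u, φ)`, `φ` the slope. -/
structure Sec (S : Set E) (p e ν : E) (ψ : ℝ × ℝ → E) (I : ℝ × ℝ → E × E) (r : ℝ) : Prop where
  pos : 0 < r
  psi_cont : ContinuousOn ψ (Metric.ball 0 r)
  psi_zero : ψ 0 = p
  psi_mem : ∀ x ∈ Metric.ball (0 : ℝ × ℝ) r, ψ x ∈ S ∧ ⟪e, ψ x - p⟫_ℝ = x.1 ∧ ⟪ν, ψ x - p⟫_ℝ = x.2
  inj : ∀ q ∈ S, ∀ q' ∈ S, q ∈ Metric.ball p r → q' ∈ Metric.ball p r →
    ⟪e, q - p⟫_ℝ = ⟪e, q' - p⟫_ℝ → ⟪ν, q - p⟫_ℝ = ⟪ν, q' - p⟫_ℝ → q = q'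
  I_zero : I 0 = (p, e)
  I_mem : ∀ w ∈ Metric.ball (0 : ℝ × ℝ) r, I w ∈ TSet S ∧ ‖(I w).2‖ = 1 ∧
    ⟪e, (I w).1 - p⟫_ℝ = 0 ∧ ⟪ν, (I w).1 - p⟫_ℝ = w.1 ∧ 0 < ⟪e, (I w).2⟫_ℝ ∧
    ⟪ν, (I w).2⟫_ℝ = w.2 * ⟪e, (I w).2⟫_ℝ
  I_diff : DifferentiableAt ℝ I 0
  I_lip : ∃ C : NNReal, LipschitzOnWith C I (Metric.ball 0 r)
  I_surj : ∀ z ∈ TSet S, ‖z.2‖ = 1 → z.1 ∈ Metric.ball p r → 0 < ⟪e, z.2⟫_ℝ →
    ⟪e, z.1 - p⟫_ℝ = 0 → (⟪ν, z.1 - p⟫_ℝ, ⟪ν, z.2⟫_ℝ / ⟪e, z.2⟫_ℝ) ∈ Metric.ball (0 : ℝ × ℝ) r →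
    z = I (⟪ν, z.1 - p⟫_ℝ, ⟪ν, z.2⟫_ℝ / ⟪e, z.2⟫_ℝ)

/-- The linear chart is bijective. -/
theorem chart_bij (hdim : Module.finrank ℝ E = Module.finrank ℝ F + 2) {L : E →L[ℝ] F}
    (hL : Function.Surjective L) {e ν : E} (he : L e = 0) (hν : L ν = 0) (he1 : ‖e‖ = 1)
    (hν1 : ‖ν‖ = 1) (heν : ⟪e, ν⟫_ℝ = 0) :
    ∃ T : E ≃L[ℝ] F × (ℝ × ℝ), ∀ v, T v = (L v, ⟪e, v⟫_ℝ, ⟪ν, v⟫_ℝ) := by
  let B : E →L[ℝ] F × (ℝ × ℝ) := L.prod ((innerSL ℝ e).prod (innerSL ℝ ν))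
  have hsurj : Function.Surjective B := by
    rintro ⟨y, a, b⟩
    obtain ⟨x, hx⟩ := hL y
    refine ⟨x + (a - ⟪e, x⟫_ℝ) • e + (b - ⟪ν, x⟫_ℝ) • ν, ?_⟩
    have hνe : ⟪ν, e⟫_ℝ = 0 := by rw [real_inner_comm]; exact heν
    have hee : ⟪e, e⟫_ℝ = 1 := by rw [real_inner_self_eq_norm_sq, he1]; norm_num
    have hνν : ⟪ν, ν⟫_ℝ = 1 := by rw [real_inner_self_eq_norm_sq, hν1]; norm_num
    show (L _, ⟪e, _⟫_ℝ, ⟪ν, _⟫_ℝ) = _
    simp only [map_add, map_smul, he, hν, hx, smul_zero, add_zero, inner_add_right,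
      inner_smul_right, heν, hνe, hee, hνν, mul_one, mul_zero]
    refine Prod.ext rfl (Prod.ext ?_ ?_) <;> simp
  have hfin : Module.finrank ℝ E = Module.finrank ℝ (F × (ℝ × ℝ)) := by
    rw [Module.finrank_prod, Module.finrank_prod, Module.finrank_self, hdim]
  have hinj : Function.Injective B := by
    have h1 := (LinearMap.injective_iff_surjective_of_finrank_eq_finrank (f := B.toLinearMap)
      hfin).2 hsurj
    exact h1
  let e' : E ≃ₗ[ℝ] F × (ℝ × ℝ) := LinearEquiv.ofBijective B.toLinearMap ⟨hinj, hsurj⟩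
  exact ⟨e'.toContinuousLinearEquiv, fun v => rfl⟩

theorem two_le_infty : (2 : WithTop ℕ∞) ≤ ∞ := by
  have h : ((2 : ℕ∞) : WithTop ℕ∞) ≤ ((⊤ : ℕ∞) : WithTop ℕ∞) := WithTop.coe_le_coe.2 le_top
  exact h

theorem exists_sec (hdim : Module.finrank ℝ E = Module.finrank ℝ F + 2) {S U : Set E} {f : E → F}
    (hf : IsLoc S U f) {p : E} (hpU : p ∈ U) (hpS : p ∈ S) {e ν : E} (he : fderiv ℝ f p e = 0)
    (hν : fderiv ℝ f p ν = 0) (he1 : ‖e‖ = 1) (hν1 : ‖ν‖ = 1) (heν : ⟪e, ν⟫_ℝ = 0) :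
    ∃ (ψ : ℝ × ℝ → E) (I : ℝ × ℝ → E × E) (r : ℝ), Sec S p e ν ψ I r := by
  obtain ⟨T, hT⟩ := chart_bij hdim (hf.surj p hpU) he hν he1 hν1 heν
  let G : E → F × (ℝ × ℝ) := fun q => (f q, ⟪e, q - p⟫_ℝ, ⟪ν, q - p⟫_ℝ)
  have hlin : ∀ a : E, ContDiff ℝ ∞ fun q : E => ⟪a, q - p⟫_ℝ := fun a =>
    (innerSL ℝ a).contDiff.comp (contDiff_id.sub contDiff_const)
  have hlind : ∀ (a q : E), HasFDerivAt (fun q : E => ⟪a, q - p⟫_ℝ) (innerSL ℝ a) q := by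
    intro a q
    have h1 : HasFDerivAt (fun q : E => q - p) (ContinuousLinearMap.id ℝ E) q :=
      (hasFDerivAt_id q).sub_const p
    exact (innerSL ℝ a).hasFDerivAt.comp q h1
  have hGc : ∀ q ∈ U, ContDiffAt ℝ 2 G q := fun q hq =>
    ((hf.contDiffAt hq).of_le two_le_infty).prodMk
      (((hlin e).contDiffAt.of_le two_le_infty).prodMk
        ((hlin ν).contDiffAt.of_le two_le_infty))
  have hGd : ∀ q ∈ U, HasFDerivAt G
      ((fderiv ℝ f q).prod ((innerSL ℝ e).prod (innerSL ℝ ν))) q := fun q hq =>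
    (((hf.contDiffAt hq).differentiableAt (by simp)).hasFDerivAt).prodMk
      ((hlind e q).prodMk (hlind ν q))
  have hGT : HasFDerivAt G (T : E →L[ℝ] F × (ℝ × ℝ)) p := by
    have h1 : (T : E →L[ℝ] F × (ℝ × ℝ))
        = (fderiv ℝ f p).prod ((innerSL ℝ e).prod (innerSL ℝ ν)) := by
      ext v <;> simp [hT]
    rw [h1]; exact hGd p hpU
  have hG0 : G p = (0, 0) := by
    have : f p = 0 := (hf.mem_iff hpU).1 hpS
    simp [G, this]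
  set H := (hGc p hpU).toOpenPartialHomeomorph G hGT (by norm_num) with hH
  have hHc : (H : E → F × (ℝ × ℝ)) = G := (hGc p hpU).toOpenPartialHomeomorph_coe hGT (by norm_num)
  have hpsrc : p ∈ H.source := (hGc p hpU).mem_toOpenPartialHomeomorph_source hGT (by norm_num)
  have hsymm : ContDiffAt ℝ 2 H.symm (0, (0 : ℝ × ℝ)) := by
    have h1 := (hGc p hpU).to_localInverse hGT (by norm_num)
    rw [hG0] at h1
    exact h1
  have hsymm0 : H.symm (0, (0 : ℝ × ℝ)) = p := by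
    have h1 := H.left_inv hpsrc
    rw [hHc, hG0] at h1
    exact h1
  let ι : ℝ × ℝ → F × (ℝ × ℝ) := fun x => (0, x)
  have hιc : ContDiff ℝ ∞ ι := contDiff_const.prodMk contDiff_id
  let ψ : ℝ × ℝ → E := fun x => H.symm (ι x)
  have hψ0 : ψ 0 = p := hsymm0
  have hψ2 : ContDiffAt ℝ 2 ψ 0 :=
    ContDiffAt.comp (0 : ℝ × ℝ) (g := H.symm) hsymm (hιc.contDiffAt.of_le two_le_infty)
  -- good neighbourhood of `0`
  have ev1 : ∀ᶠ x in 𝓝 (0 : ℝ × ℝ), ContDiffAt ℝ 2 ψ x := hψ2.eventually (by decide)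
  have ev2 : ∀ᶠ x in 𝓝 (0 : ℝ × ℝ), ι x ∈ H.target := by
    refine hιc.continuous.continuousAt.preimage_mem_nhds (H.open_target.mem_nhds ?_)
    have h1 := H.map_source hpsrc
    rw [hHc, hG0] at h1
    exact h1
  have ev3 : ∀ᶠ x in 𝓝 (0 : ℝ × ℝ), ψ x ∈ U :=
    hψ2.continuousAt.preimage_mem_nhds (by rw [hψ0]; exact hf.isOpen.mem_nhds hpU)
  have ev4 : ∀ᶠ x in 𝓝 (0 : ℝ × ℝ), DifferentiableAt ℝ H.symm (ι x) := by
    have h1 : ∀ᶠ y in 𝓝 (0, (0 : ℝ × ℝ)), ContDiffAt ℝ 2 H.symm y := hsymm.eventually (by decide)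
    have h2 : Tendsto ι (𝓝 0) (𝓝 (0, (0 : ℝ × ℝ))) := hιc.continuous.continuousAt
    exact (h2.eventually h1).mono fun x hx => hx.differentiableAt (by norm_num)
  obtain ⟨r₁, hr₁, hb₁⟩ := Metric.eventually_nhds_iff.1 (ev1.and (ev2.and (ev3.and ev4)))
  have hψall : ∀ x : ℝ × ℝ, dist x 0 < r₁ → ψ x ∈ U ∧ f (ψ x) = 0 ∧ ⟪e, ψ x - p⟫_ℝ = x.1 ∧
      ⟪ν, ψ x - p⟫_ℝ = x.2 ∧ ψ x ∈ S := by
    intro x hx
    obtain ⟨h1, h2, h3, h4⟩ := hb₁ hx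
    have h5 := H.right_inv h2
    rw [hHc] at h5
    have h6 : f (ψ x) = 0 := congrArg Prod.fst h5
    have h7 : (⟪e, ψ x - p⟫_ℝ, ⟪ν, ψ x - p⟫_ℝ) = x := congrArg Prod.snd h5
    exact ⟨h3, h6, congrArg Prod.fst h7, congrArg Prod.snd h7, (hf.mem_iff h3).2 h6⟩
  -- derivative of `ψ`
  have hψd : ∀ x : ℝ × ℝ, dist x 0 < r₁ → ∀ a b : ℝ,
      fderiv ℝ f (ψ x) (fderiv ℝ ψ x (a, b)) = 0 ∧ ⟪e, fderiv ℝ ψ x (a, b)⟫_ℝ = a ∧
      ⟪ν, fderiv ℝ ψ x (a, b)⟫_ℝ = b := by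
    intro x hx a b
    have hd : HasFDerivAt ψ (fderiv ℝ ψ x) x :=
      ((hb₁ hx).1.differentiableAt (by norm_num)).hasFDerivAt
    have h1 : HasFDerivAt (fun x => G (ψ x))
        (((fderiv ℝ f (ψ x)).prod ((innerSL ℝ e).prod (innerSL ℝ ν))) ∘L fderiv ℝ ψ x) x :=
      (hGd (ψ x) (hψall x hx).1).comp x hd
    have h2 : (fun x => G (ψ x)) =ᶠ[𝓝 x] ι := by
      have h3 : ∀ᶠ y in 𝓝 x, dist y 0 < r₁ :=
        (isOpen_lt (continuous_id.dist continuous_const) continuous_const).mem_nhds hx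
      filter_upwards [h3] with y hy
      have h5 := H.right_inv (hb₁ hy).2.1
      rw [hHc] at h5
      exact h5
    have h3 : HasFDerivAt ι (ContinuousLinearMap.inr ℝ F (ℝ × ℝ)) x :=
      (ContinuousLinearMap.inr ℝ F (ℝ × ℝ)).hasFDerivAt
    have h4 := h1.unique (h3.congr_of_eventuallyEq h2)
    have h5 := congrArg (fun L : ℝ × ℝ →L[ℝ] F × (ℝ × ℝ) => L (a, b)) h4
    have h6 : (fderiv ℝ f (ψ x) (fderiv ℝ ψ x (a, b)), ⟪e, fderiv ℝ ψ x (a, b)⟫_ℝ,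
      ⟪ν, fderiv ℝ ψ x (a, b)⟫_ℝ) = ((0 : F), (a, b)) := h5
    refine ⟨congrArg Prod.fst h6, ?_, ?_⟩
    · exact congrArg (fun z => z.2.1) h6
    · exact congrArg (fun z => z.2.2) h6
  -- tangent vectors are determined by their two coordinates
  have htan : ∀ x : ℝ × ℝ, dist x 0 < r₁ → ∀ v, fderiv ℝ f (ψ x) v = 0 → ⟪e, v⟫_ℝ = 0 →
      ⟪ν, v⟫_ℝ = 0 → v = 0 := by
    intro x hx v h1 h2 h3
    have hsrc : ψ x ∈ H.source := H.map_target (hb₁ hx).2.1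
    have hGψ : G (ψ x) = ι x := by
      have h5 := H.right_inv (hb₁ hx).2.1
      rw [hHc] at h5
      exact h5
    have hd : HasFDerivAt (fun q => H.symm (G q)) (fderiv ℝ H.symm (ι x) ∘L
        ((fderiv ℝ f (ψ x)).prod ((innerSL ℝ e).prod (innerSL ℝ ν)))) (ψ x) := by
      have h6 : HasFDerivAt H.symm (fderiv ℝ H.symm (ι x)) (G (ψ x)) := by
        rw [hGψ]; exact (hb₁ hx).2.2.2.hasFDerivAt
      exact h6.comp (ψ x) (hGd (ψ x) (hψall x hx).1)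
    have heq : (fun q => H.symm (G q)) =ᶠ[𝓝 (ψ x)] fun q => q := by
      filter_upwards [H.open_source.mem_nhds hsrc] with q hq
      have h7 := H.left_inv hq
      rw [hHc] at h7
      exact h7
    have h8 := hd.unique ((hasFDerivAt_id (ψ x)).congr_of_eventuallyEq heq)
    have h9 := congrArg (fun L : E →L[ℝ] E => L v) h8
    have h10 : fderiv ℝ H.symm (ι x) (fderiv ℝ f (ψ x) v, ⟪e, v⟫_ℝ, ⟪ν, v⟫_ℝ) = v := h9
    rw [h1, h2, h3] at h10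
    have h11 : ((0 : F), (0 : ℝ), (0 : ℝ)) = 0 := rfl
    rw [h11, map_zero] at h10
    exact h10.symm
  -- the section
  let V : ℝ × ℝ → E := fun w => fderiv ℝ ψ (0, w.1) (1, w.2)
  have hVc : ContDiffAt ℝ 1 V 0 := by
    have h1 : ContDiffAt ℝ 1 (fderiv ℝ ψ) (0, (0 : ℝ × ℝ).1) := hψ2.fderiv_right (by norm_num)
    have h2 : ContDiffAt ℝ 1 (fun w : ℝ × ℝ => fderiv ℝ ψ (0, w.1)) 0 :=
      ContDiffAt.comp (0 : ℝ × ℝ) (g := fderiv ℝ ψ) h1 (contDiffAt_const.prodMk contDiffAt_fst)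
    exact h2.clm_apply (contDiffAt_const.prodMk contDiffAt_snd)
  have h0r : ∀ w : ℝ × ℝ, dist w 0 < r₁ → dist ((0 : ℝ), w.1) (0 : ℝ × ℝ) < r₁ := by
    intro w hw
    have h1 : dist ((0 : ℝ), w.1) (0 : ℝ × ℝ) ≤ dist w 0 := by
      rw [Prod.dist_eq, Prod.dist_eq]
      refine max_le ?_ (le_max_left _ _)
      simp only [dist_self, Prod.fst_zero]
      exact le_max_of_le_left dist_nonneg
    exact lt_of_le_of_lt h1 hw
  have hV1 : ∀ w : ℝ × ℝ, dist w 0 < r₁ → fderiv ℝ f (ψ (0, w.1)) (V w) = 0 ∧ ⟪e, V w⟫_ℝ = 1 ∧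
      ⟪ν, V w⟫_ℝ = w.2 := fun w hw => hψd _ (h0r w hw) 1 w.2
  have hVnorm : ∀ w : ℝ × ℝ, dist w 0 < r₁ → 1 ≤ ‖V w‖ := by
    intro w hw
    have h1 := (hV1 w hw).2.1
    have h2 := real_inner_le_norm e (V w)
    rw [h1, he1, one_mul] at h2
    exact h2
  let I : ℝ × ℝ → E × E := fun w => (ψ (0, w.1), (‖V w‖)⁻¹ • V w)
  have h00 : dist (0 : ℝ × ℝ) 0 < r₁ := by rw [dist_self]; exact hr₁
  have hVz : V 0 = e := by
    have h1 := hV1 0 h00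
    have hp' : ψ (0, (0 : ℝ × ℝ).1) = p := hψ0
    have h2 : V 0 - e = 0 := by
      refine htan 0 h00 _ ?_ ?_ ?_
      · rw [map_sub]
        have h3 : fderiv ℝ f (ψ 0) (V 0) = 0 := h1.1
        have h4 : fderiv ℝ f (ψ 0) e = 0 := by rw [hψ0]; exact he
        rw [h3, h4, sub_zero]
      · rw [inner_sub_right, h1.2.1, real_inner_self_eq_norm_sq, he1]; norm_num
      · rw [inner_sub_right, h1.2.2, real_inner_comm, heν]; simp
    exact sub_eq_zero.1 h2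
  have hIc : ContDiffAt ℝ 1 I 0 := by
    have h1 : ContDiffAt ℝ 1 (fun w : ℝ × ℝ => ψ (0, w.1)) 0 :=
      ContDiffAt.comp (0 : ℝ × ℝ) (g := ψ) (hψ2.of_le (by norm_num))
        (contDiffAt_const.prodMk contDiffAt_fst)
    have hne : V 0 ≠ 0 := by
      intro h; have := hVnorm 0 h00; rw [h, norm_zero] at this; linarith
    have h2 : ContDiffAt ℝ 1 (fun w => (‖V w‖)⁻¹) 0 :=
      (hVc.norm ℝ hne).inv (norm_ne_zero_iff.2 hne)
    exact h1.prodMk (h2.smul hVc)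
  obtain ⟨C, t, ht, hlip⟩ := hIc.exists_lipschitzOnWith
  obtain ⟨r₂, hr₂, hb₂⟩ := Metric.mem_nhds_iff.1 ht
  obtain ⟨r₃, hr₃, hb₃⟩ := Metric.mem_nhds_iff.1
    (inter_mem (hf.isOpen.mem_nhds hpU) (H.open_source.mem_nhds hpsrc))
  have hr : min r₁ (min r₂ r₃) ≤ r₁ := min_le_left _ _
  have hr' : min r₁ (min r₂ r₃) ≤ r₂ := (min_le_right _ _).trans (min_le_left _ _)
  have hr'' : min r₁ (min r₂ r₃) ≤ r₃ := (min_le_right _ _).trans (min_le_right _ _)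
  refine ⟨ψ, I, min r₁ (min r₂ r₃), ⟨lt_min hr₁ (lt_min hr₂ hr₃), ?_, hψ0, ?_, ?_, ?_, ?_,
    hIc.differentiableAt (by norm_num), ⟨C, hlip.mono ((Metric.ball_subset_ball hr').trans hb₂)⟩, ?_⟩⟩
  · intro x hx
    exact ((hb₁ (lt_of_lt_of_le hx hr)).1.continuousAt).continuousWithinAt
  · intro x hx
    have h := hψall x (lt_of_lt_of_le hx hr)
    exact ⟨h.2.2.2.2, h.2.2.1, h.2.2.2.1⟩
  · intro q hq q' hq' hqr hqr' h1 h2
    obtain ⟨a1, a2⟩ := hb₃ (Metric.ball_subset_ball hr'' hqr)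
    obtain ⟨b1, b2⟩ := hb₃ (Metric.ball_subset_ball hr'' hqr')
    refine H.injOn a2 b2 ?_
    rw [hHc]
    show (f q, _, _) = (f q', _, _)
    rw [(hf.mem_iff a1).1 hq, (hf.mem_iff b1).1 hq', h1, h2]
  · show (ψ (0, (0 : ℝ × ℝ).1), (‖V 0‖)⁻¹ • V 0) = (p, e)
    rw [hVz, he1, inv_one, one_smul]
    exact Prod.ext hψ0 rfl
  · intro w hw
    have hw' : dist w 0 < r₁ := lt_of_lt_of_le hw hr
    obtain ⟨a1, a2, a3, a4, a5⟩ := hψall _ (h0r w hw')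
    obtain ⟨b1, b2, b3⟩ := hV1 w hw'
    have hn := hVnorm w hw'
    have hn0 : 0 < ‖V w‖ := by linarith
    refine ⟨?_, ?_, a3, a4, ?_, ?_⟩
    · refine (mem_TSet_iff hf a1).2 ⟨a5, ?_⟩
      rw [map_smul, b1, smul_zero]
    · show ‖(‖V w‖)⁻¹ • V w‖ = 1
      rw [norm_smul, norm_inv, norm_norm, inv_mul_cancel₀ hn0.ne']
    · show 0 < ⟪e, (‖V w‖)⁻¹ • V w⟫_ℝ
      rw [inner_smul_right, b2, mul_one]; positivity
    · show ⟪ν, (‖V w‖)⁻¹ • V w⟫_ℝ = w.2 * ⟪e, (‖V w‖)⁻¹ • V w⟫_ℝ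
      rw [inner_smul_right, inner_smul_right, b2, b3]; ring
  · rintro ⟨q, v⟩ hz hv1 hqr hev hh hmem
    simp only at hv1 hqr hev hh hmem ⊢
    set u := ⟪ν, q - p⟫_ℝ with hu
    set φ := ⟪ν, v⟫_ℝ / ⟪e, v⟫_ℝ with hφ
    have hw' : dist (u, φ) (0 : ℝ × ℝ) < r₁ := lt_of_lt_of_le hmem hr
    obtain ⟨a1, a2⟩ := hb₃ (Metric.ball_subset_ball hr'' hqr)
    have hqS : q ∈ S := fst_mem_TSet hz
    have hq : q = ψ (0, u) := by
      have h1 := H.left_inv a2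
      rw [hHc] at h1
      have h2 : G q = ι (0, u) := by
        show (f q, ⟪e, q - p⟫_ℝ, ⟪ν, q - p⟫_ℝ) = (0, (0, u))
        rw [(hf.mem_iff a1).1 hqS, hh]
      rw [h2] at h1
      exact h1.symm
    obtain ⟨b1, b2, b3⟩ := hV1 (u, φ) hw'
    have hn := hVnorm (u, φ) hw'
    have hv : v = ⟪e, v⟫_ℝ • V (u, φ) := by
      have h2 : v - ⟪e, v⟫_ℝ • V (u, φ) = 0 := by
        refine htan (0, u) (h0r (u, φ) hw') _ ?_ ?_ ?_
        · rw [map_sub, map_smul]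
          have h3 : fderiv ℝ f (ψ (0, u)) v = 0 := by
            rw [← hq]; exact ((mem_TSet_iff hf a1).1 hz).2
          have h4 : fderiv ℝ f (ψ (0, u)) (V (u, φ)) = 0 := b1
          rw [h3, h4, smul_zero, sub_zero]
        · rw [inner_sub_right, inner_smul_right, b2, mul_one, sub_self]
        · rw [inner_sub_right, inner_smul_right, b3]
          simp only [hφ]
          rw [mul_div_cancel₀ _ hev.ne', sub_self]
      exact sub_eq_zero.1 h2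
    have hnorm : ⟪e, v⟫_ℝ * ‖V (u, φ)‖ = 1 := by
      have h3 : ‖v‖ = ⟪e, v⟫_ℝ * ‖V (u, φ)‖ := by
        conv_lhs => rw [hv]
        rw [norm_smul, Real.norm_of_nonneg hev.le]
      rw [← h3, hv1]
    refine Prod.ext hq ?_
    show v = (‖V (u, φ)‖)⁻¹ • V (u, φ)
    have h4 : (‖V (u, φ)‖)⁻¹ = ⟪e, v⟫_ℝ := by
      rw [inv_eq_one_div, div_eq_iff (by linarith)]; exact hnorm.symm
    rw [h4]; exact hv

end Pool.Agent.H91.GE
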