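import Pool.Agent.H91.GE.GFlow
import Pool.Agent.H91.GE.Sec
import Pool.Agent.H91.GE.FlowJoint

/-!
# Hitting times of transversal sections
-/

set_option autoImplicit false

open scoped InnerProductSpace Topology ContDiff
open Set Filter

namespace Pool.Agent.H91.GE

variable {E F : Type*} [NormedAddCommGroup E] [InnerProductSpace ℝ E] [FiniteDimensional ℝ E]
  [NormedAddCommGroup F] [InnerProductSpace ℝ F] [FiniteDimensional ℝ F]
  {S : Set E} {A : E × E → E} {K K₂ : NNReal} {Φ : ℝ → E × E → E × E}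
  {p e ν : E} {ψ : ℝ × ℝ → E} {I : ℝ × ℝ → E × E} {r : ℝ}

theorem GFlow.hasDerivAt_h (h : GFlow F S A K K₂ Φ) (z : E × E) (t : ℝ) :
    HasDerivAt (fun t => ⟪e, (Φ t z).1 - p⟫_ℝ) ⟪e, (Φ t z).2⟫_ℝ t := by
  have h1 : HasDerivAt (fun t => (Φ t z).1) (Φ t z).2 t :=
    (ContinuousLinearMap.fst ℝ E E).hasFDerivAt.comp_hasDerivAt t (h.flow.deriv t z)
  exact (innerSL ℝ e).hasFDerivAt.comp_hasDerivAt t (h1.sub_const p)

theorem hit (h : GFlow F S A K K₂ Φ) (hs : Sec S p e ν ψ I r) (he1 : ‖e‖ = 1) {t₁ : ℝ}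
    (ht₁ : Φ t₁ (p, e) = (p, e)) {η δ₀ : ℝ} (hη : 0 < η) (hδ₀ : 0 < δ₀) :
    ∃ δ, 0 < δ ∧ δ ≤ δ₀ ∧ ∃ ρ, 0 < ρ ∧ ρ ≤ r ∧
      (∀ w ∈ Metric.ball (0 : ℝ × ℝ) ρ, ∀ t, |t - t₁| ≤ δ →
        dist (Φ t (I w)) (p, e) < η ∧ 1 / 2 ≤ ⟪e, (Φ t (I w)).2⟫_ℝ) ∧
      (∀ w ∈ Metric.ball (0 : ℝ × ℝ) ρ, ∀ a, |a| < ρ →
        ∃ t, |t - t₁| ≤ δ ∧ ⟪e, (Φ t (I w)).1 - p⟫_ℝ = a) ∧
      (∀ w ∈ Metric.ball (0 : ℝ × ℝ) ρ, ∀ t t', |t - t₁| ≤ δ → |t' - t₁| ≤ δ →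
        |t - t'| ≤ 2 * |⟪e, (Φ t (I w)).1 - p⟫_ℝ - ⟪e, (Φ t' (I w)).1 - p⟫_ℝ|) := by
  have hcont : ContinuousAt (fun x : ℝ × (ℝ × ℝ) => Φ x.1 (I x.2)) (t₁, 0) := by
    have h1 : ContinuousAt (fun x : ℝ × (ℝ × ℝ) => (x.1, I x.2)) (t₁, 0) := by
      refine continuousAt_fst.prodMk ?_
      exact ContinuousAt.comp (g := I) (f := fun x : ℝ × (ℝ × ℝ) => x.2) hs.I_diff.continuousAt
        continuousAt_snd
    exact ContinuousAt.comp (g := fun x : ℝ × (E × E) => Φ x.1 x.2)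
      (h.flow.continuous h.vf).continuousAt h1
  have hval : Φ t₁ (I 0) = (p, e) := by rw [hs.I_zero, ht₁]
  have hev : ∀ᶠ x : ℝ × (ℝ × ℝ) in 𝓝 (t₁, 0), dist (Φ x.1 (I x.2)) (p, e) < min η (1 / 2) := by
    have h1 : Tendsto (fun x : ℝ × (ℝ × ℝ) => Φ x.1 (I x.2)) (𝓝 (t₁, 0)) (𝓝 (p, e)) := by
      have := hcont.tendsto
      simp only [hval] at this
      exact this
    exact h1.eventually (Metric.ball_mem_nhds _ (by positivity))
  obtain ⟨ε, hε, hb⟩ := Metric.eventually_nhds_iff.1 hev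
  set δ := min (ε / 2) δ₀ with hδ
  have hδpos : 0 < δ := lt_min (half_pos hε) hδ₀
  have hδε : δ < ε := lt_of_le_of_lt (min_le_left _ _) (half_lt_self hε)
  have hclose : ∀ w : ℝ × ℝ, dist w 0 < ε → ∀ t, |t - t₁| ≤ δ →
      dist (Φ t (I w)) (p, e) < η ∧ 1 / 2 ≤ ⟪e, (Φ t (I w)).2⟫_ℝ := by
    intro w hw t ht
    have h1 := hb (y := (t, w)) (by
      rw [Prod.dist_eq, max_lt_iff]
      exact ⟨by rw [Real.dist_eq]; exact lt_of_le_of_lt ht hδε, hw⟩)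
    refine ⟨lt_of_lt_of_le h1 (min_le_left _ _), ?_⟩
    have h2 : dist (Φ t (I w)) (p, e) < 1 / 2 := lt_of_lt_of_le h1 (min_le_right _ _)
    rw [Prod.dist_eq, max_lt_iff] at h2
    have h3 : ‖(Φ t (I w)).2 - e‖ < 1 / 2 := by rw [← dist_eq_norm]; exact h2.2
    have h4 : ⟪e, (Φ t (I w)).2⟫_ℝ = 1 + ⟪e, (Φ t (I w)).2 - e⟫_ℝ := by
      rw [inner_sub_right, real_inner_self_eq_norm_sq, he1]; ring
    have h5 := abs_real_inner_le_norm e ((Φ t (I w)).2 - e)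
    rw [he1, one_mul] at h5
    have h6 := neg_abs_le ⟪e, (Φ t (I w)).2 - e⟫_ℝ
    rw [h4]; linarith
  -- monotonicity
  have hmono : ∀ w : ℝ × ℝ, dist w 0 < ε → ∀ t ∈ Icc (t₁ - δ) (t₁ + δ), ∀ t' ∈ Icc (t₁ - δ) (t₁ + δ),
      t ≤ t' → 1 / 2 * (t' - t) ≤ ⟪e, (Φ t' (I w)).1 - p⟫_ℝ - ⟪e, (Φ t (I w)).1 - p⟫_ℝ := by
    intro w hw
    refine (convex_Icc (t₁ - δ) (t₁ + δ)).mul_sub_le_image_sub_of_le_deriv
      (f := fun t => ⟪e, (Φ t (I w)).1 - p⟫_ℝ) ?_ ?_ ?_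
    · exact fun t _ => (h.hasDerivAt_h (I w) t).continuousAt.continuousWithinAt
    · exact fun t _ => (h.hasDerivAt_h (I w) t).differentiableAt.differentiableWithinAt
    · intro t ht
      have ht' := interior_subset ht
      rw [(h.hasDerivAt_h (I w) t).deriv]
      exact (hclose w hw t (by rw [abs_le]; constructor <;> linarith [ht'.1, ht'.2])).2
  -- smallness at time `t₁`
  have hc0 : ContinuousAt (fun w : ℝ × ℝ => ⟪e, (Φ t₁ (I w)).1 - p⟫_ℝ) 0 := by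
    have h1 : ContinuousAt (fun w : ℝ × ℝ => Φ t₁ (I w)) 0 :=
      ContinuousAt.comp (g := Φ t₁) (h.flow.differentiable h.vf t₁ _).continuousAt
        hs.I_diff.continuousAt
    exact continuousAt_const.inner (h1.fst.sub continuousAt_const)
  have hev2 : ∀ᶠ w : ℝ × ℝ in 𝓝 0, |⟪e, (Φ t₁ (I w)).1 - p⟫_ℝ| < δ / 8 := by
    have h1 := hc0.tendsto.abs
    simp only [hval, sub_self, inner_zero_right, abs_zero] at h1
    exact h1.eventually_lt_const (by positivity)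
  obtain ⟨ρ₂, hρ₂, hb₂⟩ := Metric.eventually_nhds_iff.1 hev2
  set ρ := min (min ε r) (min ρ₂ (δ / 8)) with hρ
  have hρ1 : ρ ≤ ε := (min_le_left _ _).trans (min_le_left _ _)
  have hρ2 : ρ ≤ r := (min_le_left _ _).trans (min_le_right _ _)
  have hρ3 : ρ ≤ ρ₂ := (min_le_right _ _).trans (min_le_left _ _)
  have hρ4 : ρ ≤ δ / 8 := (min_le_right _ _).trans (min_le_right _ _)
  refine ⟨δ, hδpos, min_le_right _ _, ρ, lt_min (lt_min hε hs.pos) (lt_min hρ₂ (by positivity)), hρ2,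
    fun w hw => hclose w (lt_of_lt_of_le hw hρ1), ?_, ?_⟩
  · intro w hw a ha
    have hw1 : dist w 0 < ε := lt_of_lt_of_le hw hρ1
    have h0 := hb₂ (lt_of_lt_of_le hw hρ3)
    have hm := hmono w hw1
    have hl := hm (t₁ - δ) ⟨le_rfl, by linarith⟩ t₁ ⟨by linarith, by linarith⟩ (by linarith)
    have hr := hm t₁ ⟨by linarith, by linarith⟩ (t₁ + δ) ⟨by linarith, le_rfl⟩ (by linarith)
    have hcont' : ContinuousOn (fun t => ⟪e, (Φ t (I w)).1 - p⟫_ℝ) (Icc (t₁ - δ) (t₁ + δ)) :=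
      fun t _ => (h.hasDerivAt_h (I w) t).continuousAt.continuousWithinAt
    have hmem : a ∈ Icc ⟪e, (Φ (t₁ - δ) (I w)).1 - p⟫_ℝ ⟪e, (Φ (t₁ + δ) (I w)).1 - p⟫_ℝ := by
      rw [abs_lt] at h0 ha
      constructor <;> linarith
    obtain ⟨t, ht, hta⟩ := intermediate_value_Icc (by linarith) hcont' hmem
    exact ⟨t, by rw [abs_le]; constructor <;> linarith [ht.1, ht.2], hta⟩
  · intro w hw t t' ht ht'
    have hw1 : dist w 0 < ε := lt_of_lt_of_le hw hρ1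
    have hm := hmono w hw1
    rw [abs_le] at ht ht'
    rcases le_total t t' with hle | hle
    · have h1 := hm t ⟨by linarith, by linarith⟩ t' ⟨by linarith, by linarith⟩ hle
      rw [abs_of_nonpos (by linarith), abs_of_nonpos (by linarith)]
      linarith
    · have h1 := hm t' ⟨by linarith, by linarith⟩ t ⟨by linarith, by linarith⟩ hle
      rw [abs_of_nonneg (by linarith), abs_of_nonneg (by linarith)]
      linarith

end Pool.Agent.H91.GE
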