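import Pool.Agent.H91.GE.Ret

/-!
# Jacobi fields along a closed geodesic and the derivative of the return map
-/

set_option autoImplicit false

open scoped InnerProductSpace Topology ContDiff
open Set Filter

namespace Pool.Agent.H91.GE

variable {E F : Type*} [NormedAddCommGroup E] [InnerProductSpace ℝ E] [FiniteDimensional ℝ E]
  [NormedAddCommGroup F] [InnerProductSpace ℝ F] [FiniteDimensional ℝ F]
  {S : Set E} {A : E × E → E} {K K₂ : NNReal} {Φ : ℝ → E × E → E × E}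
  {p e ν : E} {ψ : ℝ × ℝ → E} {I : ℝ × ℝ → E × E} {r : ℝ} {c : ℝ → E}

/-- `J` is the variation field at `0` of a family of geodesics which contains `c`. -/
def IsJac (S : Set E) (c J : ℝ → E) : Prop :=
  ∃ Γ : ℝ → ℝ → E, (∀ ε, IsGeo S (Γ ε)) ∧ Γ 0 = c ∧
    ∀ t, HasDerivAt (fun ε => Γ ε t) (J t) 0 ∧ HasDerivAt (fun ε => deriv (Γ ε) t) (deriv J t) 0

/-- The flow line through a point of a geodesic. -/
theorem GFlow.of_geo_add (h : GFlow F S A K K₂ Φ) {γ : ℝ → E} (hγ : IsGeo S γ)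
    {t₀ : ℝ} (hs : ‖deriv γ t₀‖ ≤ 2) (s : ℝ) :
    (γ (s + t₀), deriv γ (s + t₀)) = Φ s (γ t₀, deriv γ t₀) := by
  have h0 : ‖deriv γ 0‖ ≤ 2 := by rw [hγ.speed 0 t₀]; exact hs
  rw [h.of_geo hγ h0 (s + t₀), h.flow.add h.vf, ← h.of_geo hγ h0 t₀]

/-- The derivative of the flow transports Jacobi fields. -/
theorem IsJac.transport (h : GFlow F S A K K₂ Φ) {J : ℝ → E} (hJ : IsJac S c J) (hc : IsGeo S c)
    (hc1 : ‖deriv c 0‖ = 1) (t s : ℝ) :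
    fderiv ℝ (Φ s) (c t, deriv c t) (J t, deriv J t) = (J (s + t), deriv J (s + t)) := by
  obtain ⟨Γ, hΓ, h0, hd⟩ := hJ
  have hz : ∀ t, HasDerivAt (fun ε => (Γ ε t, deriv (Γ ε) t)) (J t, deriv J t) 0 := fun t =>
    (hd t).1.prodMk (hd t).2
  have hval : (Γ 0 t, deriv (Γ 0) t) = (c t, deriv c t) := by rw [h0]
  have hΦ : HasFDerivAt (Φ s) (fderiv ℝ (Φ s) (c t, deriv c t)) (Γ 0 t, deriv (Γ 0) t) := by
    rw [hval]; exact (h.flow.differentiable h.vf s _).hasFDerivAt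
  have h1 : HasDerivAt (fun ε => Φ s (Γ ε t, deriv (Γ ε) t))
      (fderiv ℝ (Φ s) (c t, deriv c t) (J t, deriv J t)) 0 := hΦ.comp_hasDerivAt (0 : ℝ) (hz t)
  have hev : ∀ᶠ ε in 𝓝 (0 : ℝ), ‖deriv (Γ ε) t‖ < 2 := by
    have h2 := (hd t).2.continuousAt.norm.tendsto
    refine h2.eventually_lt_const ?_
    rw [h0, hc.speed t 0, hc1]; norm_num
  have h3 : (fun ε => Φ s (Γ ε t, deriv (Γ ε) t)) =ᶠ[𝓝 0]
      fun ε => (Γ ε (s + t), deriv (Γ ε) (s + t)) := by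
    filter_upwards [hev] with ε hε
    exact (h.of_geo_add (hΓ ε) hε.le s).symm
  exact h1.unique ((hz (s + t)).congr_of_eventuallyEq h3)

/-- First order conditions for curves in the tangent set. -/
theorem tangent_cond {U : Set E} {f : E → F} (hf : IsLoc S U f) (hpU : p ∈ U)
    {z : ℝ → E × E} {a b : E} (hz : HasDerivAt z (a, b) 0) (hz0 : z 0 = (p, e))
    (hT : ∀ᶠ ε in 𝓝 (0 : ℝ), z ε ∈ TSet S) :
    fderiv ℝ f p a = 0 ∧ fderiv ℝ (fderiv ℝ f) p a e + fderiv ℝ f p b = 0 := by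
  have hz1 : HasDerivAt (fun ε => (z ε).1) a 0 :=
    (ContinuousLinearMap.fst ℝ E E).hasFDerivAt.comp_hasDerivAt (0 : ℝ) hz
  have hz2 : HasDerivAt (fun ε => (z ε).2) b 0 :=
    (ContinuousLinearMap.snd ℝ E E).hasFDerivAt.comp_hasDerivAt (0 : ℝ) hz
  have h01 : (z 0).1 = p := by rw [hz0]
  have h02 : (z 0).2 = e := by rw [hz0]
  have hU : ∀ᶠ ε in 𝓝 (0 : ℝ), (z ε).1 ∈ U :=
    hz1.continuousAt.preimage_mem_nhds (hf.isOpen.mem_nhds (by rw [h01]; exact hpU))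
  constructor
  · have hfd : HasFDerivAt f (fderiv ℝ f p) ((z 0).1) := by
      rw [h01]; exact ((hf.contDiffAt hpU).differentiableAt (by simp)).hasFDerivAt
    have h1 : HasDerivAt (fun ε => f (z ε).1) (fderiv ℝ f p a) 0 := hfd.comp_hasDerivAt (0 : ℝ) hz1
    have h2 : (fun ε => f (z ε).1) =ᶠ[𝓝 0] fun _ => 0 := by
      filter_upwards [hU, hT] with ε h1 h2
      exact (hf.mem_iff h1).1 (fst_mem_TSet h2)
    exact h1.unique ((hasDerivAt_const (0 : ℝ) (0 : F)).congr_of_eventuallyEq h2)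
  · have hfd2 : HasFDerivAt (fderiv ℝ f) (fderiv ℝ (fderiv ℝ f) p) ((z 0).1) := by
      rw [h01]
      have h1 : ContDiffAt ℝ ∞ (fderiv ℝ f) p := (hf.contDiffAt hpU).fderiv_right (by norm_num)
      exact (h1.differentiableAt (by simp)).hasFDerivAt
    have h2 : HasDerivAt (fun ε => fderiv ℝ f (z ε).1) (fderiv ℝ (fderiv ℝ f) p a) 0 :=
      hfd2.comp_hasDerivAt (0 : ℝ) hz1
    have h3 := h2.clm_apply hz2
    rw [h01, h02] at h3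
    have h4 : (fun ε => fderiv ℝ f (z ε).1 (z ε).2) =ᶠ[𝓝 0] fun _ => 0 := by
      filter_upwards [hU, hT] with ε h1 h2
      exact ((mem_TSet_iff hf h1).1 h2).2
    exact h3.unique ((hasDerivAt_const (0 : ℝ) (0 : F)).congr_of_eventuallyEq h4)

/-- The derivative of the section. -/
theorem Sec.deriv_I (hs : Sec S p e ν ψ I r) (he1 : ‖e‖ = 1) (ξ : ℝ × ℝ) :
    HasDerivAt (fun ε : ℝ => I (ε • ξ)) (fderiv ℝ I 0 ξ) 0 ∧
    (∀ᶠ ε in 𝓝 (0 : ℝ), I (ε • ξ) ∈ TSet S) ∧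
    ⟪e, (fderiv ℝ I 0 ξ).1⟫_ℝ = 0 ∧ ⟪ν, (fderiv ℝ I 0 ξ).1⟫_ℝ = ξ.1 ∧
    ⟪ν, (fderiv ℝ I 0 ξ).2⟫_ℝ = ξ.2 + ⟪ν, e⟫_ℝ * ⟪e, (fderiv ℝ I 0 ξ).2⟫_ℝ := by
  have hl : HasDerivAt (fun ε : ℝ => ε • ξ) ξ 0 := by
    simpa using (hasDerivAt_id (0 : ℝ)).smul_const ξ
  have hI : HasFDerivAt I (fderiv ℝ I 0) ((0 : ℝ) • ξ) := by
    rw [zero_smul]; exact hs.I_diff.hasFDerivAt
  have h1 : HasDerivAt (fun ε : ℝ => I (ε • ξ)) (fderiv ℝ I 0 ξ) 0 := hI.comp_hasDerivAt (0 : ℝ) hl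
  have hball : ∀ᶠ ε in 𝓝 (0 : ℝ), ε • ξ ∈ Metric.ball (0 : ℝ × ℝ) r :=
    hl.continuousAt.preimage_mem_nhds (by rw [zero_smul]; exact Metric.ball_mem_nhds _ hs.pos)
  have hI0 : I ((0 : ℝ) • ξ) = (p, e) := by rw [zero_smul]; exact hs.I_zero
  have h11 : HasDerivAt (fun ε : ℝ => (I (ε • ξ)).1 - p) (fderiv ℝ I 0 ξ).1 0 :=
    ((ContinuousLinearMap.fst ℝ E E).hasFDerivAt.comp_hasDerivAt (0 : ℝ) h1).sub_const p
  have h12 : HasDerivAt (fun ε : ℝ => (I (ε • ξ)).2) (fderiv ℝ I 0 ξ).2 0 :=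
    (ContinuousLinearMap.snd ℝ E E).hasFDerivAt.comp_hasDerivAt (0 : ℝ) h1
  refine ⟨h1, hball.mono fun ε hε => (hs.I_mem _ hε).1, ?_, ?_, ?_⟩
  · have h2 : HasDerivAt (fun ε : ℝ => ⟪e, (I (ε • ξ)).1 - p⟫_ℝ) ⟪e, (fderiv ℝ I 0 ξ).1⟫_ℝ 0 :=
      (innerSL ℝ e).hasFDerivAt.comp_hasDerivAt (0 : ℝ) h11
    have h3 : (fun ε : ℝ => ⟪e, (I (ε • ξ)).1 - p⟫_ℝ) =ᶠ[𝓝 0] fun _ => 0 := by
      filter_upwards [hball] with ε hε
      exact (hs.I_mem _ hε).2.2.1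
    exact h2.unique ((hasDerivAt_const (0 : ℝ) (0 : ℝ)).congr_of_eventuallyEq h3)
  · have h2 : HasDerivAt (fun ε : ℝ => ⟪ν, (I (ε • ξ)).1 - p⟫_ℝ) ⟪ν, (fderiv ℝ I 0 ξ).1⟫_ℝ 0 :=
      (innerSL ℝ ν).hasFDerivAt.comp_hasDerivAt (0 : ℝ) h11
    have h3 : (fun ε : ℝ => ⟪ν, (I (ε • ξ)).1 - p⟫_ℝ) =ᶠ[𝓝 0] fun ε => ε * ξ.1 := by
      filter_upwards [hball] with ε hε
      exact (hs.I_mem _ hε).2.2.2.1
    have h4 : HasDerivAt (fun ε : ℝ => ε * ξ.1) ξ.1 0 := by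
      simpa using (hasDerivAt_id (0 : ℝ)).mul_const ξ.1
    exact h2.unique (h4.congr_of_eventuallyEq h3)
  · have h2 : HasDerivAt (fun ε : ℝ => ⟪ν, (I (ε • ξ)).2⟫_ℝ) ⟪ν, (fderiv ℝ I 0 ξ).2⟫_ℝ 0 :=
      (innerSL ℝ ν).hasFDerivAt.comp_hasDerivAt (0 : ℝ) h12
    have h2' : HasDerivAt (fun ε : ℝ => ⟪e, (I (ε • ξ)).2⟫_ℝ) ⟪e, (fderiv ℝ I 0 ξ).2⟫_ℝ 0 :=
      (innerSL ℝ e).hasFDerivAt.comp_hasDerivAt (0 : ℝ) h12
    have h3 : (fun ε : ℝ => ⟪ν, (I (ε • ξ)).2⟫_ℝ) =ᶠ[𝓝 0]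
        fun ε => (ε * ξ.2) * ⟪e, (I (ε • ξ)).2⟫_ℝ := by
      filter_upwards [hball] with ε hε
      exact (hs.I_mem _ hε).2.2.2.2.2
    have h4 : HasDerivAt (fun ε : ℝ => ε * ξ.2) ξ.2 0 := by
      simpa using (hasDerivAt_id (0 : ℝ)).mul_const ξ.2
    have h5 := h4.mul h2'
    have h6 := h2.unique (h5.congr_of_eventuallyEq h3)
    rw [h6, hI0, zero_mul, zero_mul, add_zero]
    show ξ.2 * ⟪e, e⟫_ℝ = _
    have h7 := h3.self_of_nhds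
    simp only [hI0, zero_mul] at h7
    have h8 : ⟪ν, e⟫_ℝ = 0 := h7
    rw [h8, zero_mul, add_zero, real_inner_self_eq_norm_sq, he1]; ring

omit [FiniteDimensional ℝ E] in
theorem hasDerivAt_tan (hc : IsGeo S c) (t₀ t : ℝ) :
    HasDerivAt (fun t => t • deriv c (t₀ + 1 * t))
      (deriv c (t₀ + 1 * t) + t • deriv (deriv c) (t₀ + 1 * t)) t := by
  have h6 : HasDerivAt (fun t : ℝ => t₀ + 1 * t) 1 t := by
    simpa using ((hasDerivAt_id t).const_mul 1).const_add t₀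
  have h7 : HasDerivAt (fun t => deriv c (t₀ + 1 * t))
      ((1 : ℝ) • deriv (deriv c) (t₀ + 1 * t)) t :=
    HasDerivAt.scomp (g₁ := deriv c) (h := fun t : ℝ => t₀ + 1 * t) t
      (hc.hasDerivAt' (t₀ + 1 * t)) h6
  have h8 : HasDerivAt (fun t => t • deriv c (t₀ + 1 * t))
      (t • ((1 : ℝ) • deriv (deriv c) (t₀ + 1 * t)) + (1 : ℝ) • deriv c (t₀ + 1 * t)) t :=
    (hasDerivAt_id' t).smul h7
  rw [one_smul, one_smul, add_comm] at h8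
  exact h8

omit [FiniteDimensional ℝ E] in
theorem isJac_tan (hc : IsGeo S c) (t₀ : ℝ) :
    IsJac S (fun t => c (t₀ + 1 * t)) (fun t => t • deriv c (t₀ + 1 * t)) := by
  refine ⟨fun ε t => c (t₀ + (1 + ε) * t), fun ε => hc.affine t₀ (1 + ε), by simp, fun t => ?_⟩
  have hin : HasDerivAt (fun ε : ℝ => t₀ + (1 + ε) * t) t 0 := by
    have h1 : HasDerivAt (fun ε : ℝ => (1 + ε) * t) (1 * t) 0 :=
      ((hasDerivAt_id (0 : ℝ)).const_add 1).mul_const t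
    simpa using h1.const_add t₀
  have hpt : t₀ + (1 + (0 : ℝ)) * t = t₀ + 1 * t := by ring
  constructor
  · have h3 : HasDerivAt (fun ε : ℝ => c (t₀ + (1 + ε) * t)) (t • deriv c (t₀ + (1 + (0 : ℝ)) * t)) 0 :=
      HasDerivAt.scomp (g₁ := c) (h := fun ε : ℝ => t₀ + (1 + ε) * t) (0 : ℝ)
        (hc.hasDerivAt (t₀ + (1 + (0 : ℝ)) * t)) hin
    rw [hpt] at h3; exact h3
  · have h4 : (fun ε : ℝ => deriv (fun t => c (t₀ + (1 + ε) * t)) t)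
        = fun ε => (1 + ε) • deriv c (t₀ + (1 + ε) * t) := funext fun ε => by rw [deriv_affine hc]
    rw [(hasDerivAt_tan hc t₀ t).deriv]
    show HasDerivAt (fun ε : ℝ => deriv (fun t => c (t₀ + (1 + ε) * t)) t) _ 0
    rw [h4]
    have h6 : HasDerivAt (fun ε : ℝ => (1 : ℝ) + ε) 1 0 := (hasDerivAt_id (0 : ℝ)).const_add 1
    have h7 : HasDerivAt (fun ε : ℝ => deriv c (t₀ + (1 + ε) * t))
        (t • deriv (deriv c) (t₀ + (1 + (0 : ℝ)) * t)) 0 :=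
      HasDerivAt.scomp (g₁ := deriv c) (h := fun ε : ℝ => t₀ + (1 + ε) * t) (0 : ℝ)
        (hc.hasDerivAt' _) hin
    have h8 : HasDerivAt (fun ε : ℝ => (1 + ε) • deriv c (t₀ + (1 + ε) * t))
        ((1 + (0 : ℝ)) • t • deriv (deriv c) (t₀ + (1 + (0 : ℝ)) * t)
          + (1 : ℝ) • deriv c (t₀ + (1 + (0 : ℝ)) * t)) 0 := h6.smul h7
    rw [hpt, add_zero, one_smul, one_smul, add_comm] at h8
    exact h8

/-- The tangential Jacobi field does not contribute. -/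
theorem tangential (h : GFlow F S A K K₂ Φ) (hc : IsGeo S c) (hc1 : ‖deriv c 0‖ = 1)
    {t₀ L : ℝ} (hper : c (t₀ + L) = c t₀) (hper' : deriv c (t₀ + L) = deriv c t₀)
    {ν : E} (hν : (c t₀, ν) ∈ TSet S) (heν : ⟪deriv c t₀, ν⟫_ℝ = 0) :
    ⟪ν, (fderiv ℝ (Φ L) (c t₀, deriv c t₀) (0, deriv c t₀)).1⟫_ℝ = 0 ∧
      ⟪ν, (fderiv ℝ (Φ L) (c t₀, deriv c t₀) (0, deriv c t₀)).2⟫_ℝ = 0 := by
  have hνe : ⟪ν, deriv c t₀⟫_ℝ = 0 := by rw [real_inner_comm]; exact heν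
  have hg : IsGeo S (fun t => c (t₀ + 1 * t)) := hc.affine t₀ 1
  have hgd : deriv (fun t => c (t₀ + 1 * t)) = fun t => deriv c (t₀ + 1 * t) := by
    rw [deriv_affine hc]; simp
  have hg1 : ‖deriv (fun t => c (t₀ + 1 * t)) 0‖ = 1 := by
    rw [hgd]; show ‖deriv c (t₀ + 1 * 0)‖ = 1
    rw [hc.speed _ 0, hc1]
  have htr := (isJac_tan hc t₀).transport h hg hg1 0 L
  rw [(hasDerivAt_tan hc t₀ 0).deriv, (hasDerivAt_tan hc t₀ (L + 0)).deriv, hgd] at htr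
  simp only [mul_zero, add_zero, zero_smul, one_mul] at htr
  rw [htr, hper']
  have h10 : ⟪ν, deriv (deriv c) (t₀ + L)⟫_ℝ = 0 := by
    obtain ⟨d, hd1, hdS, hd0, hdd⟩ := hν
    have h11 := hc.acc (t₀ + L) d hd1 hdS (by rw [hper]; exact hd0)
    have h12 : deriv d 0 = ν := hdd
    rw [h12] at h11
    rw [real_inner_comm]; exact h11
  constructor
  · show ⟪ν, L • deriv c t₀⟫_ℝ = 0
    rw [inner_smul_right, hνe, mul_zero]
  · show ⟪ν, deriv c t₀ + L • deriv (deriv c) (t₀ + L)⟫_ℝ = 0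
    rw [inner_add_right, inner_smul_right, hνe, h10, mul_zero, add_zero]

end Pool.Agent.H91.GE
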