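import Pool.Agent.H91.GE.Endgame
import Pool.Agent.H91.GE.Eig

/-!
# A secure compact surface has no hyperbolic closed geodesic
-/

set_option autoImplicit false

open scoped InnerProductSpace Topology ContDiff
open Set Filter MeasureTheory

namespace Pool.Agent.H91.GE

variable {E F : Type*} [NormedAddCommGroup E] [InnerProductSpace ℝ E] [FiniteDimensional ℝ E]
  [NormedAddCommGroup F] [InnerProductSpace ℝ F] [FiniteDimensional ℝ F]
  {S : Set E} {A : E × E → E} {K K₂ : NNReal} {Φ : ℝ → E × E → E × E}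

/-- Normalisation of an eigenvector of a linear map in the fibre direction. -/
theorem normalise {ν : E} {V : ℝ × ℝ → E × E} (hV : ∀ (k : ℝ) ξ, V (k • ξ) = k • V ξ) {m q d : ℝ}
    (hq : q ≠ 0) (h : ((⟪ν, (V (q, d)).1⟫_ℝ, ⟪ν, (V (q, d)).2⟫_ℝ) : ℝ × ℝ) = m • (q, d)) :
    ((⟪ν, (V (1, q⁻¹ * d)).1⟫_ℝ, ⟪ν, (V (1, q⁻¹ * d)).2⟫_ℝ) : ℝ × ℝ) = m • (1, q⁻¹ * d) := by
  have h1 : ((1 : ℝ), q⁻¹ * d) = q⁻¹ • (q, d) := by
    refine Prod.ext ?_ rfl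
    show (1 : ℝ) = q⁻¹ * q
    rw [inv_mul_cancel₀ hq]
  have h2 := Prod.ext_iff.1 h
  obtain ⟨h3, h4⟩ := h2
  simp only [Prod.smul_mk, smul_eq_mul] at h3 h4
  rw [h1, hV]
  refine Prod.ext ?_ ?_
  · show ⟪ν, q⁻¹ • (V (q, d)).1⟫_ℝ = m * (q⁻¹ * q)
    rw [inner_smul_right, h3]; ring
  · show ⟪ν, q⁻¹ • (V (q, d)).2⟫_ℝ = m * (q⁻¹ * d)
    rw [inner_smul_right, h4]; ring

theorem no_hyperbolic (hdim : Module.finrank ℝ E = Module.finrank ℝ F + 2) (hS : IsCompact S)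
    (hsub : IsSub F S) (hsec : Secure S) {c : ℝ → E} (hc : IsGeo S c) (hc1 : ‖deriv c 0‖ = 1)
    {L : ℝ} (hL : 0 < L) (hper : ∀ t, c (t + L) = c t) {Js Ju : ℝ → E} (hJs : IsJac S c Js)
    (hJu : IsJac S c Ju) (hsn : ∀ t, ⟪Js t, deriv c t⟫_ℝ = 0) (hun : ∀ t, ⟪Ju t, deriv c t⟫_ℝ = 0)
    (hs0 : ∃ t, Js t ≠ 0) (hu0 : ∃ t, Ju t ≠ 0) {mu lam : ℝ} (hmu : |mu| < 1) (hlam : 1 < |lam|)
    (hsL : ∀ t, Js (t + L) = mu • Js t) (huL : ∀ t, Ju (t + L) = lam • Ju t) : False := by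
  obtain ⟨A, K, K₂, Φ, h⟩ := exists_GFlow hS hsub
  obtain ⟨t₀, hst, hut⟩ := exists_common h hJs hJu hc hc1 hs0 hu0
  obtain ⟨U, hpU, f, hf⟩ := h.sub (c t₀) (hc.mem t₀)
  set e := deriv c t₀ with he
  set p := c t₀ with hp
  have he1 : ‖e‖ = 1 := by rw [he, hc.speed t₀ 0, hc1]
  have heT : (p, e) ∈ TSet S := hc.mem_TSet t₀
  have hLe : fderiv ℝ f p e = 0 := ((mem_TSet_iff hf hpU).1 heT).2
  set ν : E := ‖Js t₀‖⁻¹ • Js t₀ with hν
  have hJs' := hJs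
  obtain ⟨Γ, hΓ, h0, hd⟩ := hJs'
  have hJc := tangent_cond hf hpU (z := fun ε => (Γ ε t₀, deriv (Γ ε) t₀)) (a := Js t₀)
    (b := deriv Js t₀) ((hd t₀).1.prodMk (hd t₀).2) (by simp only [h0]; rfl)
    (Eventually.of_forall fun ε => (hΓ ε).mem_TSet t₀)
  have hLν : fderiv ℝ f p ν = 0 := by rw [hν, map_smul, hJc.1, smul_zero]
  have hνT : (p, ν) ∈ TSet S := (mem_TSet_iff hf hpU).2 ⟨hc.mem t₀, hLν⟩
  have hnpos : 0 < ‖Js t₀‖ := norm_pos_iff.2 hst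
  have hν1 : ‖ν‖ = 1 := by
    rw [hν, norm_smul, norm_inv, norm_norm, inv_mul_cancel₀ hnpos.ne']
  have heν : ⟪e, ν⟫_ℝ = 0 := by
    rw [hν, inner_smul_right, real_inner_comm, hsn t₀, mul_zero]
  obtain ⟨ψ, I, r, hs⟩ := exists_sec hdim hf hpU (hc.mem t₀) hLe hLν he1 hν1 heν
  -- periodicity
  have hperd : deriv c (t₀ + L) = deriv c t₀ := by
    have h1 : (fun t => c (t + L)) = c := funext hper
    have h2 := deriv_comp_add_const c L t₀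
    rw [h1] at h2
    exact h2.symm
  have hΦper : Φ L (p, e) = (p, e) := by
    have h1 := h.of_geo_add hc (t₀ := t₀) (by rw [← he, he1]; norm_num) L
    rw [add_comm L t₀, hper, hperd] at h1
    exact h1.symm
  have hJL' : ∀ (J : ℝ → E) (m : ℝ), (∀ t, J (t + L) = m • J t) →
      deriv J (t₀ + L) = m • deriv J t₀ := by
    intro J m hJ
    have h1 : (fun t => J (t + L)) = m • J := funext hJ
    have h2 := deriv_comp_add_const J L t₀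
    rw [h1, deriv_const_smul_field] at h2
    exact h2.symm
  obtain ⟨es1, es2⟩ := hJs.eig hdim h hs hc hc1 (hper t₀) hperd hνT hν1 heν (hsn t₀) (hsL t₀)
    (hJL' Js mu hsL)
  obtain ⟨eu1, eu2⟩ := hJu.eig hdim h hs hc hc1 (hper t₀) hperd hνT hν1 heν (hun t₀) (huL t₀)
    (hJL' Ju lam huL)
  have hqs : ⟪ν, Js t₀⟫_ℝ ≠ 0 := by
    intro h0; rw [h0, zero_smul] at es1; exact hst es1
  have hqu : ⟪ν, Ju t₀⟫_ℝ ≠ 0 := by
    intro h0; rw [h0, zero_smul] at eu1; exact hut eu1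
  have hV : ∀ (k : ℝ) ξ, (fun ξ => fderiv ℝ (Φ L) (p, e) (fderiv ℝ I 0 ξ)) (k • ξ)
      = k • (fun ξ => fderiv ℝ (Φ L) (p, e) (fderiv ℝ I 0 ξ)) ξ := by
    intro k ξ
    simp only [map_smul]
  have nu := normalise (ν := ν) (V := fun ξ => fderiv ℝ (Φ L) (p, e) (fderiv ℝ I 0 ξ)) hV hqu eu2
  have ns := normalise (ν := ν) (V := fun ξ => fderiv ℝ (Φ L) (p, e) (fderiv ℝ I 0 ξ)) hV hqs es2
  have hyp : HypData Φ p e ν I L := ⟨lam, mu, _, _, hmu, hlam, nu, ns⟩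
  obtain ⟨C, hC, PP, A₁, hA₁, htube⟩ := tube h hs he1 hν1 heν heT hνT hL hΦper hyp
  -- the base point of `I (u, φ)`
  obtain ⟨ρ, hρ, hρr, hbase⟩ : ∃ ρ > 0, ρ ≤ r ∧ ∀ w : ℝ × ℝ, ‖w‖ < ρ → (I w).1 = ψ (0, w.1) := by
    have hIc : ContinuousAt I 0 := hs.I_diff.continuousAt
    have h1 : ∀ᶠ w in 𝓝 (0 : ℝ × ℝ), (I w).1 ∈ Metric.ball p r :=
      hIc.fst.preimage_mem_nhds (by rw [hs.I_zero]; exact Metric.ball_mem_nhds _ hs.pos)
    have hψc : ContinuousAt ψ 0 := hs.psi_cont.continuousAt (Metric.ball_mem_nhds _ hs.pos)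
    have h2 : ∀ᶠ x in 𝓝 (0 : ℝ × ℝ), ψ x ∈ Metric.ball p r :=
      hψc.preimage_mem_nhds (by rw [hs.psi_zero]; exact Metric.ball_mem_nhds _ hs.pos)
    have hc0 : Continuous fun w : ℝ × ℝ => ((0 : ℝ), w.1) := by fun_prop
    have h3 : Tendsto (fun w : ℝ × ℝ => ((0 : ℝ), w.1)) (𝓝 0) (𝓝 0) := by
      have := hc0.tendsto (0 : ℝ × ℝ)
      exact this
    obtain ⟨ε, hε, hε'⟩ := Metric.eventually_nhds_iff.1 (h1.and (h3.eventually h2))
    refine ⟨min ε r, lt_min hε hs.pos, min_le_right _ _, fun w hw => ?_⟩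
    have hwr : w ∈ Metric.ball (0 : ℝ × ℝ) r := by
      rw [Metric.mem_ball, dist_zero_right]; exact hw.trans_le (min_le_right _ _)
    have hwr' : ((0 : ℝ), w.1) ∈ Metric.ball (0 : ℝ × ℝ) r := by
      rw [Metric.mem_ball, dist_zero_right]
      refine lt_of_le_of_lt ?_ (hw.trans_le (min_le_right _ _))
      rw [Prod.norm_def]
      exact max_le (by simp) (norm_fst_le w)
    obtain ⟨g1, g2⟩ := hε' (y := w) (by rw [dist_zero_right]; exact hw.trans_le (min_le_left _ _))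
    obtain ⟨a1, a2, a3, a4, -, -⟩ := hs.I_mem w hwr
    obtain ⟨d1, d2, d3⟩ := hs.psi_mem _ hwr'
    exact hs.inj _ (fst_mem_TSet a1) _ d1 g1 g2 (by rw [a3, d2]) (by rw [a4, d3])
  -- choice of the size
  set a₀ : ℝ := min A₁ (ρ / (2 * (C + 1))) with ha₀def
  have ha₀ : 0 < a₀ := lt_min hA₁ (by positivity)
  have haA : a₀ ≤ A₁ := min_le_left _ _
  have haρ : (C + 1) * a₀ < ρ := by
    have h1 : a₀ ≤ ρ / (2 * (C + 1)) := min_le_right _ _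
    rw [le_div_iff₀ (by positivity)] at h1
    nlinarith
  set R : ℝ := (C + 1) * a₀ with hR
  have hR0 : 0 ≤ R := by positivity
  have haR : a₀ ≤ R := by rw [hR]; nlinarith
  have hCR : C * a₀ ≤ R := by rw [hR]; nlinarith
  have hfb : Fib I r (ψ (0, a₀)) a₀ R := by
    refine ⟨haρ.trans_le hρr, hR0, by rw [abs_of_pos ha₀]; exact haR, fun φ hφ => ?_⟩
    refine hbase (a₀, φ) ?_
    rw [Prod.norm_def]
    refine max_lt ?_ (lt_of_le_of_lt hφ haρ)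
    show ‖a₀‖ < ρ
    rw [Real.norm_eq_abs, abs_of_pos ha₀]
    exact lt_of_le_of_lt haR haρ
  have h0r : (0 : ℝ × ℝ) ∈ Metric.ball (0 : ℝ × ℝ) r := Metric.mem_ball_self hs.pos
  obtain ⟨N, hN0, hN⟩ := bad_null h hs hsec he1 hν1 (isGeo_gam h hs h0r).1
    (by rw [deriv_gam_zero h hs h0r, hs.I_zero]; exact he1) (L := 2 * L) (by positivity) hfb
  -- a good target
  set Q : Set (ℝ × ℝ) := Ioo (-(a₀ / 16)) (a₀ / 16) ×ˢ Ioo (a₀ / 4) (a₀ / 2) with hQ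
  have hQo : IsOpen Q := isOpen_Ioo.prod isOpen_Ioo
  have hQne : Q.Nonempty := ⟨(0, a₀ * 3 / 8), ⟨by constructor <;> linarith, by constructor <;> linarith⟩⟩
  have hQpos : 0 < volume Q := hQo.measure_pos volume hQne
  obtain ⟨⟨a, b⟩, hab, habN⟩ : ∃ x ∈ Q, x ∉ N := by
    by_contra hcon
    push Not at hcon
    have h1 := measure_mono_null (μ := volume) (show Q ⊆ N from hcon) hN0
    exact hQpos.ne' h1
  obtain ⟨⟨hab1, hab2⟩, hab3, hab4⟩ := hab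
  simp only at hab1 hab2 hab3 hab4
  have habr : (a, b) ∈ Metric.ball (0 : ℝ × ℝ) r := by
    rw [Metric.mem_ball, dist_zero_right, Prod.norm_def]
    refine max_lt ?_ ?_
    · show ‖a‖ < r
      rw [Real.norm_eq_abs, abs_lt]; constructor <;> linarith
    · show ‖b‖ < r
      rw [Real.norm_eq_abs, abs_lt]; constructor <;> linarith
  obtain ⟨hCr, σ, hσ0, hσ1, n₀, hn₀⟩ := htube a₀ ha₀ haA
  refine endgame (PP := PP) h hs hsec hL hC ha₀ hσ0 hσ1 hfb hCR hab3 habr habN hN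
    (n₀ := n₀) fun n hn => ?_
  obtain ⟨w, T, s, k1, k2, k3, k4, k5, k6, k7, k8, k9, k10⟩ := hn₀ n hn a₀
    (by rw [abs_of_pos ha₀]) a b (abs_le.2 ⟨hab1.le, hab2.le⟩)
    (abs_le.2 ⟨by linarith, hab4.le⟩)
  exact ⟨w, T, s, k1, k3, k4, k5, k6, k7, k8, k9, k10⟩

end Pool.Agent.H91.GE
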