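import Pool.Agent.H91.GE.Cross

/-!
# The exceptional end points form a null set
-/

set_option autoImplicit false

open scoped InnerProductSpace Topology ContDiff
open Set Filter MeasureTheory

namespace Pool.Agent.H91.GE

/-- A compact planar set with finite vertical fibres (up to finitely many) is null. -/
theorem null_of_fib {W : Set (ℝ × ℝ)} (hW : IsCompact W) {Ex : Set ℝ} (hEx : Ex.Finite)
    (hf : ∀ x, x ∉ Ex → {t | (x, t) ∈ W}.Finite) : volume W = 0 := by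
  have h1 : (volume : Measure (ℝ × ℝ)) = (volume : Measure ℝ).prod volume := rfl
  rw [h1, Measure.measure_prod_null hW.isClosed.measurableSet]
  have h2 : ∀ᵐ x : ℝ, x ∉ Ex := by
    have := hEx.countable.ae_notMem (volume : Measure ℝ)
    exact this
  filter_upwards [h2] with x hx
  exact (hf x hx).measure_zero volume

/-- Lipschitz images of null sets are null. -/
theorem null_image {W : Set (ℝ × ℝ)} (hW : volume W = 0) {g : ℝ × ℝ → ℝ × ℝ} {C : NNReal}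
    (hg : LipschitzOnWith C g W) : volume (g '' W) = 0 := by
  have h1 := hg.hausdorffMeasure_image_le (d := 2) (by norm_num)
  rw [hausdorffMeasure_prod_real, hW, mul_zero] at h1
  exact le_antisymm h1 zero_le

variable {E F : Type*} [NormedAddCommGroup E] [InnerProductSpace ℝ E] [FiniteDimensional ℝ E]
  [NormedAddCommGroup F] [InnerProductSpace ℝ F] [FiniteDimensional ℝ F]
  {S : Set E} {A : E × E → E} {K K₂ : NNReal} {Φ : ℝ → E × E → E × E}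
  {p e ν : E} {ψ : ℝ × ℝ → E} {I : ℝ × ℝ → E × E} {r : ℝ} {c : ℝ → E}

theorem gam_lip (h : GFlow F S A K K₂ Φ) (hs : Sec S p e ν ψ I r) {m : ℝ} (hm : 0 ≤ m) :
    ∃ C : ℝ, 0 ≤ C ∧ ∀ w ∈ Metric.ball (0 : ℝ × ℝ) r, ∀ w' ∈ Metric.ball (0 : ℝ × ℝ) r,
      ∀ t ∈ Icc 0 m, ∀ t' ∈ Icc 0 m,
        dist (gam Φ I w t) (gam Φ I w' t') ≤ C * dist w w' + |t - t'| := by
  obtain ⟨CI, hCI⟩ := hs.I_lip
  refine ⟨CI * Real.exp (K * m), by positivity, fun w hw w' hw' t ht t' ht' => ?_⟩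
  have h1 : dist (gam Φ I w t) (gam Φ I w' t) ≤ CI * Real.exp (K * m) * dist w w' := by
    have h2 := h.flow.dist_le h.vf t (I w) (I w')
    have h3 : dist (gam Φ I w t) (gam Φ I w' t) ≤ dist (Φ t (I w)) (Φ t (I w')) := by
      rw [Prod.dist_eq]; exact le_max_left _ _
    have h4 : Real.exp (K * |t|) ≤ Real.exp (K * m) := by
      refine Real.exp_le_exp.2 (mul_le_mul_of_nonneg_left ?_ K.2)
      rw [abs_of_nonneg ht.1]; exact ht.2
    have h5 := hCI.dist_le_mul w hw w' hw'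
    calc dist (gam Φ I w t) (gam Φ I w' t) ≤ _ := h3
      _ ≤ dist (I w) (I w') * Real.exp (K * |t|) := h2
      _ ≤ (CI * dist w w') * Real.exp (K * m) := mul_le_mul h5 h4 (Real.exp_pos _).le (by positivity)
      _ = _ := by ring
  have h2 : dist (gam Φ I w' t) (gam Φ I w' t') ≤ |t - t'| := by
    obtain ⟨a1, a2, -⟩ := hs.I_mem w' hw'
    obtain ⟨b1, b2⟩ := h.mem a1 (by rw [a2]; norm_num) t'
    have h3 := h.dist_fst_le b1 (by rw [b2, a2]) (t - t')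
    rw [← h.flow.add h.vf, sub_add_cancel] at h3
    exact h3
  exact (dist_triangle _ (gam Φ I w' t) _).trans (add_le_add h1 h2)

section

variable (S p e ν ψ I r) in
/-- Hypotheses on the starting point `x`: all `I (u, φ)`, `|φ| ≤ R`, lie over `x`. -/
structure Fib (x : E) (u R : ℝ) : Prop where
  hR : R < r
  hR0 : 0 ≤ R
  hu : |u| ≤ R
  base : ∀ φ, |φ| ≤ R → (I (u, φ)).1 = x

theorem Fib.mem {x : E} {u R : ℝ} (hfb : Fib I r x u R) {φ : ℝ} (hφ : |φ| ≤ R) :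
    (u, φ) ∈ Metric.ball (0 : ℝ × ℝ) r := by
  rw [Metric.mem_ball, dist_zero_right, Prod.norm_def]
  exact max_lt (lt_of_le_of_lt hfb.hu hfb.hR) (lt_of_le_of_lt hφ hfb.hR)

/-- Directions tangent to `c` are finite in number. -/
theorem tangent_dirs (h : GFlow F S A K K₂ Φ) (hs : Sec S p e ν ψ I r) (hc : IsGeo S c)
    (hc1 : ‖deriv c 0‖ = 1) {x : E} {u R : ℝ} (hfb : Fib I r x u R) (C : ℝ) :
    {φ : ℝ | |φ| ≤ R ∧ ∃ t₁ ∈ Icc (-C) C, ∃ σ : ℝ, (σ = 1 ∨ σ = -1) ∧ c t₁ = x ∧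
      (I (u, φ)).2 = σ • deriv c t₁}.Finite := by
  have hd : deriv c 0 ≠ 0 := by
    intro h0; rw [h0, norm_zero] at hc1; exact zero_ne_one hc1
  have hfin := ((finite_level S hc hd x C).prod (Set.toFinite ({1, -1} : Set ℝ))).image
    (fun y : ℝ × ℝ => y.2 • deriv c y.1)
  refine Set.Finite.of_injOn (f := fun φ => (I (u, φ)).2) ?_ ?_ hfin
  · rintro φ ⟨-, t₁, ht₁, σ, hσ, hx, he⟩
    refine ⟨(t₁, σ), ⟨⟨ht₁, hx⟩, ?_⟩, he.symm⟩
    rcases hσ with h1 | h1 <;> simp [h1]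
  · rintro φ ⟨hφ, -⟩ φ' ⟨hφ', -⟩ he
    have h1 : I (u, φ) = I (u, φ') :=
      Prod.ext ((hfb.base φ hφ).trans (hfb.base φ' hφ').symm) he
    have h2 := hs.I_inj (hfb.mem hφ) (hfb.mem hφ') h1
    exact congrArg Prod.snd h2

theorem loop_dirs (h : GFlow F S A K K₂ Φ) (hs : Sec S p e ν ψ I r) (hsec : Secure S)
    {x z : E} (hx : x ∈ S) (hz : z ∈ S) {u R : ℝ} (hfb : Fib I r x u R) (T : ℝ) :
    {φ : ℝ | |φ| ≤ R ∧ ∃ t, 0 < |t| ∧ |t| ≤ T ∧ gam Φ I (u, φ) t = z}.Finite := by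
  refine Set.Finite.of_injOn (f := fun φ => (u, φ)) ?_ ?_ (dir_finite h hs hsec hx hz T)
  · rintro φ ⟨hφ, ht⟩
    exact ⟨hfb.mem hφ, hfb.base φ hφ, ht⟩
  · intro φ _ φ' _ he
    exact congrArg Prod.snd he

/-- Two different directions which are not loops: finitely many intersections. -/
theorem inter_finite (h : GFlow F S A K K₂ Φ) (hs : Sec S p e ν ψ I r) {x : E} {u R : ℝ}
    (hfb : Fib I r x u R) {φ φ' : ℝ} (hφ : |φ| ≤ R) (hφ' : |φ'| ≤ R) (hne : φ ≠ φ') {m : ℝ}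
    (hloop : ∀ t, 0 < |t| → |t| ≤ 2 * m → gam Φ I (u, φ) t ≠ x) :
    {t | t ∈ Icc 0 m ∧ ∃ t' ∈ Icc 0 m, gam Φ I (u, φ) t = gam Φ I (u, φ') t'}.Finite := by
  by_contra hinf
  obtain ⟨g1, g2⟩ := isGeo_gam h hs (hfb.mem hφ)
  obtain ⟨g1', g2'⟩ := isGeo_gam h hs (hfb.mem hφ')
  have hn : ‖deriv (gam Φ I (u, φ)) 0‖ = 1 := by
    rw [deriv_gam_zero h hs (hfb.mem hφ)]; exact (hs.I_mem _ (hfb.mem hφ)).2.1
  have hn' : ‖deriv (gam Φ I (u, φ')) 0‖ = 1 := by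
    rw [deriv_gam_zero h hs (hfb.mem hφ')]; exact (hs.I_mem _ (hfb.mem hφ')).2.1
  obtain ⟨t, ht, t', ht', σ, hσ, heq⟩ := inter h.compact h.sub g1 g1' hn hn' hinf
  have hσσ : σ * σ = 1 := by rcases hσ with h1 | h1 <;> rw [h1] <;> norm_num
  have h1 := heq (-σ * t')
  have h2 : t' + σ * (-σ * t') = 0 := by
    have : σ * (-σ * t') = -(σ * σ) * t' := by ring
    rw [this, hσσ]; ring
  rw [h2, gam_zero h, hfb.base φ' hφ'] at h1
  have h3 : t + -σ * t' = 0 := by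
    by_contra hne0
    refine hloop (t + -σ * t') (abs_pos.2 hne0) ?_ h1
    have h4 : |t + -σ * t'| ≤ |t| + |-σ * t'| := abs_add_le _ _
    have h5 : |-σ * t'| = |t'| := by
      rw [abs_mul, abs_neg]
      rcases hσ with h1 | h1 <;> rw [h1] <;> simp
    rw [h5, abs_of_nonneg ht.1, abs_of_nonneg ht'.1] at h4
    linarith [ht.2, ht'.2]
  -- velocities at `0`
  have hvel : deriv (gam Φ I (u, φ)) 0 = σ • deriv (gam Φ I (u, φ')) 0 := by
    have h4 : (fun s => gam Φ I (u, φ) (0 + 1 * s)) = fun s => gam Φ I (u, φ') (0 + σ * s) := by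
      funext s
      have h5 := heq (s - t)
      have h6 : t + (s - t) = 0 + 1 * s := by ring
      have h7 : t' + σ * (s - t) = 0 + σ * s := by
        have h8 : t = σ * t' := by linarith
        have h9 : σ * t = t' := by rw [h8, ← mul_assoc, hσσ, one_mul]
        rw [mul_sub, h9]; ring
      rw [h6, h7] at h5
      exact h5
    have h5 := congrArg (fun g => deriv g 0) h4
    simp only [deriv_affine g1, deriv_affine g1', mul_zero, add_zero, one_smul] at h5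
    exact h5
  rw [deriv_gam_zero h hs (hfb.mem hφ), deriv_gam_zero h hs (hfb.mem hφ')] at hvel
  have hpos := (hs.I_mem _ (hfb.mem hφ)).2.2.2.2.1
  have hpos' := (hs.I_mem _ (hfb.mem hφ')).2.2.2.2.1
  rcases hσ with h1 | h1
  · rw [h1, one_smul] at hvel
    have h2 := hs.I_inj (hfb.mem hφ) (hfb.mem hφ')
      (Prod.ext ((hfb.base φ hφ).trans (hfb.base φ' hφ').symm) hvel)
    exact hne (congrArg Prod.snd h2)
  · rw [h1, neg_one_smul] at hvel
    rw [hvel, inner_neg_right] at hpos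
    linarith

end

/-- The exceptional set. -/
theorem bad_null (h : GFlow F S A K K₂ Φ) (hs : Sec S p e ν ψ I r) (hsec : Secure S)
    (he1 : ‖e‖ = 1) (hν1 : ‖ν‖ = 1) (hc : IsGeo S c) (hc1 : ‖deriv c 0‖ = 1) {L : ℝ} (hL : 0 ≤ L)
    {x : E} {u R : ℝ} (hfb : Fib I r x u R) :
    ∃ N : Set (ℝ × ℝ), volume N = 0 ∧ ∀ y φ, |φ| ≤ R → ∀ t, 0 ≤ t → gam Φ I (u, φ) t = y →
      ((∃ s, 0 < |s| ∧ gam Φ I (u, φ) s = x) ∨
        ∃ φ', |φ'| ≤ R ∧ φ' ≠ φ ∧ ∃ s s' t', 0 ≤ s ∧ 0 ≤ s' ∧ 0 ≤ t' ∧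
          gam Φ I (u, φ) s = gam Φ I (u, φ') s' ∧ gam Φ I (u, φ) s ∈ c '' Icc 0 L ∧
          gam Φ I (u, φ) s ≠ x ∧ gam Φ I (u, φ) t = gam Φ I (u, φ') t') →
      (⟪e, y - p⟫_ℝ, ⟪ν, y - p⟫_ℝ) ∈ N := by
  have hxS : x ∈ S := by
    have h0 : |(0 : ℝ)| ≤ R := by rw [abs_zero]; exact hfb.hR0
    rw [← hfb.base 0 h0]
    exact fst_mem_TSet (hs.I_mem _ (hfb.mem h0)).1
  -- the projected flow
  let G : ℝ × ℝ → ℝ × ℝ := fun y => (⟪e, gam Φ I (u, y.1) y.2 - p⟫_ℝ, ⟪ν, gam Φ I (u, y.1) y.2 - p⟫_ℝ)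
  have hG : ∀ m : ℕ, ∃ C : NNReal, LipschitzOnWith C G (Icc (-R) R ×ˢ Icc (0 : ℝ) m) := by
    intro m
    obtain ⟨C, hC0, hC⟩ := gam_lip h hs (Nat.cast_nonneg m)
    refine ⟨⟨C + 1, by positivity⟩, LipschitzOnWith.of_dist_le_mul ?_⟩
    rintro ⟨φ, t⟩ ⟨hφ, ht⟩ ⟨φ', t'⟩ ⟨hφ', ht'⟩
    have h1 := hC _ (hfb.mem (abs_le.2 ⟨hφ.1, hφ.2⟩)) _ (hfb.mem (abs_le.2 ⟨hφ'.1, hφ'.2⟩)) t ht t' ht'
    have h2 : dist (u, φ) (u, φ') ≤ dist (φ, t) (φ', t') := by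
      rw [Prod.dist_eq, Prod.dist_eq]
      simp only [dist_self]
      exact max_le (le_max_of_le_left dist_nonneg) (le_max_left _ _)
    have h3 : |t - t'| ≤ dist (φ, t) (φ', t') := by
      rw [Prod.dist_eq, ← Real.dist_eq]; exact le_max_right _ _
    have h4 : dist (gam Φ I (u, φ) t) (gam Φ I (u, φ') t') ≤ (C + 1) * dist (φ, t) (φ', t') := by
      calc _ ≤ C * dist (u, φ) (u, φ') + |t - t'| := h1
        _ ≤ C * dist (φ, t) (φ', t') + dist (φ, t) (φ', t') :=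
          add_le_add (mul_le_mul_of_nonneg_left h2 hC0) h3
        _ = _ := by ring
    have h5 : ∀ a : E, ‖a‖ = 1 → dist ⟪a, gam Φ I (u, φ) t - p⟫_ℝ ⟪a, gam Φ I (u, φ') t' - p⟫_ℝ
        ≤ dist (gam Φ I (u, φ) t) (gam Φ I (u, φ') t') := by
      intro a ha
      rw [Real.dist_eq, ← inner_sub_right, sub_sub_sub_cancel_right, dist_eq_norm]
      have := abs_real_inner_le_norm a (gam Φ I (u, φ) t - gam Φ I (u, φ') t')
      rwa [ha, one_mul] at this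
    show dist (G (φ, t)) (G (φ', t')) ≤ (C + 1) * dist (φ, t) (φ', t')
    rw [Prod.dist_eq]
    exact (max_le (h5 e he1) (h5 ν hν1)).trans h4
  -- a globally continuous version
  let i : ℝ → ℝ := fun φ => max (-R) (min R φ)
  have hi1 : ∀ φ, |i φ| ≤ R := by
    intro φ
    have := hfb.hR0
    rw [abs_le]
    exact ⟨le_max_left _ _, max_le (by linarith) (min_le_left _ _)⟩
  have hi2 : ∀ φ, |φ| ≤ R → i φ = φ := by
    intro φ hφ
    rw [abs_le] at hφ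
    show max (-R) (min R φ) = φ
    rw [min_eq_right hφ.2, max_eq_right hφ.1]
  have hic : Continuous i := continuous_const.max (continuous_const.min continuous_id)
  have hIc : Continuous fun φ => I (u, i φ) := by
    obtain ⟨CI, hCI⟩ := hs.I_lip
    exact hCI.continuousOn.comp_continuous (continuous_const.prodMk hic)
      fun φ => hfb.mem (hi1 φ)
  let g : ℝ × ℝ → E := fun y => gam Φ I (u, i y.1) y.2
  have hgc : Continuous g := by
    have h1 : Continuous fun y : ℝ × ℝ => Φ y.2 (I (u, i y.1)) :=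
      (h.flow.continuous h.vf).comp (continuous_snd.prodMk (hIc.comp continuous_fst))
    exact h1.fst
  have hOcl : IsCompact (c '' Icc 0 L) := isCompact_Icc.image hc.continuous
  -- the compact pieces
  let B : ℕ → Set (ℝ × ℝ) := fun m => Icc (-R) R ×ˢ Icc (0 : ℝ) m
  let Kc : ℕ → ℕ → Set ((ℝ × ℝ) × ((ℝ × ℝ) × (ℝ × ℝ))) := fun m k =>
    {y | y.1 ∈ B m ∧ y.2.1 ∈ B m ∧ y.2.2 ∈ Icc (0 : ℝ) m ×ˢ Icc (0 : ℝ) m ∧
      1 / ((k : ℝ) + 1) ≤ |y.1.1 - y.2.1.1| ∧ g (y.1.1, y.2.2.1) = g (y.2.1.1, y.2.2.2) ∧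
      g (y.1.1, y.2.2.1) ∈ c '' Icc 0 L ∧ 1 / ((k : ℝ) + 1) ≤ dist (g (y.1.1, y.2.2.1)) x ∧
      g y.1 = g y.2.1}
  have hBc : ∀ m, IsCompact (B m) := fun m => isCompact_Icc.prod isCompact_Icc
  have hKc : ∀ m k, IsCompact (Kc m k) := by
    intro m k
    have hg1 : Continuous fun y : (ℝ × ℝ) × ((ℝ × ℝ) × (ℝ × ℝ)) => g (y.1.1, y.2.2.1) :=
      hgc.comp ((continuous_fst.fst).prodMk (continuous_snd.snd.fst))
    have hg2 : Continuous fun y : (ℝ × ℝ) × ((ℝ × ℝ) × (ℝ × ℝ)) => g (y.2.1.1, y.2.2.2) :=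
      hgc.comp ((continuous_snd.fst.fst).prodMk (continuous_snd.snd.snd))
    have hg3 : Continuous fun y : (ℝ × ℝ) × ((ℝ × ℝ) × (ℝ × ℝ)) => g y.1 := hgc.comp continuous_fst
    have hg4 : Continuous fun y : (ℝ × ℝ) × ((ℝ × ℝ) × (ℝ × ℝ)) => g y.2.1 :=
      hgc.comp continuous_snd.fst
    have hbig : IsCompact (B m ×ˢ (B m ×ˢ (Icc (0 : ℝ) m ×ˢ Icc (0 : ℝ) m))) :=
      (hBc m).prod ((hBc m).prod (isCompact_Icc.prod isCompact_Icc))
    have hcl : IsClosed {y : (ℝ × ℝ) × ((ℝ × ℝ) × (ℝ × ℝ)) |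
        1 / ((k : ℝ) + 1) ≤ |y.1.1 - y.2.1.1| ∧ g (y.1.1, y.2.2.1) = g (y.2.1.1, y.2.2.2) ∧
        g (y.1.1, y.2.2.1) ∈ c '' Icc 0 L ∧ 1 / ((k : ℝ) + 1) ≤ dist (g (y.1.1, y.2.2.1)) x ∧
        g y.1 = g y.2.1} := by
      refine (isClosed_le continuous_const ((continuous_fst.fst.sub continuous_snd.fst.fst).abs)).inter
        ((isClosed_eq hg1 hg2).inter ((hOcl.isClosed.preimage hg1).inter
          ((isClosed_le continuous_const (hg1.dist continuous_const)).inter (isClosed_eq hg3 hg4))))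
    refine (hbig.inter_right hcl).of_isClosed_subset ?_ ?_
    · have : Kc m k = (B m ×ˢ (B m ×ˢ (Icc (0 : ℝ) m ×ˢ Icc (0 : ℝ) m))) ∩
          {y : (ℝ × ℝ) × ((ℝ × ℝ) × (ℝ × ℝ)) |
          1 / ((k : ℝ) + 1) ≤ |y.1.1 - y.2.1.1| ∧ g (y.1.1, y.2.2.1) = g (y.2.1.1, y.2.2.2) ∧
          g (y.1.1, y.2.2.1) ∈ c '' Icc 0 L ∧ 1 / ((k : ℝ) + 1) ≤ dist (g (y.1.1, y.2.2.1)) x ∧
          g y.1 = g y.2.1} := by
        ext y
        constructor
        · rintro ⟨h1, h2, h3, h4⟩; exact ⟨⟨h1, h2, h3⟩, h4⟩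
        · rintro ⟨⟨h1, h2, h3⟩, h4⟩; exact ⟨h1, h2, h3, h4⟩
      rw [this]
      exact hbig.isClosed.inter hcl
    · rintro y ⟨h1, h2, h3, h4⟩
      exact ⟨⟨h1, h2, h3⟩, h4⟩
  let W : ℕ → ℕ → Set (ℝ × ℝ) := fun m k => Prod.fst '' Kc m k
  have hWc : ∀ m k, IsCompact (W m k) := fun m k => (hKc m k).image continuous_fst
  have hWB : ∀ m k, W m k ⊆ B m := by
    rintro m k _ ⟨y, hy, rfl⟩
    exact hy.1
  -- finite fibres
  have hW0 : ∀ m k, volume (W m k) = 0 := by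
    intro m k
    refine null_of_fib (hWc m k)
      (Ex := {φ : ℝ | |φ| ≤ R ∧ ∃ t, 0 < |t| ∧ |t| ≤ 2 * (m : ℝ) ∧ gam Φ I (u, φ) t = x} ∪
        {φ : ℝ | |φ| ≤ R ∧ ∃ t₁ ∈ Icc (-((m : ℝ) + L)) ((m : ℝ) + L), ∃ σ : ℝ, (σ = 1 ∨ σ = -1) ∧
          c t₁ = x ∧ (I (u, φ)).2 = σ • deriv c t₁})
      ((loop_dirs h hs hsec hxS hxS hfb (2 * m)).union (tangent_dirs h hs hc hc1 hfb (m + L))) ?_
    intro φ hφEx
    by_cases hφR : |φ| ≤ R
    swap
    · have : {t | (φ, t) ∈ W m k} = ∅ := by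
        rw [eq_empty_iff_forall_notMem]
        intro t ht
        have := (hWB m k ht).1
        exact hφR (abs_le.2 ⟨this.1, this.2⟩)
      rw [this]; exact finite_empty
    simp only [mem_union, mem_setOf_eq, not_or, not_and, hφR, true_implies] at hφEx
    obtain ⟨hloop, htan⟩ := hφEx
    have hloop' : ∀ t, 0 < |t| → |t| ≤ 2 * (m : ℝ) → gam Φ I (u, φ) t ≠ x := fun t h1 h2 h3 =>
      hloop ⟨t, h1, h2, h3⟩
    -- the times at which `c` is met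
    set S₁ : Set ℝ := {s | s ∈ Icc (0 : ℝ) m ∧ ∃ t' ∈ Icc 0 L, gam Φ I (u, φ) s = c t'} with hS₁
    have hS₁f : S₁.Finite := by
      by_contra hinf
      obtain ⟨g1, g2⟩ := isGeo_gam h hs (hfb.mem hφR)
      have hn : ‖deriv (gam Φ I (u, φ)) 0‖ = 1 := by
        rw [deriv_gam_zero h hs (hfb.mem hφR)]; exact (hs.I_mem _ (hfb.mem hφR)).2.1
      obtain ⟨t, ht, t', ht', σ, hσ, heq⟩ := inter h.compact h.sub g1 hc hn hc1 hinf
      refine htan ⟨t' + σ * (-t), ?_, σ, hσ, ?_, ?_⟩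
      · have h1 : |t' + σ * (-t)| ≤ m + L := by
          have h4 : |t' + σ * (-t)| ≤ |t'| + |σ * (-t)| := abs_add_le _ _
          have h5 : |σ * (-t)| = |t| := by
            rw [abs_mul, abs_neg]
            rcases hσ with h1 | h1 <;> rw [h1] <;> simp
          rw [h5, abs_of_nonneg ht.1, abs_of_nonneg ht'.1] at h4
          linarith [ht.2, ht'.2]
        exact abs_le.1 h1
      · rw [← heq, add_neg_cancel, gam_zero h, hfb.base φ hφR]
      · have h4 : (fun s => gam Φ I (u, φ) (0 + 1 * s)) = fun s => c ((t' + σ * (-t)) + σ * s) := by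
          funext s
          have h5 := heq (s - t)
          have h6 : t + (s - t) = 0 + 1 * s := by ring
          have h7 : t' + σ * (s - t) = (t' + σ * (-t)) + σ * s := by ring
          rw [h6, h7] at h5
          exact h5
        have h5 := congrArg (fun g => deriv g 0) h4
        simp only [deriv_affine g1, deriv_affine hc, mul_zero, add_zero, one_smul] at h5
        rw [deriv_gam_zero h hs (hfb.mem hφR)] at h5
        exact h5
    -- the directions through those points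
    let D₁ : ℝ → Set ℝ := fun s => {φ' | |φ'| ≤ R ∧ ∃ t, 0 < |t| ∧ |t| ≤ (m : ℝ) ∧
      gam Φ I (u, φ') t = gam Φ I (u, φ) s}
    have hD₁ : ∀ s, (D₁ s).Finite := fun s =>
      loop_dirs h hs hsec hxS ((isGeo_gam h hs (hfb.mem hφR)).1.mem s) hfb m
    have hbig : (⋃ s ∈ S₁, ⋃ φ' ∈ D₁ s \ {φ}, {t | t ∈ Icc (0 : ℝ) m ∧ ∃ t' ∈ Icc (0 : ℝ) m,
        gam Φ I (u, φ) t = gam Φ I (u, φ') t'}).Finite := by
      refine hS₁f.biUnion fun s _ => ((hD₁ s).subset sdiff_subset).biUnion fun φ' hφ' => ?_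
      exact inter_finite h hs hfb hφR hφ'.1.1 (fun he => hφ'.2 he.symm) hloop'
    refine hbig.subset ?_
    rintro t ⟨⟨⟨φ₀, t₀⟩, ⟨⟨φ', t'⟩, ⟨s, s'⟩⟩⟩, ⟨h1, h2, h3, h4, h5, h6, h7, h8⟩, he⟩
    have he' : (φ₀, t₀) = (φ, t) := he
    rw [Prod.mk.injEq] at he'
    obtain ⟨rfl, rfl⟩ := he'
    simp only at h4 h5 h6 h7 h8
    have hφ' : |φ'| ≤ R := abs_le.2 ⟨h2.1.1, h2.1.2⟩
    have e1 : ∀ y, g (φ₀, y) = gam Φ I (u, φ₀) y := fun y => by
      show gam Φ I (u, i φ₀) y = _; rw [hi2 φ₀ hφR]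
    have e2 : ∀ y, g (φ', y) = gam Φ I (u, φ') y := fun y => by
      show gam Φ I (u, i φ') y = _; rw [hi2 φ' hφ']
    rw [e1, e2] at h5
    rw [e1] at h6 h7
    rw [e1, e2] at h8
    have hk : (0 : ℝ) < 1 / ((k : ℝ) + 1) := by positivity
    simp only [mem_iUnion]
    refine ⟨s, ⟨h3.1, ?_⟩, φ', ⟨⟨hφ', s', ?_, ?_, h5.symm⟩, ?_⟩, h1.2, t', h2.2, h8⟩
    · obtain ⟨t'', ht'', he''⟩ := h6
      exact ⟨t'', ht'', he''.symm⟩
    · rw [abs_pos]
      intro h0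
      rw [h0, gam_zero h, hfb.base φ' hφ'] at h5
      rw [h5, dist_self] at h7
      linarith
    · rw [abs_of_nonneg h3.2.1]; exact h3.2.2
    · intro h0
      have h0' : φ' = φ₀ := h0
      rw [h0', sub_self, abs_zero] at h4
      linarith
  -- the loops
  let V : ℕ → Set (ℝ × ℝ) := fun m =>
    {φ : ℝ | |φ| ≤ R ∧ ∃ t, 0 < |t| ∧ |t| ≤ (m : ℝ) ∧ gam Φ I (u, φ) t = x} ×ˢ Icc (0 : ℝ) m
  have hV0 : ∀ m, volume (V m) = 0 := by
    intro m
    have hfin := loop_dirs h hs hsec hxS hxS hfb (m : ℝ)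
    have h1 : (volume : Measure (ℝ × ℝ)) = (volume : Measure ℝ).prod volume := rfl
    show volume ({φ : ℝ | |φ| ≤ R ∧ ∃ t, 0 < |t| ∧ |t| ≤ (m : ℝ) ∧ gam Φ I (u, φ) t = x}
      ×ˢ Icc (0 : ℝ) m) = 0
    rw [h1, Measure.prod_prod, hfin.measure_zero volume, zero_mul]
  have hVB : ∀ m, V m ⊆ B m := by
    rintro m ⟨φ, t⟩ ⟨h1, h2⟩
    exact ⟨abs_le.1 h1.1, h2⟩
  refine ⟨(⋃ m : ℕ, ⋃ k : ℕ, G '' W m k) ∪ ⋃ m : ℕ, G '' V m, ?_, ?_⟩
  · rw [measure_union_null_iff]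
    constructor
    · rw [measure_iUnion_null_iff]
      intro m
      rw [measure_iUnion_null_iff]
      intro k
      obtain ⟨C, hC⟩ := hG m
      exact null_image (hW0 m k) (hC.mono (hWB m k))
    · rw [measure_iUnion_null_iff]
      intro m
      obtain ⟨C, hC⟩ := hG m
      exact null_image (hV0 m) (hC.mono (hVB m))
  · intro y φ hφ t ht hy hor
    rcases hor with ⟨s, hs0, hsx⟩ | ⟨φ', hφ', hne, s, s', t', hs0, hs0', ht0', e1, e2, e3, e4⟩
    · right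
      obtain ⟨m, hm⟩ := exists_nat_ge (max |s| t)
      rw [mem_iUnion]
      refine ⟨m, (φ, t), ⟨⟨hφ, s, hs0, (le_max_left _ _).trans hm, hsx⟩, ht,
        (le_max_right _ _).trans hm⟩, ?_⟩
      show (⟪e, gam Φ I (u, φ) t - p⟫_ℝ, ⟪ν, gam Φ I (u, φ) t - p⟫_ℝ) = _
      rw [hy]
    · left
      obtain ⟨m, hm⟩ := exists_nat_ge (max (max s s') (max t t'))
      have hm1 : s ≤ m := ((le_max_left _ _).trans (le_max_left _ _)).trans hm
      have hm2 : s' ≤ m := ((le_max_right _ _).trans (le_max_left _ _)).trans hm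
      have hm3 : t ≤ m := ((le_max_left _ _).trans (le_max_right _ _)).trans hm
      have hm4 : t' ≤ m := ((le_max_right _ _).trans (le_max_right _ _)).trans hm
      have hpos : 0 < min |φ - φ'| (dist (gam Φ I (u, φ) s) x) :=
        lt_min (abs_pos.2 (sub_ne_zero.2 hne.symm)) (dist_pos.2 e3)
      obtain ⟨k, hk⟩ := exists_nat_one_div_lt hpos
      rw [mem_iUnion₂]
      have g1 : ∀ y, g (φ, y) = gam Φ I (u, φ) y := fun y => by
        show gam Φ I (u, i φ) y = _; rw [hi2 φ hφ]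
      have g2 : ∀ y, g (φ', y) = gam Φ I (u, φ') y := fun y => by
        show gam Φ I (u, i φ') y = _; rw [hi2 φ' hφ']
      refine ⟨m, k, (φ, t), ⟨((φ, t), ((φ', t'), (s, s'))), ⟨⟨abs_le.1 hφ, ht, hm3⟩,
        ⟨abs_le.1 hφ', ht0', hm4⟩, ⟨⟨hs0, hm1⟩, hs0', hm2⟩, ?_, ?_, ?_, ?_, ?_⟩, rfl⟩, ?_⟩
      · exact hk.le.trans (min_le_left _ _)
      · show g (φ, s) = g (φ', s')
        rw [g1, g2]; exact e1
      · show g (φ, s) ∈ _
        rw [g1]; exact e2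
      · show _ ≤ dist (g (φ, s)) x
        rw [g1]; exact hk.le.trans (min_le_right _ _)
      · show g (φ, t) = g (φ', t')
        rw [g1, g2]; exact e4
      · show (⟪e, gam Φ I (u, φ) t - p⟫_ℝ, ⟪ν, gam Φ I (u, φ) t - p⟫_ℝ) = _
        rw [hy]

end Pool.Agent.H91.GE
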