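import Pool.Agent.H91.GE.Win

/-!
# Orbits with prescribed ends near a hyperbolic fixed point of a planar map
-/

set_option autoImplicit false

open scoped Topology
open Set Filter

namespace Pool.Agent.H91.GE

section

variable {Q : ℝ × ℝ → ℝ × ℝ} {lam mu η A : ℝ}

theorem small_b (hη : 0 ≤ η) (hμ : |mu| < 1) (hη' : η ≤ (1 - |mu|) / 16)
    (hD : Dev Q lam mu η A) (hA : 0 < A) :
    ∃ n₀ : ℕ, ∀ n ≥ n₀, ∀ x : ℕ → ℝ × ℝ, (∀ k < n, x (k + 1) = Q (x k)) →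
      (∀ k ≤ n, |(x k).1| ≤ A ∧ |(x k).2| ≤ 2 * A) → |(x n).2| ≤ A / 4 := by
  have ht : Tendsto (fun n : ℕ => |mu| ^ n * (2 * A)) atTop (𝓝 0) := by
    have h1 := (tendsto_pow_atTop_nhds_zero_of_lt_one (abs_nonneg mu) hμ).mul_const (2 * A)
    rwa [zero_mul] at h1
  obtain ⟨n₀, hn₀⟩ := eventually_atTop.1 (ht.eventually_lt_const (show (0 : ℝ) < A / 8 by positivity))
  refine ⟨n₀, fun n hn x hx hN => ?_⟩
  have key : ∀ k ≤ n, |(x k).2| ≤ |mu| ^ k * (2 * A) + A / 8 := by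
    intro k
    induction k with
    | zero =>
      intro hk
      have := (hN 0 hk).2
      rw [pow_zero, one_mul]; linarith
    | succ k ih =>
      intro hk
      have h1 := ih (by omega)
      obtain ⟨h2, h3⟩ := hN k (by omega)
      obtain ⟨-, h4⟩ := hD (x k) h2 h3
      rw [← hx k (by omega)] at h4
      have hm : max |(x k).1| |(x k).2| ≤ 2 * A := max_le (by linarith) h3
      have hm' : η * max |(x k).1| |(x k).2| ≤ η * (2 * A) := mul_le_mul_of_nonneg_left hm hη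
      have h7 := abs_sub_abs_le_abs_sub ((x (k + 1)).2) (mu * (x k).2)
      rw [abs_mul] at h7
      have h8 : |mu| * |(x k).2| ≤ |mu| * (|mu| ^ k * (2 * A) + A / 8) :=
        mul_le_mul_of_nonneg_left h1 (abs_nonneg _)
      have h9 : η * (2 * A) ≤ (1 - |mu|) / 16 * (2 * A) :=
        mul_le_mul_of_nonneg_right hη' (by positivity)
      rw [pow_succ]
      nlinarith
  have h1 := key n le_rfl
  have h2 := hn₀ n hn
  linarith

end

/-- The linear change of coordinates with columns `(1, α)` and `(1, β)`. -/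
theorem exists_J {α β : ℝ} (hαβ : α ≠ β) :
    ∃ J : (ℝ × ℝ) ≃L[ℝ] (ℝ × ℝ), ∀ x, J x = (x.1 + x.2, α * x.1 + β * x.2) := by
  have hne : β - α ≠ 0 := sub_ne_zero.2 (Ne.symm hαβ)
  let f : ℝ × ℝ →ₗ[ℝ] ℝ × ℝ :=
    { toFun := fun x => (x.1 + x.2, α * x.1 + β * x.2)
      map_add' := fun x y => by ext <;> simp <;> ring
      map_smul' := fun c x => by ext <;> simp <;> ring }
  let g : ℝ × ℝ →ₗ[ℝ] ℝ × ℝ :=
    { toFun := fun x => ((β * x.1 - x.2) / (β - α), (x.2 - α * x.1) / (β - α))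
      map_add' := fun x y => by ext <;> simp <;> field_simp <;> ring
      map_smul' := fun c x => by ext <;> simp <;> field_simp }
  have h1 : f ∘ₗ g = LinearMap.id := by
    refine LinearMap.ext fun x => ?_
    show (((β * x.1 - x.2) / (β - α) + (x.2 - α * x.1) / (β - α)),
      α * ((β * x.1 - x.2) / (β - α)) + β * ((x.2 - α * x.1) / (β - α))) = x
    refine Prod.ext ?_ ?_
    · show (β * x.1 - x.2) / (β - α) + (x.2 - α * x.1) / (β - α) = x.1
      field_simp; ring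
    · show α * ((β * x.1 - x.2) / (β - α)) + β * ((x.2 - α * x.1) / (β - α)) = x.2
      field_simp; ring
  have h2 : g ∘ₗ f = LinearMap.id := by
    refine LinearMap.ext fun x => ?_
    show ((β * (x.1 + x.2) - (α * x.1 + β * x.2)) / (β - α),
      ((α * x.1 + β * x.2) - α * (x.1 + x.2)) / (β - α)) = x
    refine Prod.ext ?_ ?_
    · show (β * (x.1 + x.2) - (α * x.1 + β * x.2)) / (β - α) = x.1
      field_simp; ring
    · show ((α * x.1 + β * x.2) - α * (x.1 + x.2)) / (β - α) = x.2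
      field_simp; ring
  exact ⟨(LinearEquiv.ofLinear f g h1 h2).toContinuousLinearEquiv, fun x => rfl⟩

theorem planar {P : ℝ × ℝ → ℝ × ℝ} {Λ : ℝ × ℝ →L[ℝ] ℝ × ℝ} {ρ lam mu α β : ℝ} (hρ : 0 < ρ)
    (hPc : ContinuousOn P (Metric.ball 0 ρ)) (hP0 : P 0 = 0) (hPd : HasFDerivAt P Λ 0)
    (hμ : |mu| < 1) (hl : 1 < |lam|) (hu : Λ (1, α) = lam • (1, α)) (hs : Λ (1, β) = mu • (1, β)) :
    ∃ C > 0, ∃ A₀ > 0, ∀ A, 0 < A → A ≤ A₀ → C * A < ρ ∧ ∃ σ, 0 < σ ∧ σ < 1 ∧ ∃ n₀ : ℕ, ∀ n ≥ n₀,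
      ∀ u, |u| ≤ A → ∀ g : ℝ × ℝ → ℝ, ContinuousOn g (Metric.closedBall 0 (C * A)) →
      (∀ w, ‖w‖ ≤ C * A → 3 * A / 4 ≤ w.1 → 0 < g w) →
      (∀ w, ‖w‖ ≤ C * A → w.1 ≤ -(3 * A / 4) → g w < 0) →
      ∃ w : ℕ → ℝ × ℝ, (w 0).1 = u ∧ (∀ k < n, w (k + 1) = P (w k)) ∧
        (∀ k ≤ n, ‖w k‖ ≤ C * A * max (σ ^ k) (σ ^ (n - k))) ∧ g (w n) = 0 := by
  have hαβ : α ≠ β := by
    intro h
    rw [h] at hu
    have h1 := hu.symm.trans hs
    have h2 := congrArg Prod.fst h1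
    have h3 : lam * 1 = mu * 1 := h2
    rw [mul_one, mul_one] at h3
    rw [h3] at hl; linarith
  obtain ⟨J, hJ⟩ := exists_J hαβ
  set CJ : ℝ := ‖(J : ℝ × ℝ →L[ℝ] ℝ × ℝ)‖ + 1 with hCJ
  set CI : ℝ := ‖(J.symm : ℝ × ℝ →L[ℝ] ℝ × ℝ)‖ + 1 with hCI
  have hCJ0 : 0 < CJ := by positivity
  have hCI0 : 0 < CI := by positivity
  have hJn : ∀ x, ‖J x‖ ≤ CJ * ‖x‖ := fun x =>
    ((J : ℝ × ℝ →L[ℝ] ℝ × ℝ).le_opNorm x).trans
      (mul_le_mul_of_nonneg_right (by rw [hCJ]; linarith) (norm_nonneg _))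
  have hIn : ∀ x, ‖J.symm x‖ ≤ CI * ‖x‖ := fun x =>
    ((J.symm : ℝ × ℝ →L[ℝ] ℝ × ℝ).le_opNorm x).trans
      (mul_le_mul_of_nonneg_right (by rw [hCI]; linarith) (norm_nonneg _))
  set Q : ℝ × ℝ → ℝ × ℝ := fun x => J.symm (P (J x)) with hQ
  have hΛJ : ∀ x : ℝ × ℝ, Λ (J x) = J (lam * x.1, mu * x.2) := by
    intro x
    have h1 : J x = x.1 • ((1 : ℝ), α) + x.2 • ((1 : ℝ), β) := by
      rw [hJ]; ext <;> simp <;> ring
    rw [h1, map_add, map_smul, map_smul, hu, hs, hJ]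
    ext <;> simp <;> ring
  set η : ℝ := min ((|lam| - 1) / 4) ((1 - |mu|) / 16) with hη
  have hη0 : 0 < η := lt_min (by linarith) (by linarith)
  have hη1 : η ≤ (|lam| - 1) / 4 := min_le_left _ _
  have hη2 : η ≤ (1 - |mu|) / 16 := min_le_right _ _
  -- deviation
  have hdev : ∃ ε > 0, ∀ x : ℝ × ℝ, ‖x‖ < ε → ‖Q x - (lam * x.1, mu * x.2)‖ ≤ η * ‖x‖ := by
    rw [hasFDerivAt_iff_isLittleO, Asymptotics.isLittleO_iff] at hPd
    have h1 := hPd (show 0 < η / (CI * CJ) by positivity)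
    obtain ⟨ε, hε, hb⟩ := Metric.eventually_nhds_iff.1 h1
    refine ⟨ε / CJ, by positivity, fun x hx => ?_⟩
    have h2 : dist (J x) 0 < ε := by
      rw [dist_zero_right]
      calc ‖J x‖ ≤ CJ * ‖x‖ := hJn x
        _ < CJ * (ε / CJ) := mul_lt_mul_of_pos_left hx hCJ0
        _ = ε := by field_simp
    have h3 := hb h2
    rw [hP0, sub_zero, sub_zero] at h3
    have h4 : Q x - (lam * x.1, mu * x.2) = J.symm (P (J x) - Λ (J x)) := by
      rw [map_sub, hΛJ, J.symm_apply_apply]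
    rw [h4]
    calc ‖J.symm (P (J x) - Λ (J x))‖ ≤ CI * ‖P (J x) - Λ (J x)‖ := hIn _
      _ ≤ CI * (η / (CI * CJ) * ‖J x‖) := mul_le_mul_of_nonneg_left h3 hCI0.le
      _ ≤ CI * (η / (CI * CJ) * (CJ * ‖x‖)) := by
          refine mul_le_mul_of_nonneg_left (mul_le_mul_of_nonneg_left (hJn x) (by positivity)) hCI0.le
      _ = η * ‖x‖ := by field_simp
  obtain ⟨ε, hε, hdev⟩ := hdev
  set C : ℝ := 2 * CJ with hC
  have hC0 : 0 < C := by positivity
  refine ⟨C, hC0, min (ε / 4) (ρ / (2 * C)), lt_min (by positivity) (by positivity), ?_⟩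
  intro A hA hA₀
  have hA1 : A ≤ ε / 4 := hA₀.trans (min_le_left _ _)
  have hA2 : A ≤ ρ / (2 * C) := hA₀.trans (min_le_right _ _)
  have hCA : C * A < ρ := by
    rw [le_div_iff₀ (by positivity)] at hA2
    nlinarith
  have hnorm : ∀ x : ℝ × ℝ, |x.1| ≤ A → |x.2| ≤ 2 * A → ‖x‖ ≤ 2 * A := fun x h1 h2 => by
    rw [Prod.norm_def]
    exact max_le (by rw [Real.norm_eq_abs]; linarith) (by rw [Real.norm_eq_abs]; exact h2)
  have hD : Dev Q lam mu η A := by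
    intro x h1 h2
    have h3 := hdev x (by
      have := hnorm x h1 h2
      linarith)
    rw [Prod.norm_def (x := x), Real.norm_eq_abs, Real.norm_eq_abs, Prod.norm_def] at h3
    exact ⟨(le_max_left _ _).trans h3, (le_max_right _ _).trans h3⟩
  have hJC : ∀ x : ℝ × ℝ, |x.1| ≤ A → |x.2| ≤ 2 * A → ‖J x‖ ≤ C * A := fun x h1 h2 => by
    have h3 := hJn x
    have h4 := hnorm x h1 h2
    calc ‖J x‖ ≤ CJ * ‖x‖ := h3
      _ ≤ CJ * (2 * A) := mul_le_mul_of_nonneg_left h4 hCJ0.le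
      _ = C * A := by rw [hC]; ring
  have hQc : ContinuousOn Q {x | |x.1| ≤ A ∧ |x.2| ≤ 2 * A} := by
    refine J.symm.continuous.comp_continuousOn ?_
    refine hPc.comp J.continuous.continuousOn fun x hx => ?_
    rw [Metric.mem_ball, dist_zero_right]
    exact lt_of_le_of_lt (hJC x hx.1 hx.2) hCA
  obtain ⟨σ, hσ0, hσ1, hmid⟩ := middle hη0.le (by linarith) (by linarith) hD hA.le
  obtain ⟨n₀, hn₀⟩ := small_b hη0.le hμ hη2 hD hA
  refine ⟨hCA, σ, hσ0, hσ1, n₀, fun n hn u hu' g hg hg1 hg2 => ?_⟩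
  obtain ⟨s₁, s₂, hN, hcont, hs1, hs2⟩ :=
    windows hη0.le (by linarith) (by linarith) hD hA hQc hu' n
  -- intermediate value theorem
  have hb : ∀ s ∈ uIcc s₁ s₂, |(orb Q u n s).2| ≤ A / 4 := fun s hs =>
    hn₀ n hn (fun k => orb Q u k s) (fun k _ => rfl) (fun k hk => hN s hs k hk)
  have hgc : ContinuousOn (fun s => g (J (orb Q u n s))) (uIcc s₁ s₂) := by
    refine hg.comp (J.continuous.comp_continuousOn (hcont n le_rfl)) fun s hs => ?_
    rw [Metric.mem_closedBall, dist_zero_right]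
    exact hJC _ (hN s hs n le_rfl).1 (hN s hs n le_rfl).2
  have hJ1 : ∀ s, (J (orb Q u n s)).1 = (orb Q u n s).1 + (orb Q u n s).2 := fun s => by rw [hJ]
  have hg1' : g (J (orb Q u n s₁)) < 0 := by
    refine hg2 _ (hJC _ (hN s₁ left_mem_uIcc n le_rfl).1 (hN s₁ left_mem_uIcc n le_rfl).2) ?_
    rw [hJ1, hs1]
    have := (abs_le.1 (hb s₁ left_mem_uIcc)).2
    linarith
  have hg2' : 0 < g (J (orb Q u n s₂)) := by
    refine hg1 _ (hJC _ (hN s₂ right_mem_uIcc n le_rfl).1 (hN s₂ right_mem_uIcc n le_rfl).2) ?_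
    rw [hJ1, hs2]
    have := (abs_le.1 (hb s₂ right_mem_uIcc)).1
    linarith
  obtain ⟨s, hs', hs0⟩ := intermediate_value_uIcc hgc (show (0 : ℝ) ∈ uIcc (g (J (orb Q u n s₁)))
    (g (J (orb Q u n s₂))) from by rw [uIcc_of_le (by linarith)]; exact ⟨hg1'.le, hg2'.le⟩)
  refine ⟨fun k => J (orb Q u k s), ?_, ?_, ?_, hs0⟩
  · show (J (s, u - s)).1 = u
    rw [hJ]; show s + (u - s) = u; ring
  · intro k _
    show J (Q (orb Q u k s)) = P (J (orb Q u k s))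
    rw [hQ]; exact J.apply_symm_apply _
  · intro k hk
    obtain ⟨h1, h2⟩ := hmid n (fun k => orb Q u k s) (fun k _ => rfl) (fun k hk => hN s hs' k hk) k hk
    have h3 : ‖orb Q u k s‖ ≤ 2 * A * max (σ ^ k) (σ ^ (n - k)) := by
      rw [Prod.norm_def]
      exact max_le (by rw [Real.norm_eq_abs]; exact h1) (by rw [Real.norm_eq_abs]; exact h2)
    calc ‖J (orb Q u k s)‖ ≤ CJ * ‖orb Q u k s‖ := hJn _
      _ ≤ CJ * (2 * A * max (σ ^ k) (σ ^ (n - k))) := mul_le_mul_of_nonneg_left h3 hCJ0.le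
      _ = C * A * max (σ ^ k) (σ ^ (n - k)) := by rw [hC]; ring

end Pool.Agent.H91.GE
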