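import Pool.Agent.H91.GE.Hit

/-!
# The return map of a closed geodesic on a surface
-/

set_option autoImplicit false

open scoped InnerProductSpace Topology ContDiff
open Set Filter

namespace Pool.Agent.H91.GE

variable {E F : Type*} [NormedAddCommGroup E] [InnerProductSpace ℝ E] [FiniteDimensional ℝ E]
  [NormedAddCommGroup F] [InnerProductSpace ℝ F] [FiniteDimensional ℝ F]
  {S : Set E} {A : E × E → E} {K K₂ : NNReal} {Φ : ℝ → E × E → E × E}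
  {p e ν : E} {ψ : ℝ × ℝ → E} {I : ℝ × ℝ → E × E} {r : ℝ}

omit [FiniteDimensional ℝ E] in
/-- The coordinates on the section. -/
theorem hasFDerivAt_coord (he1 : ‖e‖ = 1) (heν : ⟪e, ν⟫_ℝ = 0) :
    HasFDerivAt (fun z : E × E => (⟪ν, z.1 - p⟫_ℝ, ⟪ν, z.2⟫_ℝ / ⟪e, z.2⟫_ℝ))
      (((innerSL ℝ ν) ∘L (ContinuousLinearMap.fst ℝ E E)).prod
        ((innerSL ℝ ν) ∘L (ContinuousLinearMap.snd ℝ E E))) (p, e) := by
  have hee : ⟪e, e⟫_ℝ = 1 := by rw [real_inner_self_eq_norm_sq, he1]; norm_num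
  have hνe : ⟪ν, e⟫_ℝ = 0 := by rw [real_inner_comm]; exact heν
  refine HasFDerivAt.prodMk ?_ ?_
  · have h1 : HasFDerivAt (fun z : E × E => z.1 - p) (ContinuousLinearMap.fst ℝ E E) (p, e) :=
      (ContinuousLinearMap.fst ℝ E E).hasFDerivAt.sub_const p
    exact (innerSL ℝ ν).hasFDerivAt.comp (p, e) h1
  · have h1 : HasFDerivAt (fun z : E × E => ⟪ν, z.2⟫_ℝ)
        ((innerSL ℝ ν) ∘L (ContinuousLinearMap.snd ℝ E E)) (p, e) :=
      ((innerSL ℝ ν) ∘L (ContinuousLinearMap.snd ℝ E E)).hasFDerivAt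
    have h2 : HasFDerivAt (fun z : E × E => ⟪e, z.2⟫_ℝ)
        ((innerSL ℝ e) ∘L (ContinuousLinearMap.snd ℝ E E)) (p, e) :=
      ((innerSL ℝ e) ∘L (ContinuousLinearMap.snd ℝ E E)).hasFDerivAt
    have h3 : HasFDerivAt (fun z : E × E => (⟪e, z.2⟫_ℝ)⁻¹)
        ((-(⟪e, e⟫_ℝ ^ 2)⁻¹) • ((innerSL ℝ e) ∘L (ContinuousLinearMap.snd ℝ E E))) (p, e) :=
      (hasDerivAt_inv (x := ⟪e, e⟫_ℝ) (by rw [hee]; norm_num)).comp_hasFDerivAt (p, e) h2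
    have h4 := h1.mul h3
    simp only [hνe, hee, zero_smul, zero_add, inv_one, one_smul] at h4
    exact h4

theorem exists_return (h : GFlow F S A K K₂ Φ) (hs : Sec S p e ν ψ I r) (he1 : ‖e‖ = 1)
    (heν : ⟪e, ν⟫_ℝ = 0) (he : (p, e) ∈ TSet S) (hν : (p, ν) ∈ TSet S) {L : ℝ} (hL : 0 < L)
    (hper : Φ L (p, e) = (p, e)) :
    ∃ ρ, 0 < ρ ∧ ρ ≤ r ∧ ∃ (τ : ℝ × ℝ → ℝ) (P : ℝ × ℝ → ℝ × ℝ) (Λ : ℝ × ℝ →L[ℝ] ℝ × ℝ),
      (∀ w ∈ Metric.ball (0 : ℝ × ℝ) ρ, L / 2 ≤ τ w ∧ τ w ≤ 2 * L) ∧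
      ContinuousOn P (Metric.ball 0 ρ) ∧
      (∀ w ∈ Metric.ball (0 : ℝ × ℝ) ρ, P w ∈ Metric.ball (0 : ℝ × ℝ) r →
        Φ (τ w) (I w) = I (P w)) ∧
      P 0 = 0 ∧ HasFDerivAt P Λ 0 ∧
      ∀ ξ, Λ ξ = (⟪ν, (fderiv ℝ (Φ L) (p, e) (fderiv ℝ I 0 ξ)).1⟫_ℝ,
        ⟪ν, (fderiv ℝ (Φ L) (p, e) (fderiv ℝ I 0 ξ)).2⟫_ℝ) := by
  obtain ⟨δ, hδ, hδL, ρ, hρ, hρr, hclose, hex, huniq⟩ :=
    hit h hs he1 hper (η := r) (δ₀ := L / 2) hs.pos (by positivity)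
  have hee : ⟪e, e⟫_ℝ = 1 := by rw [real_inner_self_eq_norm_sq, he1]; norm_num
  have hνe : ⟪ν, e⟫_ℝ = 0 := by rw [real_inner_comm]; exact heν
  obtain ⟨C, hC⟩ := hs.I_lip
  have hex' : ∀ w ∈ Metric.ball (0 : ℝ × ℝ) ρ, ∃ t, |t - L| ≤ δ ∧ ⟪e, (Φ t (I w)).1 - p⟫_ℝ = 0 :=
    fun w hw => hex w hw 0 (by rw [abs_zero]; exact hρ)
  choose! τ hτ1 hτ2 using hex'
  have h0mem : (0 : ℝ × ℝ) ∈ Metric.ball (0 : ℝ × ℝ) ρ := Metric.mem_ball_self hρ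
  -- `τ` is Lipschitz
  set D : ℝ := 2 * (C * Real.exp (K * (2 * L))) with hD
  have hτlip : ∀ w ∈ Metric.ball (0 : ℝ × ℝ) ρ, ∀ w' ∈ Metric.ball (0 : ℝ × ℝ) ρ,
      |τ w - τ w'| ≤ D * dist w w' := by
    intro w hw w' hw'
    have h1 := huniq w hw (τ w) (τ w') (hτ1 w hw) (hτ1 w' hw')
    rw [hτ2 w hw] at h1
    have h2 : ⟪e, (Φ (τ w') (I w)).1 - p⟫_ℝ
        = ⟪e, (Φ (τ w') (I w)).1 - (Φ (τ w') (I w')).1⟫_ℝ := by
      have h3 : (Φ (τ w') (I w)).1 - p = ((Φ (τ w') (I w)).1 - (Φ (τ w') (I w')).1)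
          + ((Φ (τ w') (I w')).1 - p) := by abel
      rw [h3, inner_add_right, hτ2 w' hw', add_zero]
    rw [h2, zero_sub, abs_neg] at h1
    have h3 := abs_real_inner_le_norm e ((Φ (τ w') (I w)).1 - (Φ (τ w') (I w')).1)
    rw [he1, one_mul, ← dist_eq_norm] at h3
    have h4 : dist (Φ (τ w') (I w)).1 (Φ (τ w') (I w')).1 ≤ dist (Φ (τ w') (I w)) (Φ (τ w') (I w')) := by
      rw [Prod.dist_eq]; exact le_max_left _ _
    have h5 := h.flow.dist_le h.vf (τ w') (I w) (I w')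
    have h6 : dist (I w) (I w') ≤ C * dist w w' :=
      hC.dist_le_mul w (Metric.ball_subset_ball hρr hw) w' (Metric.ball_subset_ball hρr hw')
    have h7 : Real.exp (K * |τ w'|) ≤ Real.exp (K * (2 * L)) := by
      refine Real.exp_le_exp.2 (mul_le_mul_of_nonneg_left ?_ K.2)
      have h8 := abs_le.1 (hτ1 w' hw')
      rw [abs_le]; constructor <;> linarith
    have h8 : dist (I w) (I w') * Real.exp (K * |τ w'|) ≤ (C * dist w w') * Real.exp (K * (2 * L)) :=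
      mul_le_mul h6 h7 (Real.exp_pos _).le (by positivity)
    calc |τ w - τ w'| ≤ 2 * ((C * dist w w') * Real.exp (K * (2 * L))) := by linarith
      _ = D * dist w w' := by rw [hD]; ring
  have hD0 : 0 ≤ D := by rw [hD]; positivity
  have hτcont : ContinuousOn τ (Metric.ball 0 ρ) := by
    have h1 : LipschitzOnWith ⟨D, hD0⟩ τ (Metric.ball 0 ρ) :=
      LipschitzOnWith.of_dist_le_mul fun w hw w' hw' => by
        rw [Real.dist_eq]; exact hτlip w hw w' hw'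
    exact h1.continuousOn
  have hIcont : ContinuousOn I (Metric.ball 0 ρ) := hC.continuousOn.mono (Metric.ball_subset_ball hρr)
  have hZcont : ContinuousOn (fun w => Φ (τ w) (I w)) (Metric.ball 0 ρ) :=
    (h.flow.continuous h.vf).comp_continuousOn (hτcont.prodMk hIcont)
  have hτ0 : τ 0 = L := by
    have h1 := huniq 0 h0mem (τ 0) L (hτ1 0 h0mem) (by rw [sub_self, abs_zero]; exact hδ.le)
    rw [hτ2 0 h0mem, hs.I_zero, hper] at h1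
    simp only [sub_self, inner_zero_right, abs_zero, mul_zero] at h1
    exact sub_eq_zero.1 (abs_nonpos_iff.1 h1)
  set κ : E × E → ℝ × ℝ := fun z => (⟪ν, z.1 - p⟫_ℝ, ⟪ν, z.2⟫_ℝ / ⟪e, z.2⟫_ℝ) with hκ
  set P : ℝ × ℝ → ℝ × ℝ := fun w => κ (Φ (τ w) (I w)) with hP
  -- the derivative of `κ (Φ t (I w))`
  set Dκ : E × E →L[ℝ] ℝ × ℝ := ((innerSL ℝ ν) ∘L (ContinuousLinearMap.fst ℝ E E)).prod
        ((innerSL ℝ ν) ∘L (ContinuousLinearMap.snd ℝ E E)) with hDκ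
  set Λ : ℝ × ℝ →L[ℝ] ℝ × ℝ := Dκ ∘L ((fderiv ℝ (Φ L) (p, e)) ∘L (fderiv ℝ I 0)) with hΛ
  have hκd : HasFDerivAt κ Dκ (p, e) := hasFDerivAt_coord he1 heν
  have hN : HasFDerivAt (fun x : ℝ × (ℝ × ℝ) => κ (Φ x.1 (I x.2)))
      (Λ ∘L ContinuousLinearMap.snd ℝ ℝ (ℝ × ℝ)) (L, 0) := by
    have h1 : HasFDerivAt (fun x : ℝ × (ℝ × ℝ) => (x.1, I x.2))
        ((ContinuousLinearMap.fst ℝ ℝ (ℝ × ℝ)).prod
          ((fderiv ℝ I 0) ∘L (ContinuousLinearMap.snd ℝ ℝ (ℝ × ℝ)))) (L, 0) := by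
      refine HasFDerivAt.prodMk (ContinuousLinearMap.fst ℝ ℝ (ℝ × ℝ)).hasFDerivAt ?_
      have h2 : HasFDerivAt I (fderiv ℝ I 0) ((L, (0 : ℝ × ℝ)).2) := hs.I_diff.hasFDerivAt
      exact h2.comp (L, (0 : ℝ × ℝ)) (ContinuousLinearMap.snd ℝ ℝ (ℝ × ℝ)).hasFDerivAt
    have h2 : HasFDerivAt (fun x : ℝ × (E × E) => Φ x.1 x.2)
        ((ContinuousLinearMap.fst ℝ ℝ (E × E)).smulRight (XF A (p, e))
        + (fderiv ℝ (Φ L) (p, e)) ∘L (ContinuousLinearMap.snd ℝ ℝ (E × E)))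
        ((fun x : ℝ × (ℝ × ℝ) => (x.1, I x.2)) (L, 0)) := by
      have h3 := h.flow.hasFDerivAt h.vf L (p, e)
      rw [hper] at h3
      simp only [hs.I_zero]
      exact h3
    have h3 := h2.comp (L, (0 : ℝ × ℝ)) h1
    have h4 : HasFDerivAt κ Dκ (((fun x : ℝ × (E × E) => Φ x.1 x.2) ∘
        (fun x : ℝ × (ℝ × ℝ) => (x.1, I x.2))) (L, 0)) := by
      show HasFDerivAt κ Dκ (Φ L (I 0))
      rw [hs.I_zero, hper]
      exact hκd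
    have h5 := h4.comp (L, (0 : ℝ × ℝ)) h3
    have h6 : Dκ (XF A (p, e)) = 0 := by
      show (⟪ν, e⟫_ℝ, ⟪ν, A (p, e)⟫_ℝ) = 0
      have h7 : ⟪ν, A (p, e)⟫_ℝ = 0 := by
        rw [real_inner_comm]
        exact h.inner_A he (by rw [he1]; norm_num) hν
      rw [hνe, h7]; rfl
    refine h5.congr_fderiv ?_
    refine ContinuousLinearMap.ext fun x => ?_
    obtain ⟨a, ξ⟩ := x
    show Dκ (a • XF A (p, e) + fderiv ℝ (Φ L) (p, e) (fderiv ℝ I 0 ξ)) = Λ ξ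
    rw [map_add, map_smul, h6, smul_zero, zero_add]
    rfl
  have hP0 : P 0 = 0 := by
    show κ (Φ (τ 0) (I 0)) = 0
    rw [hτ0, hs.I_zero, hper]
    show (⟪ν, p - p⟫_ℝ, ⟪ν, e⟫_ℝ / ⟪e, e⟫_ℝ) = 0
    rw [sub_self, inner_zero_right, hνe, zero_div]; rfl
  have hPd : HasFDerivAt P Λ 0 := by
    have ht : Tendsto (fun w : ℝ × ℝ => (τ w, w)) (𝓝 0) (𝓝 (L, 0)) := by
      have h1 : ContinuousAt τ 0 := hτcont.continuousAt (Metric.ball_mem_nhds _ hρ)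
      have h2 := h1.tendsto
      rw [hτ0] at h2
      exact h2.prodMk_nhds tendsto_id
    rw [hasFDerivAt_iff_isLittleO] at hN ⊢
    have h1 := hN.comp_tendsto ht
    have h2 : ((fun x : ℝ × (ℝ × ℝ) => κ (Φ x.1 (I x.2)) - κ (Φ (L, (0 : ℝ × ℝ)).1 (I (L, (0 : ℝ × ℝ)).2))
        - (Λ ∘L ContinuousLinearMap.snd ℝ ℝ (ℝ × ℝ)) (x - (L, 0))) ∘ fun w => (τ w, w))
        = fun w => P w - P 0 - Λ (w - 0) := by
      funext w
      show κ (Φ (τ w) (I w)) - κ (Φ L (I 0)) - Λ (w - 0) = P w - κ (Φ (τ 0) (I 0)) - Λ (w - 0)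
      rw [hτ0]
    rw [h2] at h1
    refine h1.trans_isBigO ?_
    refine Asymptotics.IsBigO.of_bound (max D 1) ?_
    filter_upwards [Metric.ball_mem_nhds (0 : ℝ × ℝ) hρ] with w hw
    show ‖(τ w - L, w - 0)‖ ≤ max D 1 * ‖w - 0‖
    rw [Prod.norm_def]
    refine max_le ?_ ?_
    · have h3 := hτlip w hw 0 h0mem
      rw [hτ0, dist_eq_norm] at h3
      exact h3.trans (mul_le_mul_of_nonneg_right (le_max_left _ _) (norm_nonneg _))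
    · have : ‖w - 0‖ ≤ max D 1 * ‖w - 0‖ := le_mul_of_one_le_left (norm_nonneg _) (le_max_right _ _)
      exact this
  refine ⟨ρ, hρ, hρr, τ, P, Λ, ?_, ?_, ?_, hP0, hPd, fun ξ => rfl⟩
  · intro w hw
    have h1 := abs_le.1 (hτ1 w hw)
    constructor <;> linarith
  · have hc1 : ContinuousOn (fun w => ⟪ν, (Φ (τ w) (I w)).1 - p⟫_ℝ) (Metric.ball 0 ρ) :=
      continuousOn_const.inner (hZcont.fst.sub continuousOn_const)
    have hc2 : ContinuousOn (fun w => ⟪ν, (Φ (τ w) (I w)).2⟫_ℝ) (Metric.ball 0 ρ) :=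
      continuousOn_const.inner hZcont.snd
    have hc3 : ContinuousOn (fun w => ⟪e, (Φ (τ w) (I w)).2⟫_ℝ) (Metric.ball 0 ρ) :=
      continuousOn_const.inner hZcont.snd
    exact hc1.prodMk (hc2.div hc3 fun w hw => by
      have := (hclose w hw (τ w) (hτ1 w hw)).2
      intro h0; rw [h0] at this; norm_num at this)
  · intro w hw hPw
    have hw' := Metric.ball_subset_ball hρr hw
    obtain ⟨a1, a2, -, -, -, -⟩ := hs.I_mem w hw'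
    obtain ⟨b1, b2⟩ := h.mem a1 (by rw [a2]; norm_num) (τ w)
    obtain ⟨c1, c2⟩ := hclose w hw (τ w) (hτ1 w hw)
    rw [Prod.dist_eq, max_lt_iff] at c1
    exact hs.I_surj _ b1 (by rw [b2, a2]) c1.1 (by linarith) (hτ2 w hw) hPw

end Pool.Agent.H91.GE
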