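import Pool.Agent.H91.GE.Finite

/-!
# Continuous families of symmetries of a secure submanifold
-/

set_option autoImplicit false

open scoped InnerProductSpace Topology ContDiff
open Set Filter

namespace Pool.Agent.H91.GE

variable {E F : Type*} [NormedAddCommGroup E] [InnerProductSpace ℝ E] [FiniteDimensional ℝ E]
  [NormedAddCommGroup F] [InnerProductSpace ℝ F] [FiniteDimensional ℝ F]

omit [FiniteDimensional ℝ E] in
theorem hasDerivAt_isom (R : E ≃ₗᵢ[ℝ] E) {γ : ℝ → E} {v : E} {t : ℝ} (h : HasDerivAt γ v t) :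
    HasDerivAt (fun s => R (γ s)) (R v) t :=
  (R.toContinuousLinearEquiv : E →L[ℝ] E).hasFDerivAt.comp_hasDerivAt t h

omit [FiniteDimensional ℝ E] in
theorem IsGeo.deriv_isom {S : Set E} {γ : ℝ → E} (hγ : IsGeo S γ) (R : E ≃ₗᵢ[ℝ] E) :
    deriv (fun s => R (γ s)) = fun t => R (deriv γ t) :=
  funext fun t => (hasDerivAt_isom R (hγ.hasDerivAt t)).deriv

omit [FiniteDimensional ℝ E] in
/-- Symmetries map geodesics to geodesics. -/
theorem IsGeo.isom {S : Set E} {γ : ℝ → E} (hγ : IsGeo S γ) (R : E ≃ₗᵢ[ℝ] E) (hR : R '' S = S) :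
    IsGeo S (fun s => R (γ s)) where
  smooth := (R.toContinuousLinearEquiv : E →L[ℝ] E).contDiff.comp hγ.smooth
  mem := fun t => by
    rw [← hR]; exact mem_image_of_mem _ (hγ.mem t)
  acc := by
    intro t c hc hcS hc0
    have h1 : deriv (deriv (fun s => R (γ s))) t = R (deriv (deriv γ) t) := by
      rw [hγ.deriv_isom R]
      exact (hasDerivAt_isom R (hγ.hasDerivAt' t)).deriv
    have hc' : ContDiff ℝ 1 (fun s => R.symm (c s)) :=
      (R.symm.toContinuousLinearEquiv : E →L[ℝ] E).contDiff.comp hc
    have hcS' : ∀ s, R.symm (c s) ∈ S := by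
      intro s
      have h2 : c s ∈ R '' S := by rw [hR]; exact hcS s
      obtain ⟨y, hy, hys⟩ := h2
      rw [← hys, R.symm_apply_apply]
      exact hy
    have h3 := hγ.acc t (fun s => R.symm (c s)) hc' hcS' (by
      show R.symm (c 0) = γ t
      rw [hc0, R.symm_apply_apply])
    have hcd : HasDerivAt c (deriv c 0) 0 := (hc.differentiable (by simp) 0).hasDerivAt
    have h4 : deriv (fun s => R.symm (c s)) 0 = R.symm (deriv c 0) :=
      (hasDerivAt_isom R.symm hcd).deriv
    rw [h4] at h3
    rw [h1]
    have h5 := R.inner_map_map (deriv (deriv γ) t) (R.symm (deriv c 0))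
    rw [R.apply_symm_apply] at h5
    rw [h5, h3]

/-- Let `R t` be a continuous family of linear isometries with `R 0 = id` that preserve the secure
compact submanifold `S`. Every geodesic between two common fixed points is pointwise fixed. -/
theorem fixed_geodesics {S : Set E} (hS : IsCompact S) (hsub : IsSub F S) (hsec : Secure S)
    (R : ℝ → (E ≃ₗᵢ[ℝ] E)) (hc : ∀ v, Continuous fun t => R t v) (h0 : ∀ v, R 0 v = v)
    (hR : ∀ t, R t '' S = S) {x y : E} (hx : x ∈ S) (hy : y ∈ S) (hRx : ∀ t, R t x = x)
    (hRy : ∀ t, R t y = y) {γ : ℝ → E} (hγ : IsGeo S γ) (hγx : γ 0 = x) (hγy : γ 1 = y)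
    (t s : ℝ) : R t (γ s) = γ s := by
  obtain ⟨δ, hδ, hsc⟩ := exists_scale hS hsub
  -- the velocity is fixed
  have hv : ∀ t, R t (deriv γ 0) = deriv γ 0 := by
    by_cases hd : deriv γ 0 = 0
    · intro t; rw [hd, map_zero]
    · set u := deriv γ 0 with hu
      have hfin := finite_geodesics hS hsub hsec hx hy ‖u‖
      have himg : (range fun t => R t u).Finite := by
        refine (hfin.image (fun η : ℝ → E => deriv η 0)).subset ?_
        rintro _ ⟨t, rfl⟩
        refine ⟨fun s => R t (γ s), ⟨hγ.isom (R t) (hR t), ?_, ?_, ?_, ?_⟩, ?_⟩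
        · show R t (γ 0) = x
          rw [hγx, hRx]
        · show R t (γ 1) = y
          rw [hγy, hRy]
        · rw [hγ.deriv_isom]
          show R t u ≠ 0
          intro h
          exact hd ((R t).map_eq_zero_iff.1 h)
        · rw [hγ.deriv_isom]
          show ‖R t u‖ ≤ ‖u‖
          rw [(R t).norm_map]
        · show deriv (fun s => R t (γ s)) 0 = R t u
          rw [hγ.deriv_isom]
      have hpre : IsPreconnected (range fun t => R t u) := isPreconnected_range (hc u)
      have hsubs : (range fun t => R t u).Subsingleton := by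
        by_contra hns
        rw [Set.not_subsingleton_iff] at hns
        exact (hpre.infinite_of_nontrivial hns) himg
      intro t
      have := hsubs (mem_range_self t) (mem_range_self 0)
      simpa [h0] using this
  have heq : (fun s => R t (γ s)) = γ :=
    (hγ.isom (R t) (hR t)).eq_of_first_order hδ hsc hγ (t₀ := 0)
      (by show R t (γ 0) = γ 0; rw [hγx, hRx]) (by rw [hγ.deriv_isom]; exact hv t)
  exact congrFun heq s

end Pool.Agent.H91.GE
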