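import Pool.Agent.H91.GE.Acc

/-!
# Tangent vectors of a submanifold and the intrinsic meaning of the geodesic acceleration
-/

set_option autoImplicit false

open scoped InnerProductSpace Topology ContDiff
open Set Filter

namespace Pool.Agent.H91.GE

variable {E F : Type*} [NormedAddCommGroup E] [InnerProductSpace ℝ E] [FiniteDimensional ℝ E]
  [NormedAddCommGroup F] [InnerProductSpace ℝ F] [FiniteDimensional ℝ F]

/-- The tangent set of `S`: velocities of `C¹` curves in `S`. -/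
def TSet (S : Set E) : Set (E × E) :=
  {w | ∃ c : ℝ → E, ContDiff ℝ 1 c ∧ (∀ s, c s ∈ S) ∧ c 0 = w.1 ∧ deriv c 0 = w.2}

omit [FiniteDimensional ℝ E] in
theorem fst_mem_TSet {S : Set E} {w : E × E} (hw : w ∈ TSet S) : w.1 ∈ S := by
  obtain ⟨c, -, hS, h0, -⟩ := hw
  rw [← h0]; exact hS 0

theorem mem_TSet_iff {S U : Set E} {f : E → F} (h : IsLoc S U f) {q v : E} (hq : q ∈ U) :
    (q, v) ∈ TSet S ↔ q ∈ S ∧ fderiv ℝ f q v = 0 := by
  constructor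
  · intro hw
    refine ⟨fst_mem_TSet hw, ?_⟩
    obtain ⟨c, hc, hS, h0, hd⟩ := hw
    have h0' : c 0 = q := h0
    have hd' : deriv c 0 = v := hd
    have hfd : HasFDerivAt f (fderiv ℝ f q) (c 0) := by
      rw [h0']
      exact ((h.contDiffAt hq).differentiableAt (by simp)).hasFDerivAt
    have h1 : HasDerivAt (fun s => f (c s)) (fderiv ℝ f q (deriv c 0)) 0 :=
      hfd.comp_hasDerivAt (0 : ℝ) (hc.differentiable (by simp) 0).hasDerivAt
    have h2 : ∀ᶠ s in 𝓝 (0 : ℝ), c s ∈ U :=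
      hc.continuous.continuousAt.preimage_mem_nhds (h.isOpen.mem_nhds (by rw [h0']; exact hq))
    have h3 : (fun s => f (c s)) =ᶠ[𝓝 0] fun _ => 0 := by
      filter_upwards [h2] with r hr
      exact (h.mem_iff hr).1 (hS r)
    have h4 : HasDerivAt (fun s => f (c s)) 0 0 :=
      (hasDerivAt_const (0 : ℝ) (0 : F)).congr_of_eventuallyEq h3
    rw [← hd']
    exact h1.unique h4
  · rintro ⟨hS, hv⟩
    exact exists_curve h hq hS hv

/-- Local existence of geodesics. -/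
theorem exists_local_geo {S U : Set E} {f : E → F} (h : IsLoc S U f) {q v : E} (hq : q ∈ U)
    (hw : (q, v) ∈ TSet S) :
    ∃ ε > 0, ∃ σ η : ℝ → E, σ 0 = q ∧ η 0 = v ∧ ∀ t ∈ Ioo (-ε) ε,
      HasDerivAt σ (η t) t ∧ HasDerivAt η (Acc f (σ t) (η t)) t ∧ σ t ∈ U ∧
        (σ t, η t) ∈ TSet S := by
  have hX : ContDiffAt ℝ 1 (fun x : E × E => ((x.2, Acc f x.1 x.2) : E × E)) (q, v) :=
    contDiffAt_snd.prodMk ((contDiffAt_Acc h hq v).of_le (by exact_mod_cast le_top))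
  obtain ⟨α, hα0, ε₁, hε₁, hα⟩ :=
    hX.exists_forall_mem_closedBall_exists_eq_forall_mem_Ioo_hasDerivAt₀ 0
  rw [zero_sub, zero_add] at hα
  have hσ : ∀ t ∈ Ioo (-ε₁) ε₁, HasDerivAt (fun t => (α t).1) ((α t).2) t := fun t ht =>
    (ContinuousLinearMap.fst ℝ E E).hasFDerivAt.comp_hasDerivAt t (hα t ht)
  have hη : ∀ t ∈ Ioo (-ε₁) ε₁, HasDerivAt (fun t => (α t).2) (Acc f (α t).1 (α t).2) t :=
    fun t ht => (ContinuousLinearMap.snd ℝ E E).hasFDerivAt.comp_hasDerivAt t (hα t ht)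
  have h0mem : (0 : ℝ) ∈ Ioo (-ε₁) ε₁ := ⟨by linarith, hε₁⟩
  have hUev : ∀ᶠ t in 𝓝 (0 : ℝ), (α t).1 ∈ U :=
    (hσ 0 h0mem).continuousAt.preimage_mem_nhds (h.isOpen.mem_nhds (by rw [hα0]; exact hq))
  obtain ⟨ε₂, hε₂, hball⟩ := Metric.eventually_nhds_iff.1 hUev
  set ε := min ε₁ ε₂ with hε
  have hεpos : 0 < ε := lt_min hε₁ hε₂
  have hsub : ∀ t ∈ Ioo (-ε) ε, t ∈ Ioo (-ε₁) ε₁ ∧ (α t).1 ∈ U := by
    intro t ht
    refine ⟨⟨by linarith [ht.1, min_le_left ε₁ ε₂], by linarith [ht.2, min_le_left ε₁ ε₂]⟩, ?_⟩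
    refine hball ?_
    rw [Real.dist_eq, sub_zero, abs_lt]
    exact ⟨by linarith [ht.1, min_le_right ε₁ ε₂], by linarith [ht.2, min_le_right ε₁ ε₂]⟩
  have hopen : IsOpen (Ioo (-ε) ε) := isOpen_Ioo
  have hpre : IsPreconnected (Ioo (-ε) ε) := isPreconnected_Ioo
  have h0ε : (0 : ℝ) ∈ Ioo (-ε) ε := ⟨by linarith, hεpos⟩
  -- first derivative of the equation
  have hy1 : ∀ t ∈ Ioo (-ε) ε, HasDerivAt (fun t => f (α t).1) (fderiv ℝ f (α t).1 (α t).2) t := by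
    intro t ht
    obtain ⟨h1, h2⟩ := hsub t ht
    have hfd : HasFDerivAt f (fderiv ℝ f (α t).1) (α t).1 :=
      ((h.contDiffAt h2).differentiableAt (by simp)).hasFDerivAt
    exact hfd.comp_hasDerivAt t (hσ t h1)
  have hy2 : ∀ t ∈ Ioo (-ε) ε, HasDerivAt (fun t => fderiv ℝ f (α t).1 (α t).2) 0 t := by
    intro t ht
    obtain ⟨h1, h2⟩ := hsub t ht
    have hfd2 : HasFDerivAt (fderiv ℝ f) (fderiv ℝ (fderiv ℝ f) (α t).1) (α t).1 := by
      have h3 : ContDiffAt ℝ ∞ (fderiv ℝ f) (α t).1 :=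
        (h.contDiffAt h2).fderiv_right (by norm_num)
      exact (h3.differentiableAt (by simp)).hasFDerivAt
    have h3 : HasDerivAt (fun t => fderiv ℝ f (α t).1)
        (fderiv ℝ (fderiv ℝ f) (α t).1 (α t).2) t := hfd2.comp_hasDerivAt t (hσ t h1)
    have h4 : HasDerivAt (fun t => fderiv ℝ f (α t).1 (α t).2)
        (fderiv ℝ (fderiv ℝ f) (α t).1 (α t).2 (α t).2
          + fderiv ℝ f (α t).1 (Acc f (α t).1 (α t).2)) t := h3.clm_apply (hη t h1)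
    have h5 : fderiv ℝ f (α t).1 (Acc f (α t).1 (α t).2)
        = -(fderiv ℝ (fderiv ℝ f) (α t).1 (α t).2 (α t).2) := by
      show fderiv ℝ f (α t).1 (-(Rinv _ _)) = _
      rw [map_neg, comp_Rinv (h.surj _ h2)]
    rw [h5, add_neg_cancel] at h4
    exact h4
  have hconst : ∀ (y y' : ℝ → F), (∀ t ∈ Ioo (-ε) ε, HasDerivAt y (y' t) t) →
      (∀ t ∈ Ioo (-ε) ε, y' t = 0) → y 0 = 0 → ∀ t ∈ Ioo (-ε) ε, y t = 0 := by
    intro y y' hy hy' hy0 t ht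
    have h1 := (convex_Ioo (-ε) ε).norm_image_sub_le_of_norm_hasDerivWithin_le
      (f := y) (f' := y') (C := 0) (fun x hx => (hy x hx).hasDerivWithinAt)
      (fun x hx => by rw [hy' x hx, norm_zero]) h0ε ht
    rw [zero_mul, hy0, sub_zero] at h1
    exact norm_le_zero_iff.1 h1
  have hker : ∀ t ∈ Ioo (-ε) ε, fderiv ℝ f (α t).1 (α t).2 = 0 := by
    refine hconst _ (fun _ => 0) hy2 (fun _ _ => rfl) ?_
    show fderiv ℝ f (α 0).1 (α 0).2 = 0
    rw [hα0]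
    exact ((mem_TSet_iff h hq).1 hw).2
  have hz : ∀ t ∈ Ioo (-ε) ε, f (α t).1 = 0 := by
    refine hconst _ _ hy1 hker ?_
    show f (α 0).1 = 0
    rw [hα0]
    exact (h.mem_iff hq).1 (fst_mem_TSet hw)
  refine ⟨ε, hεpos, fun t => (α t).1, fun t => (α t).2, by simp [hα0], by simp [hα0], fun t ht => ?_⟩
  obtain ⟨h1, h2⟩ := hsub t ht
  exact ⟨hσ t h1, hη t h1, h2, (mem_TSet_iff h h2).2 ⟨(h.mem_iff h2).2 (hz t ht), hker t ht⟩⟩

/-- A curve in `S` whose velocity has a derivative at `0`: the equation for the second derivative. -/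
theorem second_order {S V : Set E} {g : E → F} (hg : IsLoc S V g) {σ η : ℝ → E} {a : E} {ε : ℝ}
    (hε : 0 < ε) (hV : σ 0 ∈ V) (hσ : ∀ t ∈ Ioo (-ε) ε, HasDerivAt σ (η t) t)
    (hη : HasDerivAt η a 0) (hT : ∀ t ∈ Ioo (-ε) ε, (σ t, η t) ∈ TSet S) :
    fderiv ℝ (fderiv ℝ g) (σ 0) (η 0) (η 0) + fderiv ℝ g (σ 0) a = 0 := by
  have h0ε : (0 : ℝ) ∈ Ioo (-ε) ε := ⟨by linarith, hε⟩
  have hfd2 : HasFDerivAt (fderiv ℝ g) (fderiv ℝ (fderiv ℝ g) (σ 0)) (σ 0) := by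
    have h1 : ContDiffAt ℝ ∞ (fderiv ℝ g) (σ 0) := (hg.contDiffAt hV).fderiv_right (by norm_num)
    exact (h1.differentiableAt (by simp)).hasFDerivAt
  have h2 : HasDerivAt (fun s => fderiv ℝ g (σ s)) (fderiv ℝ (fderiv ℝ g) (σ 0) (η 0)) 0 :=
    hfd2.comp_hasDerivAt (0 : ℝ) (hσ 0 h0ε)
  have h3 : HasDerivAt (fun s => fderiv ℝ g (σ s) (η s))
      (fderiv ℝ (fderiv ℝ g) (σ 0) (η 0) (η 0) + fderiv ℝ g (σ 0) a) 0 := h2.clm_apply hη
  have h4 : (fun s => fderiv ℝ g (σ s) (η s)) =ᶠ[𝓝 0] fun _ => 0 := by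
    have hV' : ∀ᶠ s in 𝓝 (0 : ℝ), σ s ∈ V :=
      (hσ 0 h0ε).continuousAt.preimage_mem_nhds (hg.isOpen.mem_nhds hV)
    have hε' : ∀ᶠ s in 𝓝 (0 : ℝ), s ∈ Ioo (-ε) ε := isOpen_Ioo.mem_nhds h0ε
    filter_upwards [hV', hε'] with r hr hr'
    exact ((mem_TSet_iff hg hr).1 (hT r hr')).2
  have h5 : HasDerivAt (fun s => fderiv ℝ g (σ s) (η s)) 0 0 :=
    (hasDerivAt_const (0 : ℝ) (0 : F)).congr_of_eventuallyEq h4
  exact h3.unique h5

/-- The acceleration of geodesics does not depend on the local equation. -/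
theorem Acc_eq {S U V : Set E} {f g : E → F} (hf : IsLoc S U f) (hg : IsLoc S V g) {q v : E}
    (hU : q ∈ U) (hV : q ∈ V) (hw : (q, v) ∈ TSet S) : Acc f q v = Acc g q v := by
  obtain ⟨ε, hε, σ, η, h0, h0', hσ⟩ := exists_local_geo hf hU hw
  have h0ε : (0 : ℝ) ∈ Ioo (-ε) ε := ⟨by linarith, hε⟩
  have h1 := second_order hg hε (by rw [h0]; exact hV) (fun t ht => (hσ t ht).1) (hσ 0 h0ε).2.1
    (fun t ht => (hσ t ht).2.2.2)
  rw [h0, h0'] at h1
  -- the difference is tangent and normal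
  have hd : fderiv ℝ g q (Acc f q v - Acc g q v) = 0 := by
    have h2 : fderiv ℝ g q (Acc g q v) = -(fderiv ℝ (fderiv ℝ g) q v v) := by
      show fderiv ℝ g q (-(Rinv _ _)) = _
      rw [map_neg, comp_Rinv (hg.surj _ hV)]
    rw [map_sub, h2, sub_neg_eq_add, add_comm]
    exact h1
  have hd' : fderiv ℝ f q (Acc f q v - Acc g q v) = 0 := by
    have h3 : (q, Acc f q v - Acc g q v) ∈ TSet S := (mem_TSet_iff hg hV).2 ⟨fst_mem_TSet hw, hd⟩
    exact ((mem_TSet_iff hf hU).1 h3).2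
  have h4 : ⟪Acc f q v, Acc f q v - Acc g q v⟫_ℝ = 0 := by
    show ⟪-(Rinv _ _), _⟫_ℝ = 0
    rw [inner_neg_left, inner_Rinv _ hd', neg_zero]
  have h5 : ⟪Acc g q v, Acc f q v - Acc g q v⟫_ℝ = 0 := by
    show ⟪-(Rinv _ _), _⟫_ℝ = 0
    rw [inner_neg_left, inner_Rinv _ hd, neg_zero]
  have h6 : ⟪Acc f q v - Acc g q v, Acc f q v - Acc g q v⟫_ℝ = 0 := by
    nth_rewrite 1 [inner_sub_left]
    rw [h4, h5, sub_zero]
  exact sub_eq_zero.1 (inner_self_eq_zero.1 h6)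

/-- The tangent set of a compact submanifold is closed. -/
theorem isClosed_TSet {S : Set E} (hS : IsCompact S) (hsub : IsSub F S) : IsClosed (TSet S) := by
  rw [← isSeqClosed_iff_isClosed]
  intro w w₀ hw hlim
  have h1 : Tendsto (fun n => (w n).1) atTop (𝓝 w₀.1) := (continuous_fst.tendsto w₀).comp hlim
  have h2 : Tendsto (fun n => (w n).2) atTop (𝓝 w₀.2) := (continuous_snd.tendsto w₀).comp hlim
  have hmem : w₀.1 ∈ S := hS.isClosed.mem_of_tendsto h1 (Eventually.of_forall fun n => fst_mem_TSet (hw n))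
  obtain ⟨U, hpU, f, hf⟩ := hsub _ hmem
  have hev : ∀ᶠ n in atTop, (w n).1 ∈ U := h1.eventually (hf.isOpen.mem_nhds hpU)
  have hc : ContinuousAt (fderiv ℝ f) w₀.1 :=
    ((hf.contDiffAt hpU).fderiv_right (m := ∞) (by norm_num)).continuousAt
  have h3 : Tendsto (fun n => fderiv ℝ f (w n).1 (w n).2) atTop (𝓝 (fderiv ℝ f w₀.1 w₀.2)) :=
    (isBoundedBilinearMap_apply (𝕜 := ℝ) (E := E) (F := F)).continuous.continuousAt.tendsto.comp
      ((hc.tendsto.comp h1).prodMk_nhds h2)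
  have h4 : Tendsto (fun n => fderiv ℝ f (w n).1 (w n).2) atTop (𝓝 0) := by
    refine tendsto_const_nhds.congr' ?_
    filter_upwards [hev] with n hn
    exact ((mem_TSet_iff hf hn).1 (hw n)).2.symm
  exact (mem_TSet_iff hf hpU).2 ⟨hmem, tendsto_nhds_unique h3 h4⟩

omit [FiniteDimensional ℝ E] in
theorem IsGeo.mem_TSet {S : Set E} {γ : ℝ → E} (hγ : IsGeo S γ) (t : ℝ) :
    (γ t, deriv γ t) ∈ TSet S := by
  refine ⟨fun s => γ (t + 1 * s), ((hγ.affine t 1).smooth).of_le (by exact_mod_cast le_top),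
    fun s => hγ.mem _, by simp, ?_⟩
  rw [deriv_affine hγ]; simp

end Pool.Agent.H91.GE
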