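import Pool.Agent.H91.GE.Ret
import Pool.Agent.H91.GE.Planar

/-!
# Geodesics which wind around a hyperbolic closed geodesic and have prescribed ends
-/

set_option autoImplicit false

open scoped InnerProductSpace Topology ContDiff
open Set Filter

namespace Pool.Agent.H91.GE

variable {E F : Type*} [NormedAddCommGroup E] [InnerProductSpace ℝ E] [FiniteDimensional ℝ E]
  [NormedAddCommGroup F] [InnerProductSpace ℝ F] [FiniteDimensional ℝ F]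
  {S : Set E} {A : E × E → E} {K K₂ : NNReal} {Φ : ℝ → E × E → E × E}
  {p e ν : E} {ψ : ℝ × ℝ → E} {I : ℝ × ℝ → E × E} {r : ℝ}

/-- The speed estimate for flow lines of unit tangent vectors. -/
theorem GFlow.dist_fst_le (h : GFlow F S A K K₂ Φ) {z : E × E} (hz : z ∈ TSet S)
    (hz1 : ‖z.2‖ = 1) (t : ℝ) : dist (Φ t z).1 z.1 ≤ |t| := by
  have hd : ∀ s ∈ uIcc 0 t, HasDerivWithinAt (fun s => (Φ s z).1) (Φ s z).2 (uIcc 0 t) s :=
    fun s _ => ((ContinuousLinearMap.fst ℝ E E).hasFDerivAt.comp_hasDerivAt s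
      (h.flow.deriv s z)).hasDerivWithinAt
  have h1 := (convex_uIcc 0 t).norm_image_sub_le_of_norm_hasDerivWithin_le hd (C := 1)
    (fun s _ => by rw [(h.mem hz (by rw [hz1]; norm_num) s).2, hz1]) left_mem_uIcc right_mem_uIcc
  rw [h.flow.zero, one_mul, sub_zero, Real.norm_eq_abs] at h1
  rw [dist_eq_norm]; exact h1

/-- Hyperbolicity of the linearised return map (eigenvectors transversal to the fibre). -/
def HypData (Φ : ℝ → E × E → E × E) (p e ν : E) (I : ℝ × ℝ → E × E) (L : ℝ) : Prop :=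
  ∃ lam mu α β : ℝ, |mu| < 1 ∧ 1 < |lam| ∧
    ((⟪ν, (fderiv ℝ (Φ L) (p, e) (fderiv ℝ I 0 (1, α))).1⟫_ℝ,
      ⟪ν, (fderiv ℝ (Φ L) (p, e) (fderiv ℝ I 0 (1, α))).2⟫_ℝ) : ℝ × ℝ) = lam • (1, α) ∧
    ((⟪ν, (fderiv ℝ (Φ L) (p, e) (fderiv ℝ I 0 (1, β))).1⟫_ℝ,
      ⟪ν, (fderiv ℝ (Φ L) (p, e) (fderiv ℝ I 0 (1, β))).2⟫_ℝ) : ℝ × ℝ) = mu • (1, β)

theorem tube (h : GFlow F S A K K₂ Φ) (hs : Sec S p e ν ψ I r) (he1 : ‖e‖ = 1) (hν1 : ‖ν‖ = 1)
    (heν : ⟪e, ν⟫_ℝ = 0) (he : (p, e) ∈ TSet S) (hν : (p, ν) ∈ TSet S) {L : ℝ} (hL : 0 < L)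
    (hper : Φ L (p, e) = (p, e)) (hyp : HypData Φ p e ν I L) :
    ∃ C > 0, ∃ (PP : ℝ × ℝ → ℝ × ℝ), ∃ A₁ > 0, ∀ a₀, 0 < a₀ → a₀ ≤ A₁ → C * a₀ < r ∧
      ∃ σ, 0 < σ ∧ σ < 1 ∧ ∃ n₀ : ℕ, ∀ n ≥ n₀, ∀ u, |u| ≤ a₀ → ∀ a b, |a| ≤ a₀ / 16 → |b| ≤ a₀ / 2 →
      ∃ (w : ℕ → ℝ × ℝ) (T : ℕ → ℝ) (s : ℝ), (w 0).1 = u ∧ (I (w 0)).1 = ψ (0, u) ∧ T 0 = 0 ∧
        (∀ k < n, T k + L / 2 ≤ T (k + 1) ∧ T (k + 1) ≤ T k + 2 * L) ∧
        (∀ k ≤ n, Φ (T k) (I (w 0)) = I (w k)) ∧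
        (∀ k ≤ n, ‖w k‖ ≤ C * a₀ * max (σ ^ k) (σ ^ (n - k))) ∧ |s| ≤ L / 4 ∧
        |(w n).1 - b| ≤ a₀ / 8 ∧ (∀ k < n, w (k + 1) = PP (w k)) ∧
        (Φ (T n + s) (I (w 0))).1 = ψ (a, b) := by
  obtain ⟨lam, mu, α, β, hμ, hl, hα, hβ⟩ := hyp
  obtain ⟨ρ, hρ, hρr, τ, P, Λ, hτ, hPc, hPI, hP0, hPd, hΛ⟩ :=
    exists_return h hs he1 heν he hν hL hper
  obtain ⟨C, hC, A₀, hA₀, hplan⟩ := planar hρ hPc hP0 hPd hμ hl ((hΛ _).trans hα) ((hΛ _).trans hβ)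
  -- hitting sections near time `0`
  obtain ⟨δ, hδ, hδL, ρ', hρ', hρr', hclose, hex, huniq⟩ :=
    hit h hs he1 (t₁ := 0) (h.flow.zero _) (η := r) (δ₀ := L / 4) hs.pos (by positivity)
  simp only [sub_zero] at hclose hex huniq
  -- `ψ` stays in the ball of radius `r`
  have hψc : ContinuousAt ψ 0 := hs.psi_cont.continuousAt (Metric.ball_mem_nhds _ hs.pos)
  have hψev : ∀ᶠ x in 𝓝 (0 : ℝ × ℝ), ψ x ∈ Metric.ball p r :=
    hψc.preimage_mem_nhds (by rw [hs.psi_zero]; exact Metric.ball_mem_nhds _ hs.pos)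
  obtain ⟨r₂, hr₂, hψb⟩ := Metric.eventually_nhds_iff.1 hψev
  obtain ⟨CI, hCI⟩ := hs.I_lip
  set A₁ : ℝ := min (min A₀ (ρ' / (2 * C))) (min (r₂ / 2) (min (r / 2) (ρ' / 2))) with hA₁
  have hA₁0 : 0 < A₁ := lt_min (lt_min hA₀ (by positivity))
    (lt_min (by positivity) (lt_min (half_pos hs.pos) (by positivity)))
  refine ⟨C, hC, P, A₁, hA₁0, fun a₀ ha₀ ha₀1 => ?_⟩
  have b1 : a₀ ≤ A₀ := ha₀1.trans ((min_le_left _ _).trans (min_le_left _ _))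
  have b2 : a₀ ≤ ρ' / (2 * C) := ha₀1.trans ((min_le_left _ _).trans (min_le_right _ _))
  have b3 : a₀ ≤ r₂ / 2 := ha₀1.trans ((min_le_right _ _).trans (min_le_left _ _))
  have b4 : a₀ ≤ r / 2 := ha₀1.trans ((min_le_right _ _).trans
    ((min_le_right _ _).trans (min_le_left _ _)))
  have b5 : a₀ ≤ ρ' / 2 := ha₀1.trans ((min_le_right _ _).trans
    ((min_le_right _ _).trans (min_le_right _ _)))
  obtain ⟨hCρ, σ, hσ0, hσ1, n₀, hn₀⟩ := hplan a₀ ha₀ b1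
  have hCρ' : C * a₀ < ρ' := by
    rw [le_div_iff₀ (by positivity)] at b2
    nlinarith
  have hCr : C * a₀ < r := lt_of_lt_of_le hCρ hρr
  refine ⟨hCr, σ, hσ0, hσ1, n₀, fun n hn u hu a b ha hb => ?_⟩
  have hadm : |a| < ρ' := by linarith
  have hballC : ∀ w : ℝ × ℝ, ‖w‖ ≤ C * a₀ → w ∈ Metric.ball (0 : ℝ × ℝ) ρ' := fun w hw => by
    rw [Metric.mem_ball, dist_zero_right]; linarith
  have hballr : ∀ w : ℝ × ℝ, ‖w‖ ≤ C * a₀ → w ∈ Metric.ball (0 : ℝ × ℝ) r := fun w hw => by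
    rw [Metric.mem_ball, dist_zero_right]; linarith
  -- the hitting time
  have hex' : ∀ w : ℝ × ℝ, ‖w‖ ≤ C * a₀ → ∃ t, |t| ≤ δ ∧ ⟪e, (Φ t (I w)).1 - p⟫_ℝ = a := fun w hw =>
    hex w (hballC w hw) a hadm
  choose! τ' hτ'1 hτ'2 using hex'
  -- `|τ'| ≤ 2 |a|`
  have hτ'a : ∀ w : ℝ × ℝ, ‖w‖ ≤ C * a₀ → |τ' w| ≤ 2 * |a| := by
    intro w hw
    have h1 := huniq w (hballC w hw) (τ' w) 0 (hτ'1 w hw) (by rw [abs_zero]; exact hδ.le)
    rw [hτ'2 w hw, h.flow.zero, (hs.I_mem w (hballr w hw)).2.2.1, sub_zero, sub_zero] at h1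
    exact h1
  -- continuity of `τ'`
  set D : ℝ := 2 * (CI * Real.exp (K * L)) with hD
  have hτ'lip : ∀ w, ‖w‖ ≤ C * a₀ → ∀ w', ‖w'‖ ≤ C * a₀ → |τ' w - τ' w'| ≤ D * dist w w' := by
    intro w hw w' hw'
    have h1 := huniq w (hballC w hw) (τ' w) (τ' w') (hτ'1 w hw) (hτ'1 w' hw')
    have h2 : ⟪e, (Φ (τ' w) (I w)).1 - p⟫_ℝ - ⟪e, (Φ (τ' w') (I w)).1 - p⟫_ℝ
        = ⟪e, (Φ (τ' w') (I w')).1 - (Φ (τ' w') (I w)).1⟫_ℝ := by
      rw [hτ'2 w hw, ← hτ'2 w' hw', ← inner_sub_right]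
      congr 1; abel
    rw [h2] at h1
    have h3 := abs_real_inner_le_norm e ((Φ (τ' w') (I w')).1 - (Φ (τ' w') (I w)).1)
    rw [he1, one_mul, ← dist_eq_norm] at h3
    have h4 : dist (Φ (τ' w') (I w')).1 (Φ (τ' w') (I w)).1
        ≤ dist (Φ (τ' w') (I w')) (Φ (τ' w') (I w)) := by
      rw [Prod.dist_eq]; exact le_max_left _ _
    have h5 := h.flow.dist_le h.vf (τ' w') (I w') (I w)
    have h6 : dist (I w') (I w) ≤ CI * dist w w' := by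
      rw [dist_comm w w']
      exact hCI.dist_le_mul w' (hballr w' hw') w (hballr w hw)
    have h7 : Real.exp (K * |τ' w'|) ≤ Real.exp (K * L) := by
      refine Real.exp_le_exp.2 (mul_le_mul_of_nonneg_left ?_ K.2)
      have := hτ'1 w' hw'
      linarith
    have h8 : dist (I w') (I w) * Real.exp (K * |τ' w'|) ≤ (CI * dist w w') * Real.exp (K * L) :=
      mul_le_mul h6 h7 (Real.exp_pos _).le (by positivity)
    calc |τ' w - τ' w'| ≤ 2 * ((CI * dist w w') * Real.exp (K * L)) := by linarith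
      _ = D * dist w w' := by rw [hD]; ring
  have hD0 : 0 ≤ D := by rw [hD]; positivity
  have hcb : ∀ w : ℝ × ℝ, w ∈ Metric.closedBall (0 : ℝ × ℝ) (C * a₀) → ‖w‖ ≤ C * a₀ := fun w hw => by
    rwa [Metric.mem_closedBall, dist_zero_right] at hw
  have hτ'c : ContinuousOn τ' (Metric.closedBall 0 (C * a₀)) := by
    have h1 : LipschitzOnWith ⟨D, hD0⟩ τ' (Metric.closedBall 0 (C * a₀)) :=
      LipschitzOnWith.of_dist_le_mul fun w hw w' hw' => by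
        rw [Real.dist_eq]; exact hτ'lip w (hcb w hw) w' (hcb w' hw')
    exact h1.continuousOn
  have hIc : ContinuousOn I (Metric.closedBall 0 (C * a₀)) :=
    hCI.continuousOn.mono fun w hw => hballr w (hcb w hw)
  have hZc : ContinuousOn (fun w => Φ (τ' w) (I w)) (Metric.closedBall 0 (C * a₀)) :=
    (h.flow.continuous h.vf).comp_continuousOn (hτ'c.prodMk hIc)
  have hgc : ContinuousOn (fun w => ⟪ν, (Φ (τ' w) (I w)).1 - p⟫_ℝ - b)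
      (Metric.closedBall 0 (C * a₀)) :=
    (continuousOn_const.inner (hZc.fst.sub continuousOn_const)).sub continuousOn_const
  -- the position at the hitting time is close
  have hnear : ∀ w : ℝ × ℝ, ‖w‖ ≤ C * a₀ → |⟪ν, (Φ (τ' w) (I w)).1 - p⟫_ℝ - w.1| ≤ a₀ / 8 := by
    intro w hw
    obtain ⟨a1, a2, a3, a4, -, -⟩ := hs.I_mem w (hballr w hw)
    have h1 := h.dist_fst_le a1 a2 (τ' w)
    have h2 : ⟪ν, (Φ (τ' w) (I w)).1 - p⟫_ℝ - w.1 = ⟪ν, (Φ (τ' w) (I w)).1 - (I w).1⟫_ℝ := by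
      have h3 : (Φ (τ' w) (I w)).1 - p = ((Φ (τ' w) (I w)).1 - (I w).1) + ((I w).1 - p) := by abel
      rw [h3, inner_add_right, a4]; ring
    rw [h2]
    have h3 := abs_real_inner_le_norm ν ((Φ (τ' w) (I w)).1 - (I w).1)
    rw [hν1, one_mul, ← dist_eq_norm] at h3
    have h4 := hτ'a w hw
    linarith
  obtain ⟨w, hw0, hwP, hwn, hg⟩ := hn₀ n hn u hu (fun w => ⟪ν, (Φ (τ' w) (I w)).1 - p⟫_ℝ - b) hgc
    (fun w hw h3 => by
      have h1 := abs_le.1 (hnear w hw)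
      have h2 := abs_le.1 hb
      show 0 < ⟪ν, (Φ (τ' w) (I w)).1 - p⟫_ℝ - b
      linarith)
    (fun w hw h3 => by
      have h1 := abs_le.1 (hnear w hw)
      have h2 := abs_le.1 hb
      show ⟪ν, (Φ (τ' w) (I w)).1 - p⟫_ℝ - b < 0
      linarith)
  have hwC : ∀ k ≤ n, ‖w k‖ ≤ C * a₀ := by
    intro k hk
    refine (hwn k hk).trans ?_
    have h1 : max (σ ^ k) (σ ^ (n - k)) ≤ 1 :=
      max_le (pow_le_one₀ hσ0.le hσ1.le) (pow_le_one₀ hσ0.le hσ1.le)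
    have h2 : 0 ≤ C * a₀ := by positivity
    nlinarith
  -- cumulative times
  let T : ℕ → ℝ := fun k => ∑ j ∈ Finset.range k, τ (w j)
  have hT0 : T 0 = 0 := by simp [T]
  have hTs : ∀ k, T (k + 1) = T k + τ (w k) := fun k => Finset.sum_range_succ _ _
  have hball : ∀ k ≤ n, w k ∈ Metric.ball (0 : ℝ × ℝ) ρ := fun k hk => by
    rw [Metric.mem_ball, dist_zero_right]; exact lt_of_le_of_lt (hwC k hk) hCρ
  have hΦT : ∀ k ≤ n, Φ (T k) (I (w 0)) = I (w k) := by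
    intro k
    induction k with
    | zero => intro _; rw [hT0, h.flow.zero]
    | succ k ih =>
      intro hk
      rw [hTs, add_comm, h.flow.add h.vf, ih (by omega)]
      have h1 := hwP k (by omega)
      have h2 := hPI (w k) (hball k (by omega)) (by
        rw [← h1]; exact hballr _ (hwC (k + 1) hk))
      rw [h2, h1]
  -- the end point
  have hwn' := hwC n le_rfl
  have hxr : ∀ x : ℝ × ℝ, ‖x‖ ≤ a₀ → x ∈ Metric.ball (0 : ℝ × ℝ) r ∧ ψ x ∈ Metric.ball p r := by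
    intro x hx
    refine ⟨by rw [Metric.mem_ball, dist_zero_right]; linarith, hψb ?_⟩
    rw [dist_zero_right]; linarith
  refine ⟨w, T, τ' (w n), hw0, ?_, hT0, ?_, hΦT, hwn, ?_, ?_, hwP, ?_⟩
  · have hx0 : ‖((0 : ℝ), u)‖ ≤ a₀ := by
      rw [Prod.norm_def]; simp only [norm_zero, Real.norm_eq_abs]
      exact max_le ha₀.le hu
    obtain ⟨c1, c2⟩ := hxr (0, u) hx0
    obtain ⟨d1, d2, d3⟩ := hs.psi_mem _ c1
    have hw0' := hwC 0 (Nat.zero_le _)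
    obtain ⟨a1, a2, a3, a4, -, -⟩ := hs.I_mem (w 0) (hballr _ hw0')
    have hIr : (I (w 0)).1 ∈ Metric.ball p r := by
      have h1 := (hclose (w 0) (hballC _ hw0') 0 (by rw [abs_zero]; exact hδ.le)).1
      rw [h.flow.zero, Prod.dist_eq, max_lt_iff] at h1
      exact h1.1
    refine hs.inj _ (fst_mem_TSet a1) _ d1 hIr c2 ?_ ?_
    · rw [a3, d2]
    · rw [a4, d3, hw0]
  · intro k hk
    obtain ⟨h1, h2⟩ := hτ (w k) (hball k hk.le)
    rw [hTs]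
    constructor <;> linarith
  · exact (hτ'1 (w n) hwn').trans hδL
  · have h1 := hnear (w n) hwn'
    have h2 : ⟪ν, (Φ (τ' (w n)) (I (w n))).1 - p⟫_ℝ = b := sub_eq_zero.1 hg
    rw [h2, abs_sub_comm] at h1
    exact h1
  · rw [add_comm, h.flow.add h.vf, hΦT n le_rfl]
    have hx0 : ‖(a, b)‖ ≤ a₀ := by
      rw [Prod.norm_def]; simp only [Real.norm_eq_abs]
      exact max_le (by linarith) (by linarith)
    obtain ⟨c1, c2⟩ := hxr (a, b) hx0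
    obtain ⟨d1, d2, d3⟩ := hs.psi_mem _ c1
    obtain ⟨a1, a2, a3, a4, -, -⟩ := hs.I_mem (w n) (hballr _ hwn')
    have hmem := (h.mem a1 (by rw [a2]; norm_num) (τ' (w n))).1
    have hr' := (hclose (w n) (hballC _ hwn') (τ' (w n)) (hτ'1 (w n) hwn')).1
    rw [Prod.dist_eq, max_lt_iff] at hr'
    refine hs.inj _ (fst_mem_TSet hmem) _ d1 hr'.1 c2 ?_ ?_
    · rw [hτ'2 (w n) hwn', d2]
    · rw [d3]
      exact sub_eq_zero.1 hg

end Pool.Agent.H91.GE
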