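import Mathlib

/-!
# Orbits of a planar map near a hyperbolic fixed point (windows)
-/

set_option autoImplicit false

open scoped Topology
open Set Filter

namespace Pool.Agent.H91.GE

/-- Crossing lemma on an ordered interval. -/
theorem crossing_aux {f : ℝ → ℝ} {x y A : ℝ} (hA : 0 < A) (hxy : x ≤ y)
    (hf : ContinuousOn f (Icc x y)) (hx : f x < -A) (hy : A < f y) :
    ∃ x' y', x ≤ x' ∧ x' ≤ y' ∧ y' ≤ y ∧ f x' = -A ∧ f y' = A ∧
      ∀ s ∈ Icc x' y', f s ∈ Icc (-A) A := by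
  -- first time at level `A`
  have h1 : IsCompact {s ∈ Icc x y | f s = A} := by
    have h2 : {s ∈ Icc x y | f s = A} = Icc x y ∩ f ⁻¹' {A} := rfl
    rw [h2]
    exact isCompact_Icc.of_isClosed_subset (hf.preimage_isClosed_of_isClosed isClosed_Icc
      isClosed_singleton) inter_subset_left
  have h1n : {s ∈ Icc x y | f s = A}.Nonempty := by
    obtain ⟨s, hs, hsA⟩ := intermediate_value_Icc hxy hf (show A ∈ Icc (f x) (f y) from
      ⟨by linarith, hy.le⟩)
    exact ⟨s, hs, hsA⟩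
  obtain ⟨y', ⟨hy'1, hy'2⟩, hy'min⟩ := h1.exists_isLeast h1n
  have hlt : ∀ s ∈ Icc x y', f s ≤ A := by
    intro s hs
    by_contra hcon
    push Not at hcon
    have hf' : ContinuousOn f (Icc x s) := hf.mono (Icc_subset_Icc le_rfl (hs.2.trans hy'1.2))
    obtain ⟨t, ht, htA⟩ := intermediate_value_Icc hs.1 hf' (show A ∈ Icc (f x) (f s) from
      ⟨by linarith, hcon.le⟩)
    have h3 := hy'min (show t ∈ {s ∈ Icc x y | f s = A} from
      ⟨⟨ht.1, ht.2.trans (hs.2.trans hy'1.2)⟩, htA⟩)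
    have h4 : t = s := le_antisymm ht.2 (hs.2.trans h3)
    rw [h4] at htA; linarith
  -- last time at level `-A` before
  have hfy : ContinuousOn f (Icc x y') := hf.mono (Icc_subset_Icc le_rfl hy'1.2)
  have h5 : IsCompact {s ∈ Icc x y' | f s = -A} := by
    have h2 : {s ∈ Icc x y' | f s = -A} = Icc x y' ∩ f ⁻¹' {-A} := rfl
    rw [h2]
    exact isCompact_Icc.of_isClosed_subset (hfy.preimage_isClosed_of_isClosed isClosed_Icc
      isClosed_singleton) inter_subset_left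
  have h5n : {s ∈ Icc x y' | f s = -A}.Nonempty := by
    obtain ⟨s, hs, hsA⟩ := intermediate_value_Icc hy'1.1 hfy (show -A ∈ Icc (f x) (f y') from
      ⟨hx.le, by rw [hy'2]; linarith⟩)
    exact ⟨s, hs, hsA⟩
  obtain ⟨x', ⟨hx'1, hx'2⟩, hx'max⟩ := h5.exists_isGreatest h5n
  refine ⟨x', y', hx'1.1, hx'1.2, hy'1.2, hx'2, hy'2, fun s hs => ⟨?_, hlt s ⟨hx'1.1.trans hs.1, hs.2⟩⟩⟩
  by_contra hcon
  push Not at hcon
  have hf' : ContinuousOn f (Icc s y') := hfy.mono (Icc_subset_Icc (hx'1.1.trans hs.1) le_rfl)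
  obtain ⟨t, ht, htA⟩ := intermediate_value_Icc hs.2 hf' (show -A ∈ Icc (f s) (f y') from
    ⟨hcon.le, by rw [hy'2]; linarith⟩)
  have h3 := hx'max (show t ∈ {s ∈ Icc x y' | f s = -A} from
    ⟨⟨hx'1.1.trans (hs.1.trans ht.1), ht.2⟩, htA⟩)
  have h4 : t = s := le_antisymm (h3.trans hs.1) ht.1
  rw [h4] at htA; linarith

theorem crossing {f : ℝ → ℝ} {x y A : ℝ} (hA : 0 < A)
    (hf : ContinuousOn f (uIcc x y)) (hx : f x < -A) (hy : A < f y) :
    ∃ x' y', uIcc x' y' ⊆ uIcc x y ∧ f x' = -A ∧ f y' = A ∧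
      ∀ s ∈ uIcc x' y', f s ∈ Icc (-A) A := by
  rcases le_total x y with hle | hle
  · rw [uIcc_of_le hle] at hf ⊢
    obtain ⟨x', y', h1, h2, h3, h4, h5, h6⟩ := crossing_aux hA hle hf hx hy
    refine ⟨x', y', ?_, h4, h5, ?_⟩
    · rw [uIcc_of_le h2]; exact Icc_subset_Icc h1 h3
    · rw [uIcc_of_le h2]; exact h6
  · rw [uIcc_of_ge hle] at hf ⊢
    have hf' : ContinuousOn (fun s => f (-s)) (Icc (-x) (-y)) :=
      hf.comp continuousOn_neg fun s hs => ⟨by linarith [hs.2], by linarith [hs.1]⟩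
    obtain ⟨x', y', h1, h2, h3, h4, h5, h6⟩ := crossing_aux (f := fun s => f (-s)) hA
      (by linarith) hf' (by simpa using hx) (by simpa using hy)
    refine ⟨-x', -y', ?_, h4, h5, ?_⟩
    · rw [uIcc_of_ge (by linarith)]; exact Icc_subset_Icc (by linarith) (by linarith)
    · rw [uIcc_of_ge (by linarith)]
      intro s hs
      have := h6 (-s) ⟨by linarith [hs.2], by linarith [hs.1]⟩
      simpa using this

section

variable {Q : ℝ × ℝ → ℝ × ℝ} {lam mu η A : ℝ}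

/-- The estimate for the deviation from the linear map on the window. -/
def Dev (Q : ℝ × ℝ → ℝ × ℝ) (lam mu η A : ℝ) : Prop :=
  ∀ x : ℝ × ℝ, |x.1| ≤ A → |x.2| ≤ 2 * A →
    |(Q x).1 - lam * x.1| ≤ η * max |x.1| |x.2| ∧ |(Q x).2 - mu * x.2| ≤ η * max |x.1| |x.2|

/-- Exponential closeness to the fixed point in the middle. -/
theorem middle (hη : 0 ≤ η) (hμ : |mu| + η < 1) (hl : 1 < |lam| - η) (hD : Dev Q lam mu η A)
    (hA : 0 ≤ A) :
    ∃ σ, 0 < σ ∧ σ < 1 ∧ ∀ (n : ℕ) (x : ℕ → ℝ × ℝ), (∀ k < n, x (k + 1) = Q (x k)) →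
      (∀ k ≤ n, |(x k).1| ≤ A ∧ |(x k).2| ≤ 2 * A) →
      ∀ k ≤ n, |(x k).1| ≤ 2 * A * max (σ ^ k) (σ ^ (n - k)) ∧
        |(x k).2| ≤ 2 * A * max (σ ^ k) (σ ^ (n - k)) := by
  set σ := max (|mu| + η) (1 / (|lam| - η)) with hσ
  have hσ1 : σ < 1 := max_lt hμ (by rw [div_lt_one (by linarith)]; exact hl)
  have hσ0 : 0 < σ := lt_of_lt_of_le (by positivity : 0 < 1 / (|lam| - η)) (le_max_right _ _)
  have hσμ : |mu| + η ≤ σ := le_max_left _ _
  have hσl : ∀ y : ℝ, 0 ≤ y → y ≤ σ * ((|lam| - η) * y) := by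
    intro y hy
    have h1 : 1 / (|lam| - η) ≤ σ := le_max_right _ _
    have h2 : 0 < |lam| - η := by linarith
    have h3 : 1 ≤ σ * (|lam| - η) := by
      rw [div_le_iff₀ h2] at h1; linarith
    nlinarith
  refine ⟨σ, hσ0, hσ1, fun n x hx hN => ?_⟩
  -- the cone is invariant
  have hcone : ∀ k < n, |(x k).2| ≤ |(x k).1| →
      |(x (k + 1)).2| ≤ |(x (k + 1)).1| ∧ |(x k).1| ≤ σ * |(x (k + 1)).1| := by
    intro k hk hc
    obtain ⟨h1, h2⟩ := hN k hk.le
    obtain ⟨h3, h4⟩ := hD (x k) h1 h2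
    rw [max_eq_left hc, ← hx k hk] at h3 h4
    have h5 : (|lam| - η) * |(x k).1| ≤ |(x (k + 1)).1| := by
      have h6 := abs_sub_abs_le_abs_sub (lam * (x k).1) ((x (k + 1)).1)
      rw [abs_sub_comm, abs_mul] at h6
      linarith
    have h6 : |(x (k + 1)).2| ≤ (|mu| + η) * |(x k).1| := by
      have h7 := abs_sub_abs_le_abs_sub ((x (k + 1)).2) (mu * (x k).2)
      rw [abs_mul] at h7
      have h8 : |mu| * |(x k).2| ≤ |mu| * |(x k).1| := mul_le_mul_of_nonneg_left hc (abs_nonneg _)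
      linarith
    have h7 : 0 ≤ |(x k).1| := abs_nonneg _
    refine ⟨?_, ?_⟩
    · nlinarith
    · exact (hσl _ h7).trans (mul_le_mul_of_nonneg_left h5 hσ0.le)
  have hcontr : ∀ k < n, |(x k).1| ≤ |(x k).2| → |(x (k + 1)).2| ≤ σ * |(x k).2| := by
    intro k hk hc
    obtain ⟨h1, h2⟩ := hN k hk.le
    obtain ⟨h3, h4⟩ := hD (x k) h1 h2
    rw [max_eq_right hc, ← hx k hk] at h3 h4
    have h7 := abs_sub_abs_le_abs_sub ((x (k + 1)).2) (mu * (x k).2)
    rw [abs_mul] at h7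
    have h8 : 0 ≤ |(x k).2| := abs_nonneg _
    nlinarith
  -- forward statement
  have hfwd : ∀ m k : ℕ, k + m ≤ n → |(x k).2| ≤ |(x k).1| →
      |(x k).1| ≤ σ ^ m * |(x (k + m)).1| := by
    intro m
    induction m with
    | zero => intro k _ _; simp
    | succ m ih =>
      intro k hk hc
      obtain ⟨h1, h2⟩ := hcone k (by omega) hc
      have h3 := ih (k + 1) (by omega) h1
      have h4 : k + 1 + m = k + (m + 1) := by ring
      rw [h4] at h3
      calc |(x k).1| ≤ σ * |(x (k + 1)).1| := h2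
        _ ≤ σ * (σ ^ m * |(x (k + (m + 1))).1|) := mul_le_mul_of_nonneg_left h3 hσ0.le
        _ = σ ^ (m + 1) * |(x (k + (m + 1))).1| := by ring
  have hbwd : ∀ k : ℕ, k ≤ n → |(x k).1| < |(x k).2| → |(x k).2| ≤ σ ^ k * |(x 0).2| := by
    intro k
    induction k with
    | zero => intro _ _; simp
    | succ k ih =>
      intro hk hc
      have h1 : |(x k).1| < |(x k).2| := by
        by_contra hcon
        push Not at hcon
        have := (hcone k (by omega) hcon).1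
        linarith
      have h2 := ih (by omega) h1
      have h3 := hcontr k (by omega) h1.le
      calc |(x (k + 1)).2| ≤ σ * |(x k).2| := h3
        _ ≤ σ * (σ ^ k * |(x 0).2|) := mul_le_mul_of_nonneg_left h2 hσ0.le
        _ = σ ^ (k + 1) * |(x 0).2| := by ring
  intro k hk
  have hmax : 0 ≤ max (σ ^ k) (σ ^ (n - k)) := le_max_of_le_left (by positivity)
  rcases le_or_gt (|(x k).2|) (|(x k).1|) with hc | hc
  · have h1 := hfwd (n - k) k (by omega) hc
    have h2 : k + (n - k) = n := by omega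
    rw [h2] at h1
    have h3 := (hN n le_rfl).1
    have h4 : σ ^ (n - k) * |(x n).1| ≤ max (σ ^ k) (σ ^ (n - k)) * A :=
      mul_le_mul (le_max_right _ _) h3 (abs_nonneg _) hmax
    have h5 : max (σ ^ k) (σ ^ (n - k)) * A ≤ 2 * A * max (σ ^ k) (σ ^ (n - k)) := by nlinarith
    have h6 : |(x k).1| ≤ 2 * A * max (σ ^ k) (σ ^ (n - k)) := by linarith
    exact ⟨h6, hc.trans h6⟩
  · have h1 := hbwd k hk hc
    have h3 := (hN 0 (Nat.zero_le _)).2
    have h4 : σ ^ k * |(x 0).2| ≤ max (σ ^ k) (σ ^ (n - k)) * (2 * A) :=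
      mul_le_mul (le_max_left _ _) h3 (abs_nonneg _) hmax
    have h6 : |(x k).2| ≤ 2 * A * max (σ ^ k) (σ ^ (n - k)) := by linarith
    exact ⟨hc.le.trans h6, h6⟩

/-- The orbit which starts at `(s, u - s)`. -/
def orb (Q : ℝ × ℝ → ℝ × ℝ) (u : ℝ) : ℕ → ℝ → ℝ × ℝ
  | 0, s => (s, u - s)
  | k + 1, s => Q (orb Q u k s)

/-- Windows: there is an interval of parameters whose orbits stay in the window for `n` steps and
cross it. -/
theorem windows (hη : 0 ≤ η) (hμ : |mu| + η ≤ 1) (hl : 1 < |lam| - 2 * η)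
    (hD : Dev Q lam mu η A) (hA : 0 < A)
    (hQ : ContinuousOn Q {x | |x.1| ≤ A ∧ |x.2| ≤ 2 * A}) {u : ℝ} (hu : |u| ≤ A) (n : ℕ) :
    ∃ s₁ s₂, (∀ s ∈ uIcc s₁ s₂, ∀ k ≤ n, |(orb Q u k s).1| ≤ A ∧ |(orb Q u k s).2| ≤ 2 * A) ∧
      (∀ k ≤ n, ContinuousOn (orb Q u k) (uIcc s₁ s₂)) ∧
      (orb Q u n s₁).1 = -A ∧ (orb Q u n s₂).1 = A := by
  induction n with
  | zero =>
    refine ⟨-A, A, ?_, ?_, rfl, rfl⟩
    · intro s hs k hk
      rw [Nat.le_zero.1 hk]
      rw [uIcc_of_le (by linarith)] at hs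
      show |s| ≤ A ∧ |u - s| ≤ 2 * A
      have h1 : |s| ≤ A := abs_le.2 ⟨hs.1, hs.2⟩
      refine ⟨h1, ?_⟩
      calc |u - s| ≤ |u| + |s| := abs_sub _ _
        _ ≤ 2 * A := by linarith
    · intro k hk
      rw [Nat.le_zero.1 hk]
      exact (continuous_id.prodMk (continuous_const.sub continuous_id)).continuousOn
  | succ n ih =>
    obtain ⟨s₁, s₂, h1, h2, h3, h4⟩ := ih
    have hcont : ContinuousOn (orb Q u (n + 1)) (uIcc s₁ s₂) :=
      hQ.comp (h2 n le_rfl) fun s hs => h1 s hs n le_rfl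
    have hend : ∀ s ∈ uIcc s₁ s₂, |(orb Q u (n + 1) s).1 - lam * (orb Q u n s).1| ≤ 2 * η * A ∧
        |(orb Q u (n + 1) s).2| ≤ 2 * A := by
      intro s hs
      obtain ⟨a1, a2⟩ := h1 s hs n le_rfl
      obtain ⟨b1, b2⟩ := hD _ a1 a2
      have hm : max |(orb Q u n s).1| |(orb Q u n s).2| ≤ 2 * A := max_le (by linarith) a2
      have hm' : η * max |(orb Q u n s).1| |(orb Q u n s).2| ≤ η * (2 * A) :=
        mul_le_mul_of_nonneg_left hm hη
      refine ⟨by
        show |(Q (orb Q u n s)).1 - _| ≤ _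
        linarith, ?_⟩
      show |(Q (orb Q u n s)).2| ≤ _
      have h7 := abs_sub_abs_le_abs_sub ((Q (orb Q u n s)).2) (mu * (orb Q u n s).2)
      rw [abs_mul] at h7
      have h8 : |mu| * |(orb Q u n s).2| ≤ |mu| * (2 * A) :=
        mul_le_mul_of_nonneg_left a2 (abs_nonneg _)
      nlinarith
    have he1 := (hend s₁ left_mem_uIcc).1
    have he2 := (hend s₂ right_mem_uIcc).1
    rw [h3] at he1
    rw [h4] at he2
    rw [abs_le] at he1 he2
    -- common final step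
    have key : ∀ ε : ℝ, ε = 1 ∨ ε = -1 → ∀ a b : ℝ, uIcc a b = uIcc s₁ s₂ →
        ε * (orb Q u (n + 1) a).1 < -A → A < ε * (orb Q u (n + 1) b).1 →
        ∃ x' y', uIcc x' y' ⊆ uIcc s₁ s₂ ∧ ε * (orb Q u (n + 1) x').1 = -A ∧
          ε * (orb Q u (n + 1) y').1 = A ∧
          ∀ s ∈ uIcc x' y', |(orb Q u (n + 1) s).1| ≤ A := by
      intro ε hε a b hab ha hb
      have hc : ContinuousOn (fun s => ε * (orb Q u (n + 1) s).1) (uIcc a b) := by
        rw [hab]; exact continuousOn_const.mul hcont.fst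
      obtain ⟨x', y', c1, c2, c3, c4⟩ := crossing (f := fun s => ε * (orb Q u (n + 1) s).1) hA hc ha hb
      refine ⟨x', y', by rw [← hab]; exact c1, c2, c3, fun s hs => ?_⟩
      have h5 := c4 s hs
      have h6 : |ε * (orb Q u (n + 1) s).1| ≤ A := abs_le.2 ⟨h5.1, h5.2⟩
      rcases hε with rfl | rfl
      · simpa using h6
      · simpa using h6
    have wrap : ∀ x' y', uIcc x' y' ⊆ uIcc s₁ s₂ → (∀ s ∈ uIcc x' y', |(orb Q u (n + 1) s).1| ≤ A) →
        (∀ s ∈ uIcc x' y', ∀ k ≤ n + 1, |(orb Q u k s).1| ≤ A ∧ |(orb Q u k s).2| ≤ 2 * A) ∧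
        (∀ k ≤ n + 1, ContinuousOn (orb Q u k) (uIcc x' y')) := by
      intro x' y' hsub hb
      constructor
      · intro s hs k hk
        rcases Nat.lt_or_ge k (n + 1) with hk' | hk'
        · exact h1 s (hsub hs) k (by omega)
        · have : k = n + 1 := by omega
          rw [this]
          exact ⟨hb s hs, (hend s (hsub hs)).2⟩
      · intro k hk
        rcases Nat.lt_or_ge k (n + 1) with hk' | hk'
        · exact (h2 k (by omega)).mono hsub
        · have : k = n + 1 := by omega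
          rw [this]; exact hcont.mono hsub
    rcases le_or_gt 0 lam with hlam | hlam
    · rw [abs_of_nonneg hlam] at hl
      obtain ⟨x', y', c1, c2, c3, c4⟩ := key 1 (Or.inl rfl) s₁ s₂ rfl (by nlinarith) (by nlinarith)
      obtain ⟨d1, d2⟩ := wrap x' y' c1 c4
      exact ⟨x', y', d1, d2, by linarith, by linarith⟩
    · rw [abs_of_neg hlam] at hl
      obtain ⟨x', y', c1, c2, c3, c4⟩ := key (-1) (Or.inr rfl) s₁ s₂ rfl (by nlinarith) (by nlinarith)
      obtain ⟨d1, d2⟩ := wrap y' x' (by rw [uIcc_comm]; exact c1) (by rw [uIcc_comm]; exact c4)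
      exact ⟨y', x', d1, d2, by linarith, by linarith⟩

end

end Pool.Agent.H91.GE
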